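import Pool.Agent.Lib.MP_87c685_nt_X15.LocUnr

open NumberField WeierstrassCurve

namespace X15

namespace LocRam

open LocUnr

variable {p : ℕ} [Fact p.Prime]

theorem quot_small {x y : ℚ_[p]} (hx : x ≠ 0) (hy : y ≠ 0) (h : y.valuation < x.valuation) :
    ‖x / y‖ < 1 := by
  rw [norm_div, div_lt_one (norm_pos_iff.2 hy)]
  exact (lt_iff hy hx).2 h

/-- `B` of large norm -/
theorem caseBig (hp : p ≠ 2) {d B y : ℚ_[p]} (hd : d ≠ 0) (hB : B ≠ 0)
    (hA : B - 9 * d ≠ 0) (hC : B - 25 * d ≠ 0)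
    (h : B * (B - 9 * d) * (B - 25 * d) = y ^ 2)
    (h9 : B.valuation < ((9:ℚ_[p]) * d).valuation)
    (h25 : B.valuation < ((25:ℚ_[p]) * d).valuation) : IsSquare B := by
  obtain ⟨s, hs⟩ := isSquare_one_add hp (-(9 * d / B)) (by
    rw [norm_neg]; exact quot_small (mul_ne_zero (by norm_num) hd) hB h9)
  obtain ⟨t, ht⟩ := isSquare_one_add hp (-(25 * d / B)) (by
    rw [norm_neg]; exact quot_small (mul_ne_zero (by norm_num) hd) hB h25)
  have e1 : B - 9 * d = B * (s * s) := by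
    rw [← hs]
    field_simp
    ring
  have e2 : B - 25 * d = B * (t * t) := by
    rw [← ht]
    field_simp
    ring
  have hs0 : s ≠ 0 := by
    rintro rfl
    apply hA
    rw [e1]
    ring
  have ht0 : t ≠ 0 := by
    rintro rfl
    apply hC
    rw [e2]
    ring
  refine ⟨y / (B * s * t), ?_⟩
  rw [div_mul_div_comm, ← pow_two y, ← h, e1, e2]
  field_simp

/-- `B` of small norm -/
theorem caseSmall (hp : p ≠ 2) {d B y : ℚ_[p]} (hd : d ≠ 0) (hB : B ≠ 0)
    (hA : B - 9 * d ≠ 0) (hC : B - 25 * d ≠ 0)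
    (h : B * (B - 9 * d) * (B - 25 * d) = y ^ 2)
    (h9 : ((9:ℚ_[p]) * d).valuation < B.valuation)
    (h25 : ((25:ℚ_[p]) * d).valuation < B.valuation) : IsSquare B := by
  have n9 : (9:ℚ_[p]) ≠ 0 := by norm_num
  have n25 : (25:ℚ_[p]) ≠ 0 := by norm_num
  obtain ⟨s, hs⟩ := isSquare_one_add hp (-(B / (9 * d))) (by
    rw [norm_neg]; exact quot_small hB (mul_ne_zero n9 hd) h9)
  obtain ⟨t, ht⟩ := isSquare_one_add hp (-(B / (25 * d))) (by
    rw [norm_neg]; exact quot_small hB (mul_ne_zero n25 hd) h25)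
  have e1 : B - 9 * d = -(9 * d * (s * s)) := by
    rw [← hs]
    field_simp
    ring
  have e2 : B - 25 * d = -(25 * d * (t * t)) := by
    rw [← ht]
    field_simp
    ring
  have hs0 : s ≠ 0 := by
    rintro rfl
    apply hA
    rw [e1]
    ring
  have ht0 : t ≠ 0 := by
    rintro rfl
    apply hC
    rw [e2]
    ring
  refine ⟨y / (15 * d * s * t), ?_⟩
  rw [div_mul_div_comm, ← pow_two y, ← h, e1, e2]
  have n15 : (15:ℚ_[p]) ≠ 0 := by norm_num
  field_simp
  ring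

theorem caseRoot (hp : p ≠ 2) {d B c r : ℚ_[p]} (hd : d ≠ 0) (hr : r ≠ 0) (hc : c = r * r)
    (hC : B - c * d ≠ 0) (hv : (c * d).valuation < (B - c * d).valuation) :
    IsSquare (B * d) := by
  have hc0 : c ≠ 0 := by
    rw [hc]
    exact mul_ne_zero hr hr
  obtain ⟨s, hs⟩ := isSquare_one_add hp ((B - c * d) / (c * d))
    (quot_small hC (mul_ne_zero hc0 hd) hv)
  have e1 : B = c * d * (s * s) := by
    rw [← hs]
    field_simp
    ring
  refine ⟨r * d * s, ?_⟩
  rw [e1, hc]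
  ring

end LocRam

open LocUnr LocRam

/-- C2: `p` odd, `d` of odd valuation. -/
theorem loc_ram {p : ℕ} [Fact p.Prime] (hp : p ≠ 2) (d B y : ℚ_[p]) (hd : ¬ Even d.valuation)
    (hy : y ≠ 0) (h : B * (B - 9 * d) * (B - 25 * d) = y ^ 2) :
    IsSquare B ∨ IsSquare (B * d) := by
  obtain ⟨hA, hB, hC⟩ := nz hy h
  have hs := val_sum hy h
  have hd0 : d ≠ 0 := by
    rintro rfl
    apply hd
    rw [Padic.valuation_zero]
    exact Even.zero
  have n9 : (9:ℚ_[p]) ≠ 0 := by norm_num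
  have n16 : (16:ℚ_[p]) ≠ 0 := by norm_num
  have n25 : (25:ℚ_[p]) ≠ 0 := by norm_num
  rw [Int.even_iff] at hd
  have h16 : ((16:ℚ_[p]) * d).valuation = d.valuation := by
    have h1 := val_cop (not_dvd_sq (p := p) Nat.prime_two (k := 4) (n := 16) (by norm_num) hp)
    have h2 : ((16:ℕ) : ℚ_[p]) = 16 := by norm_num
    rw [h2] at h1
    rw [Padic.valuation_mul n16 hd0, h1, zero_add]
  have h9 : ((9:ℚ_[p]) * d).valuation = ((9:ℕ) : ℚ_[p]).valuation + d.valuation := by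
    rw [Padic.valuation_mul n9 hd0]
    norm_num
  have h25 : ((25:ℚ_[p]) * d).valuation = ((25:ℕ) : ℚ_[p]).valuation + d.valuation := by
    rw [Padic.valuation_mul n25 hd0]
    norm_num
  have R1 := tri hA (mul_ne_zero n9 hd0) hB (by ring)
  have R2 := tri hC (mul_ne_zero n25 hd0) hB (by ring)
  have R3 := tri hC (mul_ne_zero n16 hd0) hA (by ring)
  by_cases c1 : B.valuation < ((9:ℚ_[p]) * d).valuation ∧
      B.valuation < ((25:ℚ_[p]) * d).valuation
  · exact Or.inl (caseBig hp hd0 hB hA hC h c1.1 c1.2)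
  by_cases c2 : ((9:ℚ_[p]) * d).valuation < B.valuation ∧
      ((25:ℚ_[p]) * d).valuation < B.valuation
  · exact Or.inl (caseSmall hp hd0 hB hA hC h c2.1 c2.2)
  by_cases c3 : ((9:ℚ_[p]) * d).valuation < (B - 9 * d).valuation
  · exact Or.inr (caseRoot hp hd0 (r := 3) (by norm_num) (by norm_num) hA c3)
  by_cases c4 : ((25:ℚ_[p]) * d).valuation < (B - 25 * d).valuation
  · exact Or.inr (caseRoot hp hd0 (r := 5) (by norm_num) (by norm_num) hC c4)
  exfalso
  rw [h9] at R1 c1 c2 c3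
  rw [h25] at R2 c1 c2 c4
  rw [h16] at R3
  by_cases hp3 : p = 3
  · subst hp3
    have e9 : ((9:ℕ) : ℚ_[3]).valuation = 2 := by
      have h1 : ((9:ℕ) : ℚ_[3]) = ((3:ℕ) : ℚ_[3]) ^ 2 := by norm_num
      rw [h1, Padic.valuation_pow, Padic.valuation_p]
      norm_num
    have e25 : ((25:ℕ) : ℚ_[3]).valuation = 0 := val_cop (by norm_num)
    rw [e9] at R1 c1 c2 c3
    rw [e25] at R2 c1 c2 c4
    omega
  · have e9 : ((9:ℕ) : ℚ_[p]).valuation = 0 :=
      val_cop (not_dvd_sq (p := p) Nat.prime_three (k := 2) (n := 9) (by norm_num) hp3)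
    rw [e9] at R1 c1 c2 c3
    by_cases hp5 : p = 5
    · subst hp5
      have e25 : ((25:ℕ) : ℚ_[5]).valuation = 2 := by
        have h1 : ((25:ℕ) : ℚ_[5]) = ((5:ℕ) : ℚ_[5]) ^ 2 := by norm_num
        rw [h1, Padic.valuation_pow, Padic.valuation_p]
        norm_num
      rw [e25] at R2 c1 c2 c4
      omega
    · have e25 : ((25:ℕ) : ℚ_[p]).valuation = 0 :=
        val_cop (not_dvd_sq (p := p) Nat.prime_five (k := 2) (n := 25) (by norm_num) hp5)
      rw [e25] at R2 c1 c2 c4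
      omega

end X15
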