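import Pool.Agent.Lib.MP_87c685_nt_X15.PadicSq

open NumberField WeierstrassCurve

namespace X15

theorem lt_hens (z : ℤ_[2]) : ∃ w : ℤ_[2], w ^ 2 = 1 + 8 * z := by
  have h2 : ‖(2 : ℤ_[2])‖ = 1 / 2 := by
    have := PadicInt.norm_p (p := 2)
    simpa using this
  have h8 : ‖(8 : ℤ_[2])‖ = 1 / 8 := by
    rw [show (8 : ℤ_[2]) = 2 ^ 3 by norm_num, norm_pow, h2]; norm_num
  have hz : ‖z‖ ≤ 1 := PadicInt.norm_le_one z
  let F : Polynomial ℤ_[2] := Polynomial.X ^ 2 - Polynomial.C (1 + 8 * z)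
  have hF1 : F.eval 1 = - (8 * z) := by simp [F]
  have hd : F.derivative.eval 1 = 2 := by simp [F]; norm_num
  obtain ⟨w, hw, -⟩ := hensels_lemma (F := F) (a := 1) (by
    have e1 : (Polynomial.aeval (1 : ℤ_[2])) F = F.eval 1 := by
      rw [Polynomial.aeval_def]; rfl
    have e2 : (Polynomial.aeval (1 : ℤ_[2])) F.derivative = F.derivative.eval 1 := by
      rw [Polynomial.aeval_def]; rfl
    rw [e1, e2, hF1, hd, norm_neg, norm_mul, h8, h2]
    have : 1 / 8 * ‖z‖ ≤ 1 / 8 := by nlinarith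
    calc 1 / 8 * ‖z‖ ≤ 1 / 8 := this
      _ < (1 / 2) ^ 2 := by norm_num)
  refine ⟨w, ?_⟩
  have e1 : (Polynomial.aeval (w : ℤ_[2])) F = F.eval w := by
    rw [Polynomial.aeval_def]; rfl
  rw [e1] at hw
  simp only [F, Polynomial.eval_sub, Polynomial.eval_pow, Polynomial.eval_X, Polynomial.eval_C] at hw
  linear_combination hw

theorem lt_coe2 : ((2 : ℤ_[2]) : ℚ_[2]) = 2 := map_ofNat (PadicInt.Coe.ringHom (p := 2)) 2

theorem lt_coe8 : ((8 : ℤ_[2]) : ℚ_[2]) = 8 := map_ofNat (PadicInt.Coe.ringHom (p := 2)) 8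

theorem lt_sq8 (z : ℤ_[2]) : IsSquare (1 + 8 * (z : ℚ_[2])) := by
  obtain ⟨w, hw⟩ := lt_hens z
  refine ⟨(w : ℚ_[2]), ?_⟩
  have := congrArg (fun t : ℤ_[2] => (t : ℚ_[2])) hw
  push_cast at this
  rw [lt_coe8] at this
  linear_combination -this

theorem lt_even_or_odd (z : ℤ_[2]) : (∃ w, z = 2 * w) ∨ (∃ w, z = 2 * w + 1) := by
  have hker := PadicInt.ker_toZMod (p := 2)
  have hm : IsLocalRing.maximalIdeal ℤ_[2] = Ideal.span {(2 : ℤ_[2])} := by
    simpa using PadicInt.maximalIdeal_eq_span_p (p := 2)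
  have key : ∀ u : ℤ_[2], PadicInt.toZMod u = 0 → ∃ w, u = 2 * w := by
    intro u hu
    have : u ∈ RingHom.ker (PadicInt.toZMod (p := 2)) := hu
    rw [hker, hm, Ideal.mem_span_singleton] at this
    obtain ⟨w, hw⟩ := this
    exact ⟨w, hw⟩
  have h2 : ∀ a : ZMod 2, a = 0 ∨ a = 1 := by decide
  rcases h2 (PadicInt.toZMod z) with h | h
  · exact Or.inl (key z h)
  · right
    have : PadicInt.toZMod (z - 1) = 0 := by rw [map_sub, map_one, h, sub_self]
    obtain ⟨w, hw⟩ := key _ this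
    exact ⟨w, by linear_combination hw⟩

theorem lt_parity_mul (z : ℤ_[2]) (k : ℤ_[2]) : ∃ w, z * (z + (2 * k + 1)) = 2 * w := by
  rcases lt_even_or_odd z with ⟨w, rfl⟩ | ⟨w, rfl⟩
  · exact ⟨w * (2 * w + (2 * k + 1)), by ring⟩
  · exact ⟨(2 * w + 1) * (w + k + 1), by ring⟩

theorem lt_int_or_inv (b : ℚ_[2]) : (∃ z : ℤ_[2], b = z) ∨ (b ≠ 0 ∧ ∃ z : ℤ_[2], b⁻¹ = 2 * z) := by
  by_cases h : ‖b‖ ≤ 1
  · exact Or.inl ⟨⟨b, h⟩, rfl⟩
  · right
    push Not at h
    have hb : b ≠ 0 := by rintro rfl; simp at h; linarith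
    refine ⟨hb, ?_⟩
    have hinv : ‖b⁻¹‖ < 1 := by
      rw [norm_inv]; exact inv_lt_one_of_one_lt₀ h
    obtain ⟨y, hy⟩ : ∃ y : ℤ_[2], (y : ℚ_[2]) = b⁻¹ := ⟨⟨b⁻¹, hinv.le⟩, rfl⟩
    rcases lt_even_or_odd y with ⟨w, hw⟩ | ⟨w, hw⟩
    · refine ⟨w, ?_⟩
      rw [← hy, hw]
      push_cast
      rw [lt_coe2]
    · exfalso
      have h3 : ‖y‖ < 1 := by rw [PadicInt.norm_def, hy]; exact hinv
      rw [hw] at h3
      have h2 : ‖(2 : ℤ_[2])‖ < 1 := by
        have := PadicInt.norm_p (p := 2)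
        have h2' : ‖(2 : ℤ_[2])‖ = (2 : ℝ)⁻¹ := by simpa using this
        rw [h2']; norm_num
      have h4 : ‖(2 * w : ℤ_[2])‖ < 1 := by
        rw [norm_mul]
        calc ‖(2 : ℤ_[2])‖ * ‖w‖ ≤ ‖(2 : ℤ_[2])‖ * 1 := by
              gcongr; exact PadicInt.norm_le_one w
          _ < 1 := by rw [mul_one]; exact h2
      have h5 : ‖(1 : ℤ_[2])‖ < 1 := by
        have e : (1 : ℤ_[2]) = (2 * w + 1) + (-(2 * w)) := by ring
        rw [e]
        refine lt_of_le_of_lt (PadicInt.nonarchimedean _ _) ?_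
        rw [norm_neg]
        exact max_lt h3 h4
      simp at h5

theorem lt_sq_of_mul {K : Type*} [Field K] {a b : K} (hb : IsSquare b) (h0 : b ≠ 0)
    (h : IsSquare (a * b)) : IsSquare a := by
  have : a = (a * b) / b := by field_simp
  rw [this]; exact h.div hb

theorem lt_sqc (z : ℤ_[2]) {x : ℚ_[2]} (h : x = 1 + 8 * (z : ℚ_[2])) : IsSquare x := h ▸ lt_sq8 z

theorem lt_tab (d b : ℚ_[2]) (h : IsSquare (d * b * ((b - 9) * (b - 25))))
    (hne : b * ((b - 9) * (b - 25)) ≠ 0) :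
    IsSquare (d * b) ∨ IsSquare b ∨ (IsSquare d ∧ IsSquare (5 * b)) := by
  have hb0 : b ≠ 0 := left_ne_zero_of_mul hne
  have hq0 : (b - 9) * (b - 25) ≠ 0 := right_ne_zero_of_mul hne
  rcases lt_int_or_inv b with ⟨z, hz⟩ | ⟨-, w, hw⟩
  · rcases lt_even_or_odd z with ⟨w, rfl⟩ | ⟨w, rfl⟩
    · left
      obtain ⟨u, hu⟩ := lt_parity_mul w (-9)
      have hu' := congrArg (fun t : ℤ_[2] => (t : ℚ_[2])) hu
      push_cast at hu' hz
      rw [lt_coe2] at hu' hz
      refine lt_sq_of_mul (lt_sqc (28 + u) ?_) hq0 h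
      push_cast
      have e28 : ((28 : ℤ_[2]) : ℚ_[2]) = 28 := map_ofNat (PadicInt.Coe.ringHom (p := 2)) 28
      have e9 : ((9 : ℤ_[2]) : ℚ_[2]) = 9 := map_ofNat (PadicInt.Coe.ringHom (p := 2)) 9
      rw [e9] at hu'
      rw [e28, hz]
      linear_combination 4 * hu'
    · obtain ⟨v, hv⟩ : ∃ v : ℤ_[2], w = v + 4 := ⟨w - 4, by ring⟩
      subst hv
      rcases lt_even_or_odd v with ⟨k, rfl⟩ | ⟨k, rfl⟩
      · rcases lt_even_or_odd k with ⟨j, rfl⟩ | ⟨j, rfl⟩
        · right; left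
          push_cast at hz
          rw [lt_coe2] at hz
          have e4 : ((4 : ℤ_[2]) : ℚ_[2]) = 4 := map_ofNat (PadicInt.Coe.ringHom (p := 2)) 4
          rw [e4] at hz
          refine lt_sqc (j + 1) ?_
          push_cast
          rw [hz]; ring
        · right; right
          push_cast at hz
          rw [lt_coe2] at hz
          have e4 : ((4 : ℤ_[2]) : ℚ_[2]) = 4 := map_ofNat (PadicInt.Coe.ringHom (p := 2)) 4
          rw [e4] at hz
          obtain ⟨u, hu⟩ := lt_parity_mul j (-1)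
          have hu' := congrArg (fun t : ℤ_[2] => (t : ℚ_[2])) hu
          push_cast at hu'
          rw [lt_coe2] at hu'
          have hb : b = 5 + 8 * ((j : ℚ_[2]) + 1) := by rw [hz]; ring
          have hq : (b - 9) * (b - 25) = 16 * (5 + 8 * ((u : ℚ_[2]) - 1)) := by
            rw [hz]; linear_combination 64 * hu'
          have e3 : ((3 : ℤ_[2]) : ℚ_[2]) = 3 := map_ofNat (PadicInt.Coe.ringHom (p := 2)) 3
          have e5 : ((5 : ℤ_[2]) : ℚ_[2]) = 5 := map_ofNat (PadicInt.Coe.ringHom (p := 2)) 5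
          have e8 := lt_coe8
          constructor
          · have hs : IsSquare (b * ((b - 9) * (b - 25))) := by
              rw [hq, hb]
              have : (5 + 8 * ((j : ℚ_[2]) + 1)) * (16 * (5 + 8 * ((u : ℚ_[2]) - 1))) =
                (4 * 4) * ((5 + 8 * ((j : ℚ_[2]) + 1)) * (5 + 8 * ((u : ℚ_[2]) - 1))) := by ring
              rw [this]
              refine IsSquare.mul ⟨4, rfl⟩ (lt_sqc (3 + 5 * (j + 1) + 5 * (u - 1) + 8 * ((j + 1) * (u - 1))) ?_)
              push_cast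
              rw [e3, e5, e8]
              ring
            refine lt_sq_of_mul hs hne ?_
            rw [← mul_assoc]; exact h
          · refine lt_sqc (3 + 5 * (j + 1)) ?_
            push_cast
            rw [e3, e5, hb]; ring
      · left
        push_cast at hz
        rw [lt_coe2] at hz
        have e4 : ((4 : ℤ_[2]) : ℚ_[2]) = 4 := map_ofNat (PadicInt.Coe.ringHom (p := 2)) 4
        rw [e4] at hz
        obtain ⟨u, hu⟩ := lt_parity_mul k 0
        have hu' := congrArg (fun t : ℤ_[2] => (t : ℚ_[2])) hu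
        push_cast at hu'
        rw [lt_coe2] at hu'
        have hq : (b - 9) * (b - 25) = (2 * 2) * (1 + 8 * ((u : ℚ_[2]) - (2 * k + 1))) := by
          rw [hz]; linear_combination 16 * hu'
        have hs : IsSquare ((b - 9) * (b - 25)) := by
          rw [hq]
          refine IsSquare.mul ⟨2, rfl⟩ (lt_sqc (u - (2 * k + 1)) ?_)
          push_cast
          rw [lt_coe2]
        exact lt_sq_of_mul hs hq0 h
  · left
    obtain ⟨u, hu⟩ : ∃ u : ℤ_[2], w * (225 * w - 17) = 2 * u := by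
      rcases lt_even_or_odd w with ⟨v, rfl⟩ | ⟨v, rfl⟩
      · exact ⟨v * (225 * (2 * v) - 17), by ring⟩
      · exact ⟨(2 * v + 1) * (225 * v + 104), by ring⟩
    have hu' := congrArg (fun t : ℤ_[2] => (t : ℚ_[2])) hu
    push_cast at hu'
    have e225 : ((225 : ℤ_[2]) : ℚ_[2]) = 225 := map_ofNat (PadicInt.Coe.ringHom (p := 2)) 225
    have e17 : ((17 : ℤ_[2]) : ℚ_[2]) = 17 := map_ofNat (PadicInt.Coe.ringHom (p := 2)) 17
    rw [e225, e17, lt_coe2] at hu'
    have h1 : b * (2 * (w : ℚ_[2])) = 1 := by rw [← hw]; field_simp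
    have hq : (b - 9) * (b - 25) = (b * b) * (1 + 8 * (u : ℚ_[2])) := by
      have : (1 + 8 * (u : ℚ_[2])) = (1 - 9 * (2 * (w : ℚ_[2]))) * (1 - 25 * (2 * (w : ℚ_[2]))) := by
        linear_combination -4 * hu'
      rw [this]
      linear_combination (9 * (b - 25 * (b * (2 * (w : ℚ_[2])))) + 25 * (b - 9)) * h1
    have hs : IsSquare ((b - 9) * (b - 25)) := by
      rw [hq]
      exact IsSquare.mul ⟨b, rfl⟩ (lt_sq8 u)
    exact lt_sq_of_mul hs hq0 h


/-- C4: `p = 2`. -/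
theorem loc_two (d B y : ℚ_[2]) (hd : d ≠ 0)
    (hy : y ≠ 0) (h : B * (B - 9 * d) * (B - 25 * d) = y ^ 2) :
    IsSquare B ∨ IsSquare (B * d) ∨ (IsSquare d ∧ IsSquare (5 * B)) := by
  have hy2 : B * (B - 9 * d) * (B - 25 * d) ≠ 0 := by rw [h]; exact pow_ne_zero 2 hy
  have e1 : d * (B / d) * ((B / d - 9) * (B / d - 25)) = (y / d) * (y / d) := by
    field_simp
    linear_combination h
  have hne : (B / d) * ((B / d - 9) * (B / d - 25)) ≠ 0 := by
    have e2 : (B / d) * ((B / d - 9) * (B / d - 25)) = B * (B - 9 * d) * (B - 25 * d) / d ^ 3 := by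
      field_simp
    rw [e2]
    exact div_ne_zero hy2 (pow_ne_zero 3 hd)
  rcases lt_tab d (B / d) ⟨y / d, e1⟩ hne with h1 | h1 | ⟨h1, h2⟩
  · left
    rwa [mul_div_cancel₀ _ hd] at h1
  · right; left
    have : B * d = (B / d) * (d * d) := by field_simp
    rw [this]
    exact h1.mul ⟨d, rfl⟩
  · right; right
    refine ⟨h1, ?_⟩
    have : 5 * B = (5 * (B / d)) * d := by field_simp
    rw [this]
    exact h2.mul h1

theorem lt_norm_two : ‖(2 : ℚ_[2])‖ = 1 / 2 := by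
  have := Padic.norm_p (p := 2)
  norm_num at this ⊢
  exact this

theorem lt_norm_odd (z : ℤ_[2]) : ‖(2 * (z : ℚ_[2]) + 1)‖ = 1 := by
  have hz : ‖(z : ℚ_[2])‖ ≤ 1 := z.2
  have h2 : ‖(2 * (z : ℚ_[2]))‖ < 1 := by
    rw [norm_mul, lt_norm_two]
    nlinarith [norm_nonneg (z : ℚ_[2])]
  rw [Padic.add_eq_max_of_ne (by rw [norm_one]; exact h2.ne), norm_one]
  exact max_eq_right h2.le

theorem lt_val_of_norm {x : ℚ_[2]} (h : ‖x‖ = 1) : x.valuation = 0 := by
  have hx : x ≠ 0 := by rintro rfl; simp at h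
  have h1 := Padic.norm_eq_zpow_neg_valuation hx
  rw [h] at h1
  have h2 : ((2 : ℕ) : ℝ) ^ (-x.valuation) = ((2 : ℕ) : ℝ) ^ (0 : ℤ) := by rw [← h1, zpow_zero]
  have h3 := zpow_right_injective₀ (by norm_num : (0 : ℝ) < ((2 : ℕ) : ℝ)) (by norm_num) h2
  simpa using h3

theorem lt_val_odd (z : ℤ_[2]) : (2 * (z : ℚ_[2]) + 1).valuation = 0 :=
  lt_val_of_norm (lt_norm_odd z)

theorem lt_odd_ne (z : ℤ_[2]) : (2 * (z : ℚ_[2]) + 1) ≠ 0 := by
  intro h
  have := lt_norm_odd z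
  rw [h] at this; simp at this

theorem lt_val_two_pow (k : ℕ) : ((2 : ℚ_[2]) ^ k).valuation = k := by
  have h1 : (2 : ℚ_[2]).valuation = 1 := by
    have := Padic.valuation_p (p := 2)
    exact_mod_cast this
  rw [Padic.valuation_pow, h1, mul_one]

/-- squares of units are `1` modulo `8` -/
theorem lt_sq_odd (j : ℤ_[2]) : ∃ k : ℤ_[2], (2 * j + 1) ^ 2 = 1 + 8 * k := by
  obtain ⟨u, hu⟩ := lt_parity_mul j 0
  exact ⟨u, by linear_combination 4 * hu⟩

theorem lt_not_sq (m : ℤ_[2]) {x : ℚ_[2]} (hx : x = 3 + 4 * (m : ℚ_[2])) : ¬ IsSquare x := by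
  rintro ⟨r, hr⟩
  have hn : ‖x‖ = 1 := by
    have : x = 2 * ((1 + 2 * m : ℤ_[2]) : ℚ_[2]) + 1 := by
      push_cast; rw [lt_coe2, hx]; ring
    rw [this]; exact lt_norm_odd _
  have hr1 : ‖r‖ ≤ 1 := by
    rw [hr, norm_mul] at hn
    nlinarith [norm_nonneg r]
  obtain ⟨r', hr'⟩ : ∃ r' : ℤ_[2], (r' : ℚ_[2]) = r := ⟨⟨r, hr1⟩, rfl⟩
  have e1 : r' * r' = 3 + 4 * m := by
    apply Subtype.ext
    push_cast
    have e3 : ((3 : ℤ_[2]) : ℚ_[2]) = 3 := map_ofNat (PadicInt.Coe.ringHom (p := 2)) 3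
    have e4 : ((4 : ℤ_[2]) : ℚ_[2]) = 4 := map_ofNat (PadicInt.Coe.ringHom (p := 2)) 4
    rw [hr', ← hr, hx, e3, e4]
  have h20 : (2 : ℤ_[2]) ≠ 0 := by
    intro h
    have : ‖(2 : ℚ_[2])‖ = 0 := by rw [← lt_coe2, h]; simp
    rw [lt_norm_two] at this; norm_num at this
  have hodd : ∀ z : ℤ_[2], (2 * z + 1 : ℤ_[2]) ≠ 0 := by
    intro z hz
    have := lt_odd_ne z
    apply this
    have h3 := congrArg (fun t : ℤ_[2] => (t : ℚ_[2])) hz
    push_cast at h3
    rw [lt_coe2] at h3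
    exact h3
  rcases lt_even_or_odd r' with ⟨w, rfl⟩ | ⟨w, rfl⟩
  · apply hodd (1 + 2 * m - 2 * w ^ 2)
    linear_combination -e1
  · apply hodd (m - w ^ 2 - w)
    apply mul_left_cancel₀ h20
    linear_combination -e1

theorem lt_coeN (k : ℕ) [k.AtLeastTwo] : ((OfNat.ofNat k : ℤ_[2]) : ℚ_[2]) = OfNat.ofNat k :=
  map_ofNat (PadicInt.Coe.ringHom (p := 2)) k

theorem lt_unit_sq {x : ℚ_[2]} (hx : ‖x‖ = 1) (h : IsSquare x) :
    ∃ u : ℤ_[2], x = 1 + 8 * (u : ℚ_[2]) := by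
  obtain ⟨r, hr⟩ := h
  have hr1 : ‖r‖ = 1 := by
    rw [hr, norm_mul] at hx
    nlinarith [norm_nonneg r]
  obtain ⟨r', hr'⟩ : ∃ r' : ℤ_[2], (r' : ℚ_[2]) = r := ⟨⟨r, hr1.le⟩, rfl⟩
  rcases lt_even_or_odd r' with ⟨w, rfl⟩ | ⟨w, rfl⟩
  · exfalso
    rw [← hr'] at hr1
    push_cast at hr1
    rw [lt_coe2, norm_mul, lt_norm_two] at hr1
    have hw : ‖(w : ℚ_[2])‖ ≤ 1 := w.2
    linarith
  · obtain ⟨k, hk⟩ := lt_sq_odd w
    refine ⟨k, ?_⟩
    have := congrArg (fun t : ℤ_[2] => (t : ℚ_[2])) hk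
    push_cast at this
    rw [lt_coe8, lt_coe2] at this
    rw [hr, ← hr', ← this]
    push_cast
    rw [lt_coe2]; ring

theorem lt_unit_form {d : ℚ_[2]} (hd : IsSquare d ∨ IsSquare (5 * d)) (hd0 : ‖d‖ = 1) :
    ∃ a : ℤ_[2], d = 1 + 4 * (a : ℚ_[2]) := by
  rcases hd with hd | hd
  · obtain ⟨u, hu⟩ := lt_unit_sq hd0 hd
    refine ⟨2 * u, ?_⟩
    rw [hu]; push_cast; rw [lt_coe2]; ring
  · have h5 : ‖(5 : ℚ_[2])‖ = 1 := by
      have := lt_norm_odd 2
      rw [lt_coe2] at this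
      norm_num at this
      exact this
    obtain ⟨u, hu⟩ := lt_unit_sq (x := 5 * d) (by rw [norm_mul, h5, hd0, one_mul]) hd
    obtain ⟨d', hd'⟩ : ∃ d' : ℤ_[2], (d' : ℚ_[2]) = d := ⟨⟨d, hd0.le⟩, rfl⟩
    refine ⟨2 * u - d', ?_⟩
    push_cast
    rw [lt_coe2, hd']
    linear_combination hu

theorem lt_val_mul {x y : ℚ_[2]} (hx : x ≠ 0) (hy : y ≠ 0) :
    (x * y).valuation = x.valuation + y.valuation := Padic.valuation_mul hx hy

theorem lt_par (a : ℤ_[2]) (b : ℚ_[2])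
    (h : IsSquare ((1 + 4 * (a : ℚ_[2])) * b * ((b - 9) * (b - 25))))
    (hne : b * ((b - 9) * (b - 25)) ≠ 0) : Even (b - 25).valuation := by
  have hb0 : b ≠ 0 := left_ne_zero_of_mul hne
  have hq0 : (b - 9) * (b - 25) ≠ 0 := right_ne_zero_of_mul hne
  have hC0 : b - 25 ≠ 0 := right_ne_zero_of_mul hq0
  have ha : (1 + 4 * (a : ℚ_[2])) = 2 * ((2 * a : ℤ_[2]) : ℚ_[2]) + 1 := by
    push_cast; rw [lt_coe2]; ring
  rcases lt_int_or_inv b with ⟨z, hz⟩ | ⟨-, w, hw⟩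
  · rcases lt_even_or_odd z with ⟨w, rfl⟩ | ⟨w, rfl⟩
    · have e : b - 25 = 2 * ((w - 13 : ℤ_[2]) : ℚ_[2]) + 1 := by
        rw [hz]; push_cast; rw [lt_coe2, lt_coeN 13]; ring
      rw [e, lt_val_odd]; exact Even.zero
    · obtain ⟨v, hv⟩ : ∃ v : ℤ_[2], w = v + 4 := ⟨w - 4, by ring⟩
      subst hv
      rcases lt_even_or_odd v with ⟨k, rfl⟩ | ⟨k, rfl⟩
      · rcases lt_even_or_odd k with ⟨j, rfl⟩ | ⟨j, rfl⟩
        · rcases lt_even_or_odd j with ⟨i, rfl⟩ | ⟨i, rfl⟩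
          · have hb : b = 16 * (i : ℚ_[2]) + 9 := by
              rw [hz]; push_cast; rw [lt_coe2, lt_coeN 4]; ring
            have e25 : b - 25 = 2 ^ 4 * ((i : ℚ_[2]) - 1) := by rw [hb]; ring
            have hi1 : (i : ℚ_[2]) - 1 ≠ 0 := by
              intro h0; rw [e25, h0, mul_zero] at hC0; exact hC0 rfl
            have h16 : (2 : ℚ_[2]) ^ 4 ≠ 0 := by norm_num
            have hev : Even ((i : ℚ_[2]) - 1).valuation := by
              rcases lt_even_or_odd i with ⟨l, rfl⟩ | ⟨l, rfl⟩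
              · have e : (((2 * l : ℤ_[2]) : ℚ_[2]) - 1) = 2 * ((l - 1 : ℤ_[2]) : ℚ_[2]) + 1 := by
                  push_cast; rw [lt_coe2]; ring
                rw [e, lt_val_odd]; exact Even.zero
              · have hv := even_valuation _ h
                have hi0 : (((2 * l + 1 : ℤ_[2])) : ℚ_[2]) ≠ 0 := by
                  push_cast; rw [lt_coe2]; exact lt_odd_ne l
                have e : (1 + 4 * (a : ℚ_[2])) * b * ((b - 9) * (b - 25)) =
                    2 ^ 8 * ((2 * ((2 * a : ℤ_[2]) : ℚ_[2]) + 1) *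
                      ((2 * ((8 * (2 * l + 1) + 4 : ℤ_[2]) : ℚ_[2]) + 1) *
                      ((2 * (l : ℚ_[2]) + 1) * ((((2 * l + 1 : ℤ_[2])) : ℚ_[2]) - 1)))) := by
                  rw [ha, hb]; push_cast; rw [lt_coe2, lt_coe8, lt_coeN 4]; ring
                have n1 := lt_odd_ne (2 * a)
                have n2 := lt_odd_ne (8 * (2 * l + 1) + 4)
                have n3 := lt_odd_ne l
                rw [e, lt_val_mul (by norm_num) (mul_ne_zero n1 (mul_ne_zero n2 (mul_ne_zero n3 hi1))),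
                  lt_val_mul n1 (mul_ne_zero n2 (mul_ne_zero n3 hi1)),
                  lt_val_mul n2 (mul_ne_zero n3 hi1), lt_val_mul n3 hi1, lt_val_odd, lt_val_odd,
                  lt_val_odd, lt_val_two_pow, zero_add, zero_add, zero_add] at hv
                rw [Int.even_add] at hv
                exact hv.1 (by decide)
            rw [e25, lt_val_mul h16 hi1, lt_val_two_pow]
            exact Even.add (by decide) hev
          · exfalso
            have hb : b = 16 * (i : ℚ_[2]) + 17 := by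
              rw [hz]; push_cast; rw [lt_coe2, lt_coeN 4]; ring
            have hsq : IsSquare ((1 + 4 * (a : ℚ_[2])) * b * ((b - 9) * (b - 25)) / (8 * 8)) :=
              h.div ⟨8, rfl⟩
            refine lt_not_sq ((i ^ 2 - 1) + 3 * (a + (4 * i + 4) + 4 * a * (4 * i + 4)) +
              4 * (a + (4 * i + 4) + 4 * a * (4 * i + 4)) * (i ^ 2 - 1)) ?_ hsq
            rw [hb]
            push_cast
            rw [lt_coeN 4, lt_coeN 3]
            field_simp
            ring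
        · have e : b - 25 = 2 ^ 2 * (2 * ((j - 2 : ℤ_[2]) : ℚ_[2]) + 1) := by
            rw [hz]; push_cast; rw [lt_coe2, lt_coeN 4]; ring
          rw [e, lt_val_mul (by norm_num) (lt_odd_ne _), lt_val_odd, lt_val_two_pow]
          decide
      · exfalso
        obtain ⟨u, hu⟩ := lt_parity_mul k 0
        have hu' := congrArg (fun t : ℤ_[2] => (t : ℚ_[2])) hu
        push_cast at hu'
        rw [lt_coe2] at hu'
        have hb : b = 4 * (k : ℚ_[2]) + 11 := by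
          rw [hz]; push_cast; rw [lt_coe2, lt_coeN 4]; ring
        have hq : (b - 9) * (b - 25) = 4 * (1 + 8 * ((u : ℚ_[2]) - (2 * k + 1))) := by
          rw [hb]; linear_combination 16 * hu'
        have hsq : IsSquare ((1 + 4 * (a : ℚ_[2])) * b * ((b - 9) * (b - 25)) / (2 * 2)) :=
          h.div ⟨2, rfl⟩
        refine lt_not_sq (((k + 2) + 3 * a + 4 * a * (k + 2)) +
          2 * (u - (2 * k + 1)) * (3 + 4 * ((k + 2) + 3 * a + 4 * a * (k + 2)))) ?_ hsq
        rw [hq, hb]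
        push_cast
        rw [lt_coe2, lt_coeN 4, lt_coeN 3]
        field_simp
        ring
  · have h1 : b * (2 * (w : ℚ_[2])) = 1 := by rw [← hw]; field_simp
    obtain ⟨u, hu⟩ : ∃ u : ℤ_[2], w * (225 * w - 17) = 2 * u := by
      rcases lt_even_or_odd w with ⟨v, rfl⟩ | ⟨v, rfl⟩
      · exact ⟨v * (225 * (2 * v) - 17), by ring⟩
      · exact ⟨(2 * v + 1) * (225 * v + 104), by ring⟩
    have hu' := congrArg (fun t : ℤ_[2] => (t : ℚ_[2])) hu
    push_cast at hu'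
    rw [lt_coeN 225, lt_coeN 17, lt_coe2] at hu'
    have hq : (b - 9) * (b - 25) = (b * b) * (1 + 8 * (u : ℚ_[2])) := by
      have : (1 + 8 * (u : ℚ_[2])) = (1 - 9 * (2 * (w : ℚ_[2]))) * (1 - 25 * (2 * (w : ℚ_[2]))) := by
        linear_combination -4 * hu'
      rw [this]
      linear_combination (9 * (b - 25 * (b * (2 * (w : ℚ_[2])))) + 25 * (b - 9)) * h1
    have hs : IsSquare ((b - 9) * (b - 25)) := by
      rw [hq]
      exact IsSquare.mul ⟨b, rfl⟩ (lt_sq8 u)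
    have hdb := even_valuation _ (lt_sq_of_mul hs hq0 h)
    rw [ha, lt_val_mul (lt_odd_ne _) hb0, lt_val_odd, zero_add] at hdb
    have e : b - 25 = b * (2 * ((-25 * w : ℤ_[2]) : ℚ_[2]) + 1) := by
      push_cast
      rw [lt_coeN 25]
      linear_combination 25 * h1
    rw [e, lt_val_mul hb0 (lt_odd_ne _), lt_val_odd, add_zero]
    exact hdb

/-- C5: `p = 2`, `d = 1 mod 4`. -/
theorem loc_two' (d B y : ℚ_[2]) (hd : IsSquare d ∨ IsSquare (5 * d)) (hd0 : ‖d‖ = 1)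
    (hy : y ≠ 0) (h : B * (B - 9 * d) * (B - 25 * d) = y ^ 2) :
    Even (B - 25 * d).valuation := by
  have hdne : d ≠ 0 := by rintro rfl; simp at hd0
  have hy2 : B * (B - 9 * d) * (B - 25 * d) ≠ 0 := by rw [h]; exact pow_ne_zero 2 hy
  obtain ⟨a, ha⟩ := lt_unit_form hd hd0
  have e1 : d * (B / d) * ((B / d - 9) * (B / d - 25)) = (y / d) * (y / d) := by
    field_simp
    linear_combination h
  have hne : (B / d) * ((B / d - 9) * (B / d - 25)) ≠ 0 := by
    have e2 : (B / d) * ((B / d - 9) * (B / d - 25)) = B * (B - 9 * d) * (B - 25 * d) / d ^ 3 := by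
      field_simp
    rw [e2]
    exact div_ne_zero hy2 (pow_ne_zero 3 hdne)
  have h1 := lt_par a (B / d) (by rw [← ha]; exact ⟨y / d, e1⟩) hne
  have e3 : B - 25 * d = d * (B / d - 25) := by field_simp
  have hC : B / d - 25 ≠ 0 := right_ne_zero_of_mul (right_ne_zero_of_mul hne)
  rw [e3, lt_val_mul hdne hC, lt_val_of_norm hd0, zero_add]
  exact h1

end X15
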