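import Pool.Agent.Lib.MP_87c685_nt_X15.PadicSq

open NumberField WeierstrassCurve

namespace X15

namespace LocUnr

variable {p : ℕ} [Fact p.Prime]

theorem one_lt : (1:ℝ) < (p:ℝ) := by exact_mod_cast (Fact.out : p.Prime).one_lt

theorem lt_iff {x y : ℚ_[p]} (hx : x ≠ 0) (hy : y ≠ 0) :
    ‖y‖ < ‖x‖ ↔ x.valuation < y.valuation := by
  rw [Padic.norm_eq_zpow_neg_valuation hx, Padic.norm_eq_zpow_neg_valuation hy,
    zpow_lt_zpow_iff_right₀ one_lt]
  omega

theorem val_eq {x y : ℚ_[p]} (hx : x ≠ 0) (hy : y ≠ 0) (h : ‖x‖ = ‖y‖) :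
    x.valuation = y.valuation := by
  have h1 := lt_iff hx hy
  have h2 := lt_iff hy hx
  rw [h] at h1 h2
  simp only [lt_irrefl, false_iff] at h1 h2
  omega

/-- the smallest of the three valuations is attained twice -/
theorem tri {X Y Z : ℚ_[p]} (hX : X ≠ 0) (hY : Y ≠ 0) (hZ : Z ≠ 0) (h : X + Y = Z) :
    (X.valuation = Y.valuation ∧ X.valuation ≤ Z.valuation) ∨
    (X.valuation = Z.valuation ∧ X.valuation ≤ Y.valuation) ∨
    (Y.valuation = Z.valuation ∧ Y.valuation ≤ X.valuation) := by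
  rcases eq_or_ne ‖X‖ ‖Y‖ with he | hne
  · left
    refine ⟨val_eq hX hY he, ?_⟩
    have h1 : ‖Z‖ ≤ ‖X‖ := by
      have h2 := Padic.nonarchimedean X Y
      rw [h, he, max_self, ← he] at h2
      exact h2
    by_contra hc
    rw [not_le] at hc
    exact absurd ((lt_iff hZ hX).2 hc) (not_lt.2 h1)
  · right
    have h1 := Padic.add_eq_max_of_ne hne
    rw [h] at h1
    rcases lt_or_gt_of_ne hne with hl | hl
    · right
      rw [max_eq_right hl.le] at h1
      exact ⟨val_eq hY hZ h1.symm, ((lt_iff hY hX).1 hl).le⟩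
    · left
      rw [max_eq_left hl.le] at h1
      exact ⟨val_eq hX hZ h1.symm, ((lt_iff hX hY).1 hl).le⟩

theorem val_unit {d : ℚ_[p]} (hd : ‖d‖ = 1) : d.valuation = 0 := by
  have h0 : d ≠ 0 := by
    rw [← norm_pos_iff, hd]
    exact one_pos
  have h1 := val_eq h0 (one_ne_zero) (by rw [hd, norm_one])
  rw [h1, Padic.valuation_one]

theorem ne_zero_of_unit {d : ℚ_[p]} (hd : ‖d‖ = 1) : d ≠ 0 := by
  rw [← norm_pos_iff, hd]
  exact one_pos

theorem val_cop {n : ℕ} (hn : ¬ p ∣ n) : ((n : ℕ) : ℚ_[p]).valuation = 0 := by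
  rw [Padic.valuation_natCast, padicValNat.eq_zero_of_not_dvd hn]
  rfl

theorem norm_lt_one {x : ℚ_[p]} (h : 0 < x.valuation) : ‖x‖ < 1 := by
  have hx : x ≠ 0 := by
    rintro rfl
    rw [Padic.valuation_zero] at h
    exact lt_irrefl _ h
  have h1 := lt_iff (one_ne_zero (α := ℚ_[p])) hx
  rw [norm_one, Padic.valuation_one] at h1
  exact h1.2 h

/-- if `U V W` is a square and `U = V (1 + z)` with `‖z‖ < 1`, then `W` is a square -/
theorem sq_third (hp : p ≠ 2) {U V W y z : ℚ_[p]} (h : U * V * W = y ^ 2) (hU : U = V * (1 + z))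
    (hz : ‖z‖ < 1) (h0 : U ≠ 0) (h1 : V ≠ 0) : IsSquare W := by
  obtain ⟨s, hs⟩ := isSquare_one_add hp z hz
  have hs0 : s ≠ 0 := by
    rintro rfl
    apply h0
    rw [hU, hs]
    ring
  refine ⟨y / (V * s), ?_⟩
  have h2 : W = y ^ 2 / (U * V) := by
    field_simp
    rw [← h]
    ring
  rw [h2, hU, hs]
  field_simp

theorem nz {A B C y : ℚ_[p]} (hy : y ≠ 0) (h : B * A * C = y ^ 2) : A ≠ 0 ∧ B ≠ 0 ∧ C ≠ 0 := by
  have h1 : B * A * C ≠ 0 := by
    rw [h]
    exact pow_ne_zero 2 hy
  refine ⟨?_, ?_, ?_⟩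
  · rintro rfl
    simp at h1
  · rintro rfl
    simp at h1
  · rintro rfl
    simp at h1

theorem val_sum {A B C y : ℚ_[p]} (hy : y ≠ 0) (h : B * A * C = y ^ 2) :
    B.valuation + A.valuation + C.valuation = 2 * y.valuation := by
  obtain ⟨hA, hB, hC⟩ := nz hy h
  have h1 := congrArg Padic.valuation h
  rw [Padic.valuation_mul (mul_ne_zero hB hA) hC, Padic.valuation_mul hB hA,
    Padic.valuation_pow] at h1
  rw [h1]
  norm_num

theorem not_dvd_sq {q : ℕ} (hq : q.Prime) {k n : ℕ} (hn : n = q ^ k) (h : p ≠ q) : ¬ p ∣ n := by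
  rw [hn]
  intro h1
  exact h ((Nat.prime_dvd_prime_iff_eq (Fact.out : p.Prime) hq).1
    ((Fact.out : p.Prime).dvd_of_dvd_pow h1))

theorem nsq3 : ¬ IsSquare (((-1 : ℤ)) : ZMod 3) := by decide

end LocUnr

open LocUnr

/-- C3: `p` odd, `d` a unit. -/
theorem loc_unr {p : ℕ} [Fact p.Prime] (hp : p ≠ 2) (d B y : ℚ_[p]) (hd : ‖d‖ = 1)
    (h3 : p = 3 → IsSquare d) (h5 : p = 5 → ¬ IsSquare d)
    (hy : y ≠ 0) (h : B * (B - 9 * d) * (B - 25 * d) = y ^ 2) :
    Even B.valuation ∧ Even (B - 25 * d).valuation := by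
  obtain ⟨hA, hB, hC⟩ := nz hy h
  have hs := val_sum hy h
  have hd0 := ne_zero_of_unit hd
  have hdv := val_unit hd
  have h16 : ((16:ℚ_[p]) * d).valuation = 0 := by
    have h1 := val_cop (not_dvd_sq (p := p) Nat.prime_two (k := 4) (n := 16) (by norm_num) hp)
    rw [Padic.valuation_mul (by norm_num) hd0, hdv]
    have h2 : ((16:ℕ) : ℚ_[p]) = 16 := by norm_num
    rw [h2] at h1
    rw [h1]
    rfl
  have h9 : ((9:ℚ_[p]) * d).valuation = ((9:ℕ) : ℚ_[p]).valuation := by
    rw [Padic.valuation_mul (by norm_num) hd0, hdv, add_zero]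
    norm_num
  have h25 : ((25:ℚ_[p]) * d).valuation = ((25:ℕ) : ℚ_[p]).valuation := by
    rw [Padic.valuation_mul (by norm_num) hd0, hdv, add_zero]
    norm_num
  have R1 := tri hA (mul_ne_zero (by norm_num : (9:ℚ_[p]) ≠ 0) hd0) hB (by ring)
  have R2 := tri hC (mul_ne_zero (by norm_num : (25:ℚ_[p]) ≠ 0) hd0) hB (by ring)
  have R3 := tri hC (mul_ne_zero (by norm_num : (16:ℚ_[p]) ≠ 0) hd0) hA (by ring)
  rw [h9] at R1
  rw [h25] at R2
  rw [h16] at R3
  rw [Int.even_iff, Int.even_iff]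
  by_cases hp3 : p = 3
  · subst hp3
    have e9 : ((9:ℕ) : ℚ_[3]).valuation = 2 := by
      have h1 : ((9:ℕ) : ℚ_[3]) = ((3:ℕ) : ℚ_[3]) ^ 2 := by norm_num
      rw [h1, Padic.valuation_pow, Padic.valuation_p]
      norm_num
    have e25 : ((25:ℕ) : ℚ_[3]).valuation = 0 := val_cop (by norm_num)
    rw [e9] at R1
    rw [e25] at R2
    by_cases hex : (B - 9 * d).valuation = 1 ∧ B.valuation = 1 ∧ (B - 25 * d).valuation = 0
    · exfalso
      obtain ⟨ha, hb, hc⟩ := hex
      -- `C` is a square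
      have hsqC : IsSquare (B - 25 * d) := by
        refine sq_third (by norm_num) (U := B - 9 * d) (V := B) (z := -(9 * d / B))
          (y := y) (by rw [← h]; ring) (by field_simp; ring) ?_ hA hB
        rw [norm_neg]
        apply norm_lt_one
        rw [div_eq_mul_inv, Padic.valuation_mul (mul_ne_zero (by norm_num) hd0)
          (inv_ne_zero hB), Padic.valuation_inv, h9, e9, hb]
        norm_num
      obtain ⟨t, ht⟩ := isSquare_one_add (p := 3) (by norm_num) (-(B / (25 * d))) (by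
        rw [norm_neg]
        apply norm_lt_one
        rw [div_eq_mul_inv, Padic.valuation_mul hB
          (inv_ne_zero (mul_ne_zero (by norm_num) hd0)), Padic.valuation_inv, h25, e25, hb]
        norm_num)
      obtain ⟨c, hc'⟩ := hsqC
      obtain ⟨r, hr⟩ := h3 rfl
      have hr0 : r ≠ 0 := by
        rintro rfl
        apply hd0
        rw [hr, mul_zero]
      have ht0 : t ≠ 0 := by
        rintro rfl
        apply hC
        have h1 : B - 25 * d = -(25 * d) * (1 + -(B / (25 * d))) := by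
          field_simp
          ring
        rw [h1, ht]
        ring
      have h1 : Sq 3 ((-1 : ℤ) : ℚ) := by
        refine ⟨c / (5 * r * t), ?_⟩
        have h2 : B - 25 * d = -(25 * d) * (1 + -(B / (25 * d))) := by
          field_simp
          ring
        rw [ht, hc', hr] at h2
        have h3 : c * c = -((5 * r * t) * (5 * r * t)) := by
          rw [h2]
          ring
        rw [div_mul_div_comm, h3]
        have h4 : (5 * r * t) * (5 * r * t) ≠ 0 := by
          have h5 : (5:ℚ_[3]) ≠ 0 := by norm_num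
          exact mul_ne_zero (mul_ne_zero (mul_ne_zero h5 hr0) ht0)
            (mul_ne_zero (mul_ne_zero h5 hr0) ht0)
        rw [neg_div, div_self h4]
        norm_num
      rw [sq_int_iff (by norm_num) (-1) (by decide)] at h1
      exact nsq3 h1
    · omega
  · have e9 : ((9:ℕ) : ℚ_[p]).valuation = 0 :=
      val_cop (not_dvd_sq (p := p) Nat.prime_three (k := 2) (n := 9) (by norm_num) hp3)
    rw [e9] at R1
    by_cases hp5 : p = 5
    · subst hp5
      have e25 : ((25:ℕ) : ℚ_[5]).valuation = 2 := by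
        have h1 : ((25:ℕ) : ℚ_[5]) = ((5:ℕ) : ℚ_[5]) ^ 2 := by norm_num
        rw [h1, Padic.valuation_pow, Padic.valuation_p]
        norm_num
      rw [e25] at R2
      by_cases hex : (B - 9 * d).valuation = 0 ∧ B.valuation = 1 ∧ (B - 25 * d).valuation = 1
      · exfalso
        obtain ⟨ha, hb, hc⟩ := hex
        have hsqA : IsSquare (B - 9 * d) := by
          refine sq_third (by norm_num) (U := B) (V := B - 25 * d)
            (z := 25 * d / (B - 25 * d)) (y := y) (by rw [← h]; ring)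
            (by field_simp; ring) ?_ hB hC
          apply norm_lt_one
          rw [div_eq_mul_inv, Padic.valuation_mul (mul_ne_zero (by norm_num) hd0)
            (inv_ne_zero hC), Padic.valuation_inv, h25, e25, hc]
          norm_num
        obtain ⟨t, ht⟩ := isSquare_one_add (p := 5) (by norm_num) ((B - 25 * d) / (16 * d)) (by
          apply norm_lt_one
          rw [div_eq_mul_inv, Padic.valuation_mul hC
            (inv_ne_zero (mul_ne_zero (by norm_num) hd0)), Padic.valuation_inv, h16, hc]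
          norm_num)
        obtain ⟨a, ha'⟩ := hsqA
        have h1 : B - 9 * d = (16 * d) * (1 + (B - 25 * d) / (16 * d)) := by
          field_simp
          ring
        have ht0 : t ≠ 0 := by
          rintro rfl
          apply hA
          rw [h1, ht]
          ring
        apply h5 rfl
        refine ⟨a / (4 * t), ?_⟩
        rw [ht, ha'] at h1
        rw [div_mul_div_comm, h1]
        field_simp
        ring
      · omega
    · have e25 : ((25:ℕ) : ℚ_[p]).valuation = 0 :=
        val_cop (not_dvd_sq (p := p) Nat.prime_five (k := 2) (n := 25) (by norm_num) hp5)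
      rw [e25] at R2
      omega

/-- C3': `p = 5`, `d` a unit. -/
theorem loc_five {p : ℕ} [Fact p.Prime] (hp : p = 5) (d B y : ℚ_[p]) (hd : ‖d‖ = 1)
    (hy : y ≠ 0) (h : B * (B - 9 * d) * (B - 25 * d) = y ^ 2) :
    Even (B - 9 * d).valuation := by
  obtain ⟨hA, hB, hC⟩ := nz hy h
  have hs := val_sum hy h
  have hd0 := ne_zero_of_unit hd
  have hdv := val_unit hd
  have h16 : ((16:ℚ_[p]) * d).valuation = 0 := by
    have h1 := val_cop (not_dvd_sq (p := p) Nat.prime_two (k := 4) (n := 16) (by norm_num)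
      (by omega))
    rw [Padic.valuation_mul (by norm_num) hd0, hdv]
    have h2 : ((16:ℕ) : ℚ_[p]) = 16 := by norm_num
    rw [h2] at h1
    rw [h1]
    rfl
  have h9 : ((9:ℚ_[p]) * d).valuation = 0 := by
    have h1 := val_cop (not_dvd_sq (p := p) Nat.prime_three (k := 2) (n := 9) (by norm_num)
      (by omega))
    rw [Padic.valuation_mul (by norm_num) hd0, hdv]
    have h2 : ((9:ℕ) : ℚ_[p]) = 9 := by norm_num
    rw [h2] at h1
    rw [h1]
    rfl
  have R1 := tri hA (mul_ne_zero (by norm_num : (9:ℚ_[p]) ≠ 0) hd0) hB (by ring)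
  have R3 := tri hC (mul_ne_zero (by norm_num : (16:ℚ_[p]) ≠ 0) hd0) hA (by ring)
  rw [h9] at R1
  rw [h16] at R3
  rw [Int.even_iff]
  omega

end X15
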