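import Pool.Agent.Lib.MP_87c685_nt_X15.PadicSq
import Pool.Agent.Lib.MP_87c685_nt_X15.LocRam
import Pool.Agent.Lib.MP_87c685_nt_X15.LocUnr
import Pool.Agent.Lib.MP_87c685_nt_X15.LocTwo

open NumberField WeierstrassCurve

namespace X15

theorem exists_sqfree (r : ℚ) (hr : r ≠ 0) :
    ∃ b : ℤ, ∃ z : ℚ, Squarefree b ∧ z ≠ 0 ∧ r = b * z ^ 2 := by
  obtain ⟨a, e, hae, ha⟩ := Nat.sq_mul_squarefree (r.num * r.den).natAbs
  have hn0 : r.num ≠ 0 := Rat.num_ne_zero.2 hr
  have hd0 : (r.den : ℤ) ≠ 0 := by exact_mod_cast r.den_ne_zero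
  have hdq : (r.den : ℚ) ≠ 0 := by exact_mod_cast r.den_ne_zero
  have hnd : r.num * r.den ≠ 0 := mul_ne_zero hn0 hd0
  have he0 : e ≠ 0 := by
    rintro rfl
    have h1 : (r.num * r.den).natAbs = 0 := by
      rw [← hae]
      simp
    exact hnd (Int.natAbs_eq_zero.1 h1)
  have hsgn : r.num * r.den = Int.sign (r.num * r.den) * ((r.num * r.den).natAbs : ℤ) :=
    (Int.sign_mul_natAbs _).symm
  refine ⟨Int.sign (r.num * r.den) * a, e / r.den, ?_, ?_, ?_⟩
  · have h1 : IsUnit (Int.sign (r.num * r.den)) := by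
      rcases lt_or_gt_of_ne hnd with h | h
      · rw [Int.sign_eq_neg_one_of_neg h]
        exact isUnit_neg_one
      · rw [Int.sign_eq_one_of_pos h]
        exact isUnit_one
    have h2 : Squarefree (a : ℤ) := Int.squarefree_natCast.2 ha
    refine Squarefree.squarefree_of_dvd ?_ h2
    obtain ⟨u, hu⟩ := h1
    rw [← hu]
    exact (Units.dvd_mul_left (u := u⁻¹)).1 (by simp)
  · exact div_ne_zero (by exact_mod_cast he0) hdq
  · have h1 : (r.num : ℚ) * r.den = (Int.sign (r.num * r.den) : ℚ) * ((e : ℚ) ^ 2 * a) := by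
      have h2 : (r.num * r.den : ℤ) = Int.sign (r.num * r.den) * ((e : ℤ) ^ 2 * a) := by
        conv_lhs => rw [hsgn]
        rw [← hae]
        push_cast
        ring
      exact_mod_cast h2
    have h3 : r = r.num / r.den := (Rat.num_div_den r).symm
    have h4 : r = (r.num * r.den) / (r.den : ℚ) ^ 2 := by
      rw [pow_two, mul_div_mul_right _ _ hdq]
      exact h3
    push_cast
    rw [div_pow]
    conv_lhs => rw [h4, h1]
    ring

/-- the valuation at a prime divisor of a squarefree integer is odd -/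
theorem cls_val {q : ℕ} [Fact q.Prime] {b : ℤ} (hb : Squarefree b) (hq : (q : ℤ) ∣ b) :
    (b : ℚ_[q]).valuation = 1 := by
  have hb0 : b ≠ 0 := hb.ne_zero
  rw [Padic.valuation_intCast]
  have h1 : 1 ≤ padicValInt q b := by
    have := (padicValInt_dvd_iff (p := q) 1 b).1 (by simpa using hq)
    exact this.resolve_left hb0
  have h2 : ¬ 2 ≤ padicValInt q b := by
    intro h
    have h3 := (padicValInt_dvd_iff (p := q) 2 b).2 (Or.inr h)
    have h4 : (q : ℤ) * q ∣ b := by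
      rw [← pow_two]
      exact h3
    have h5 := hb _ h4
    have h6 := Int.isUnit_iff.1 h5
    have h7 := (Fact.out : q.Prime).one_lt
    rcases h6 with h6 | h6
    · have : (q : ℤ) = 1 := h6
      norm_cast at this
      omega
    · omega
  have h3 : padicValInt q b = 1 := by omega
  exact_mod_cast h3

theorem cls_val_sq {q : ℕ} [Fact q.Prime] {b : ℤ} {z : ℚ} (hb : Squarefree b) (hz : z ≠ 0)
    (hq : (q : ℤ) ∣ b) : ¬ Even ((((b : ℚ) * z ^ 2 : ℚ) : ℚ_[q])).valuation := by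
  have hb0 : (b : ℚ_[q]) ≠ 0 := by exact_mod_cast hb.ne_zero
  have hz0 : (z : ℚ_[q]) ≠ 0 := by exact_mod_cast hz
  have h1 : (((b : ℚ) * z ^ 2 : ℚ) : ℚ_[q]) = (b : ℚ_[q]) * (z : ℚ_[q]) ^ 2 := by
    push_cast
    ring
  rw [h1, Padic.valuation_mul hb0 (pow_ne_zero _ hz0), cls_val hb hq, Padic.valuation_pow]
  intro h
  rw [Int.even_iff] at h
  push_cast at h
  omega

theorem cls_two_five : ¬ IsSquare (2 : ZMod 5) := by decide

theorem cls_three_five : ¬ IsSquare (3 : ZMod 5) := by decide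

theorem cls_norm_one {q : ℕ} [Fact q.Prime] {d : ℤ} (hq : ¬ (q : ℤ) ∣ d) :
    ‖(((d : ℚ)) : ℚ_[q])‖ = 1 := by
  have h1 : ‖(d : ℚ_[q])‖ = 1 := by
    refine le_antisymm (Padic.norm_int_le_one d) ?_
    by_contra h
    exact hq (Padic.norm_intCast_lt_one_iff.1 (not_le.1 h))
  push_cast
  exact h1

/-- D1 -/
theorem exists_classes (d : ℤ) (hd : Squarefree d) (hneg : d < 0) (h3 : d % 3 ≠ 2)
    (h5 : d % 5 ≠ 1 ∧ d % 5 ≠ 4) (x y : ℚ) (hy : y ≠ 0)
    (h : y ^ 2 = x * (x + 9 * d) * (x - 16 * d)) :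
    ∃ b m : ℤ, ∃ z w : ℚ, CondB d b ∧ CondM d m ∧ z ≠ 0 ∧ w ≠ 0 ∧
      x + 9 * d = b * z ^ 2 ∧ x - 16 * d = m * w ^ 2 := by
  have hy2 : y ^ 2 ≠ 0 := pow_ne_zero 2 hy
  have hB0 : x + 9 * d ≠ 0 := by
    intro h0
    rw [h0] at h
    apply hy2
    rw [h]
    ring
  have hC0 : x - 16 * d ≠ 0 := by
    intro h0
    rw [h0] at h
    apply hy2
    rw [h]
    ring
  obtain ⟨b, z, hb, hz, hBe⟩ := exists_sqfree _ hB0
  obtain ⟨m, w, hm, hw, hCe⟩ := exists_sqfree _ hC0
  have hd0 : (d : ℚ) ≠ 0 := by exact_mod_cast hd.ne_zero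
  -- the equation over every `ℚ_q`
  have heq : ∀ (q : ℕ) [Fact q.Prime], (((x + 9 * d : ℚ)) : ℚ_[q]) *
      ((((x + 9 * d : ℚ)) : ℚ_[q]) - 9 * (((d : ℚ)) : ℚ_[q])) *
      ((((x + 9 * d : ℚ)) : ℚ_[q]) - 25 * (((d : ℚ)) : ℚ_[q])) = ((y : ℚ) : ℚ_[q]) ^ 2 := by
    intro q _
    have h1 : (x + 9 * d) * ((x + 9 * d) - 9 * d) * ((x + 9 * d) - 25 * d) = y ^ 2 := by
      rw [h]
      ring
    have h2 := congrArg (fun t : ℚ => (t : ℚ_[q])) h1
    push_cast at h2 ⊢
    exact h2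
  have hyq : ∀ (q : ℕ) [Fact q.Prime], ((y : ℚ) : ℚ_[q]) ≠ 0 := by
    intro q _
    exact_mod_cast hy
  have hCq : ∀ (q : ℕ) [Fact q.Prime], (((x + 9 * d : ℚ)) : ℚ_[q]) - 25 * (((d : ℚ)) : ℚ_[q]) =
      (((m : ℚ) * w ^ 2 : ℚ) : ℚ_[q]) := by
    intro q _
    have h1 : (m : ℚ) * w ^ 2 = (x + 9 * d) - 25 * d := by
      rw [← hCe]
      ring
    rw [h1]
    push_cast
    ring
  have hBq : ∀ (q : ℕ) [Fact q.Prime], (((x + 9 * d : ℚ)) : ℚ_[q]) =
      (((b : ℚ) * z ^ 2 : ℚ) : ℚ_[q]) := by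
    intro q _
    rw [hBe]
  -- odd primes not dividing `d`
  have hunr : ∀ (q : ℕ) [Fact q.Prime], q ≠ 2 → ¬ (q : ℤ) ∣ d →
      Even ((((b : ℚ) * z ^ 2 : ℚ) : ℚ_[q])).valuation ∧
        Even ((((m : ℚ) * w ^ 2 : ℚ) : ℚ_[q])).valuation := by
    intro q _ hq2 hqd
    have h1 := loc_unr hq2 (((d : ℚ)) : ℚ_[q]) (((x + 9 * d : ℚ)) : ℚ_[q]) ((y : ℚ) : ℚ_[q])
      (cls_norm_one hqd) ?_ ?_ (hyq q) (heq q)
    · rw [hCq q, hBq q] at h1
      exact h1
    · intro hq3
      subst hq3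
      have h2 := (sq_int_iff (p := 3) (by norm_num) d hqd).2
      unfold Sq at h2
      have h4 : d % 3 = 1 := by omega
      have h5 : ((d : ℤ) : ZMod 3) = 1 := by
        have := (ZMod.intCast_eq_intCast_iff_dvd_sub d 1 3).2 (by
          push_cast
          omega)
        simpa using this
      exact h2 (by rw [h5]; exact IsSquare.one)
    · intro hq5
      subst hq5
      intro h2
      have h4 := (sq_int_iff (p := 5) (by norm_num) d hqd).1 h2
      have h6 : d % 5 = 2 ∨ d % 5 = 3 := by omega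
      have h7 : ((d : ℤ) : ZMod 5) = 2 ∨ ((d : ℤ) : ZMod 5) = 3 := by
        rcases h6 with h6 | h6
        · left
          have := (ZMod.intCast_eq_intCast_iff_dvd_sub d 2 5).2 (by
            push_cast
            omega)
          simpa using this
        · right
          have := (ZMod.intCast_eq_intCast_iff_dvd_sub d 3 5).2 (by
            push_cast
            omega)
          simpa using this
      have h8 := cls_two_five
      have h9 := cls_three_five
      rcases h7 with h7 | h7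
      · rw [h7] at h4
        exact h8 h4
      · rw [h7] at h4
        exact h9 h4
  -- the prime 2
  have hdvd2 : ∀ t : ℤ, t % 2 = 1 → ¬ ((2 : ℕ) : ℤ) ∣ t := by
    intro t ht
    omega
  have h5v : ((5 : ℚ_[2])).valuation = 0 := by
    have h1 : ((5 : ℚ_[2])) = ((5 : ℕ) : ℚ_[2]) := by norm_num
    rw [h1, Padic.valuation_natCast]
    have : padicValNat 2 5 = 0 := padicValNat.eq_zero_of_not_dvd (by norm_num)
    exact_mod_cast this
  have htwo := loc_two (((d : ℚ)) : ℚ_[2]) (((x + 9 * d : ℚ)) : ℚ_[2]) ((y : ℚ) : ℚ_[2])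
    (by exact_mod_cast hd.ne_zero) (hyq 2) (heq 2)
  have htwo' : Sq 2 b ∨ Sq 2 (b * d) ∨ (Sq 2 d ∧ Sq 2 (5 * b)) := by
    rw [hBq 2] at htwo
    rcases htwo with h1 | h1 | ⟨h1, h2⟩
    · left
      exact (sq_mul_sq_iff (p := 2) (b : ℚ) z hz).1 h1
    · right
      left
      refine (sq_mul_sq_iff (p := 2) ((b : ℚ) * d) z hz).1 ?_
      unfold Sq
      have : (((b : ℚ) * d * z ^ 2 : ℚ) : ℚ_[2]) =
          (((b : ℚ) * z ^ 2 : ℚ) : ℚ_[2]) * (((d : ℚ)) : ℚ_[2]) := by
        push_cast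
        ring
      rw [this]
      exact h1
    · right
      right
      refine ⟨h1, (sq_mul_sq_iff (p := 2) (5 * (b : ℚ)) z hz).1 ?_⟩
      unfold Sq
      have : ((5 * (b : ℚ) * z ^ 2 : ℚ) : ℚ_[2]) =
          5 * (((b : ℚ) * z ^ 2 : ℚ) : ℚ_[2]) := by
        push_cast
        ring
      rw [this]
      exact h2
  refine ⟨b, m, z, w, ⟨hb, ?_, ?_, ?_, ?_⟩, ⟨?_, hm, ?_, ?_⟩, hz, hw, hBe, hCe⟩
  · intro q hq hq2 hqb
    have : Fact q.Prime := ⟨hq⟩
    by_contra hqd
    exact cls_val_sq hb hz hqb (hunr q hq2 hqd).1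
  · intro hd4
    have hd2 : d % 2 = 1 := by omega
    have hdv : (((d : ℚ)) : ℚ_[2]).valuation = 0 := by
      have h1 := cls_norm_one (q := 2) (hdvd2 d hd2)
      have h2 : (((d : ℚ)) : ℚ_[2]) ≠ 0 := by exact_mod_cast hd.ne_zero
      have h4 := Padic.norm_eq_zpow_neg_valuation h2
      rw [h1] at h4
      have h6 : (((2 : ℕ) : ℝ)) ^ (-(((d : ℚ)) : ℚ_[2]).valuation) = 1 := h4.symm
      have h7 := (zpow_eq_one_iff_right₀ (a := ((2 : ℕ) : ℝ)) (by norm_num) (by norm_num)).1 h6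
      omega
    have hbodd : b % 2 = 1 := by
      by_contra hb2
      have hb2' : ((2 : ℕ) : ℤ) ∣ b := by omega
      have hbv := cls_val (q := 2) hb hb2'
      have hb0 : (b : ℚ_[2]) ≠ 0 := by exact_mod_cast hb.ne_zero
      have hd00 : (d : ℚ_[2]) ≠ 0 := by exact_mod_cast hd.ne_zero
      have hdv' : (d : ℚ_[2]).valuation = 0 := by
        have : (((d : ℚ)) : ℚ_[2]) = (d : ℚ_[2]) := by push_cast; rfl
        rw [← this]
        exact hdv
      rcases htwo' with h1 | h1 | ⟨-, h1⟩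
      · have h2 := even_valuation _ h1
        have h4 : (((b : ℚ)) : ℚ_[2]) = (b : ℚ_[2]) := by push_cast; rfl
        rw [h4, hbv] at h2
        exact absurd h2 (by decide)
      · have h2 := even_valuation _ h1
        have h4 : ((((b : ℚ) * (d : ℚ) : ℚ)) : ℚ_[2]) = (b : ℚ_[2]) * (d : ℚ_[2]) := by
          push_cast; rfl
        rw [h4, Padic.valuation_mul hb0 hd00, hbv, hdv'] at h2
        exact absurd h2 (by decide)
      · have h2 := even_valuation _ h1
        have h4 : (((5 * (b : ℚ) : ℚ)) : ℚ_[2]) = 5 * (b : ℚ_[2]) := by push_cast; rfl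
        rw [h4, Padic.valuation_mul (by norm_num) hb0, hbv, h5v] at h2
        exact absurd h2 (by decide)
    rcases htwo' with h1 | h1 | ⟨-, h1⟩
    · have h2 := (sq_two_iff b hbodd).1 h1
      omega
    · have hbd : (b * d) % 2 = 1 := by
        rw [Int.mul_emod, hbodd, hd2]
        rfl
      have h2 := (sq_two_iff (b * d) hbd).1 (by push_cast; exact h1)
      have h4 : (b * d) % 4 = 1 := by omega
      rw [Int.mul_emod, hd4] at h4
      omega
    · have hbd : (5 * b) % 2 = 1 := by omega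
      have h2 := (sq_two_iff (5 * b) hbd).1 (by push_cast; exact h1)
      omega
  · intro q _ hq2 hqd
    have hdv : (((d : ℚ)) : ℚ_[q]).valuation = 1 := by
      have h1 := cls_val hd hqd
      have : (((d : ℚ)) : ℚ_[q]) = (d : ℚ_[q]) := by push_cast; rfl
      rw [this]
      exact h1
    have h1 := loc_ram hq2 (((d : ℚ)) : ℚ_[q]) (((x + 9 * d : ℚ)) : ℚ_[q]) ((y : ℚ) : ℚ_[q])
      (by rw [hdv]; decide) (hyq q) (heq q)
    rw [hBq q] at h1
    rcases h1 with h1 | h1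
    · left
      exact (sq_mul_sq_iff (p := q) (b : ℚ) z hz).1 h1
    · right
      refine (sq_mul_sq_iff (p := q) ((b : ℚ) * d) z hz).1 ?_
      unfold Sq
      have : (((b : ℚ) * d * z ^ 2 : ℚ) : ℚ_[q]) =
          (((b : ℚ) * z ^ 2 : ℚ) : ℚ_[q]) * (((d : ℚ)) : ℚ_[q]) := by
        push_cast
        ring
      rw [this]
      exact h1
  · intro hd4
    rcases htwo' with h1 | h1 | ⟨h1, -⟩
    · exact Or.inl h1
    · exact Or.inr h1
    · exfalso
      by_cases hd2 : d % 2 = 1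
      · have h2 := (sq_two_iff d hd2).1 h1
        omega
      · have hd2' : ((2 : ℕ) : ℤ) ∣ d := by omega
        have h2 := even_valuation _ h1
        have h4 : (((d : ℚ)) : ℚ_[2]) = (d : ℚ_[2]) := by push_cast; rfl
        rw [h4, cls_val (q := 2) hd hd2'] at h2
        exact absurd h2 (by decide)
  · -- positivity
    have hdq : (d : ℚ) < 0 := by exact_mod_cast hneg
    have hpos : 0 < x * (x + 9 * d) * (x - 16 * d) := by
      rw [← h]
      positivity
    have hC : 0 < x - 16 * d := by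
      by_contra hcon
      have h1 : x - 16 * d ≤ 0 := not_lt.1 hcon
      have h2 : x < 0 := by nlinarith
      have h4 : x + 9 * d < 0 := by nlinarith
      have h6 : 0 < x * (x + 9 * d) := mul_pos_of_neg_of_neg h2 h4
      nlinarith [mul_nonneg h6.le (neg_nonneg.2 h1)]
    rw [hCe] at hC
    have hw2 : 0 < w ^ 2 := by positivity
    have h1 : (0 : ℚ) < m := by
      by_contra hcon
      have h2 : (m : ℚ) ≤ 0 := not_lt.1 hcon
      nlinarith [mul_nonneg hw2.le (neg_nonneg.2 h2)]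
    exact_mod_cast h1
  · intro q hq hq2 hqm
    have : Fact q.Prime := ⟨hq⟩
    by_contra hqd
    exact cls_val_sq hm hw hqm (hunr q hq2 hqd).2
  · intro hm2 hd4
    have hd2 : d % 2 = 1 := by omega
    have hsq : IsSquare (((d : ℚ)) : ℚ_[2]) ∨ IsSquare (5 * (((d : ℚ)) : ℚ_[2])) := by
      have h8 : d % 8 = 1 ∨ d % 8 = 5 := by omega
      rcases h8 with h8 | h8
      · left
        exact (sq_two_iff d hd2).2 h8
      · right
        have h1 := (sq_two_iff (5 * d) (by omega)).2 (by omega)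
        unfold Sq at h1
        push_cast at h1 ⊢
        exact h1
    have h1 := loc_two' (((d : ℚ)) : ℚ_[2]) (((x + 9 * d : ℚ)) : ℚ_[2]) ((y : ℚ) : ℚ_[2]) hsq
      (cls_norm_one (q := 2) (hdvd2 d hd2)) (hyq 2) (heq 2)
    rw [hCq 2] at h1
    exact cls_val_sq (q := 2) hm hw (by exact_mod_cast hm2) h1

end X15
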