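import Pool.Agent.Lib.MP_87c685_nt_X15.PadicSq
import Pool.Agent.Lib.MP_87c685_nt_X15.LocUnr
import Pool.Agent.Lib.MP_87c685_nt_X15.LocTwo
import Pool.Agent.Lib.MP_87c685_nt_X15.Classes

open NumberField WeierstrassCurve

namespace X15

/-- a squarefree integer whose only possible prime factor is `5` -/
theorem co_sqf (b : ℤ) (hb : Squarefree b)
    (h : ∀ q : ℕ, q.Prime → q ≠ 5 → ¬ (q : ℤ) ∣ b) : b.natAbs = 1 ∨ b.natAbs = 5 := by
  have h1 : Squarefree b.natAbs := Int.squarefree_natAbs.2 hb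
  have h2 := Nat.prod_primeFactors_of_squarefree h1
  have h3 : b.natAbs.primeFactors ⊆ {5} := by
    intro q hq
    rw [Finset.mem_singleton]
    by_contra hq5
    exact h q (Nat.prime_of_mem_primeFactors hq) hq5
      (Int.natCast_dvd.2 (Nat.dvd_of_mem_primeFactors hq))
  rcases Finset.subset_singleton_iff.1 h3 with h4 | h4
  · left
    rw [h4] at h2
    simpa using h2.symm
  · right
    rw [h4] at h2
    simpa using h2.symm

theorem co_val_sq {q : ℕ} [Fact q.Prime] {b : ℤ} {z : ℚ} (hb : b ≠ 0) (hz : z ≠ 0)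
    (hq : ¬ (q : ℤ) ∣ b) : Even ((((b : ℚ) * z ^ 2 : ℚ) : ℚ_[q])).valuation := by
  have hb0 : (b : ℚ_[q]) ≠ 0 := by exact_mod_cast hb
  have hz0 : (z : ℚ_[q]) ≠ 0 := by exact_mod_cast hz
  have h1 : (((b : ℚ) * z ^ 2 : ℚ) : ℚ_[q]) = (b : ℚ_[q]) * (z : ℚ_[q]) ^ 2 := by
    push_cast
    ring
  have h2 : (b : ℚ_[q]).valuation = 0 := by
    have h3 := cls_norm_one hq
    have h4 := LocUnr.val_unit h3
    have h5 : (((b : ℚ)) : ℚ_[q]) = (b : ℚ_[q]) := by push_cast; rfl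
    rw [h5] at h4
    exact h4
  rw [h1, Padic.valuation_mul hb0 (pow_ne_zero _ hz0), h2, Padic.valuation_pow, zero_add]
  rw [Int.even_iff]
  push_cast
  omega

/-- D2 -/
theorem exists_classes_one (x y : ℚ) (hy : y ≠ 0) (h : y ^ 2 = x * (x + 9) * (x - 16)) :
    ∃ z w : ℚ, z ≠ 0 ∧ w ≠ 0 ∧
      ((x + 9 = z ^ 2 ∧ x - 16 = w ^ 2) ∨ (x + 9 = z ^ 2 ∧ x - 16 = - w ^ 2) ∨
        (x + 9 = 5 * z ^ 2 ∧ x - 16 = 5 * w ^ 2) ∨ (x + 9 = 5 * z ^ 2 ∧ x - 16 = - 5 * w ^ 2)) := by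
  have hy2 : y ^ 2 ≠ 0 := pow_ne_zero 2 hy
  have hB0 : x + 9 ≠ 0 := by
    intro h0
    rw [h0] at h
    apply hy2
    rw [h]
    ring
  have hC0 : x - 16 ≠ 0 := by
    intro h0
    rw [h0] at h
    apply hy2
    rw [h]
    ring
  obtain ⟨b, z, hb, hz, hBe⟩ := exists_sqfree _ hB0
  obtain ⟨m, w, hm, hw, hCe⟩ := exists_sqfree _ hC0
  -- the equation over every `ℚ_q`
  have heq : ∀ (q : ℕ) [Fact q.Prime], (((x + 9 : ℚ)) : ℚ_[q]) *
      ((((x + 9 : ℚ)) : ℚ_[q]) - 9 * (1 : ℚ_[q])) *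
      ((((x + 9 : ℚ)) : ℚ_[q]) - 25 * (1 : ℚ_[q])) = ((y : ℚ) : ℚ_[q]) ^ 2 := by
    intro q _
    have h1 : (x + 9) * ((x + 9) - 9 * 1) * ((x + 9) - 25 * 1) = y ^ 2 := by
      rw [h]
      ring
    have h2 := congrArg (fun t : ℚ => (t : ℚ_[q])) h1
    push_cast at h2 ⊢
    exact h2
  have hyq : ∀ (q : ℕ) [Fact q.Prime], ((y : ℚ) : ℚ_[q]) ≠ 0 := by
    intro q _
    exact_mod_cast hy
  have hCq : ∀ (q : ℕ) [Fact q.Prime], (((x + 9 : ℚ)) : ℚ_[q]) - 25 * (1 : ℚ_[q]) =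
      (((m : ℚ) * w ^ 2 : ℚ) : ℚ_[q]) := by
    intro q _
    have h1 : (m : ℚ) * w ^ 2 = (x + 9) - 25 * 1 := by
      rw [← hCe]
      ring
    rw [h1]
    push_cast
    ring
  have hBq : ∀ (q : ℕ) [Fact q.Prime], (((x + 9 : ℚ)) : ℚ_[q]) =
      (((b : ℚ) * z ^ 2 : ℚ) : ℚ_[q]) := by
    intro q _
    rw [hBe]
  have h5v : ((5 : ℚ_[2])).valuation = 0 := by
    have h1 : ((5 : ℚ_[2])) = ((5 : ℕ) : ℚ_[2]) := by norm_num
    rw [h1, Padic.valuation_natCast]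
    have : padicValNat 2 5 = 0 := padicValNat.eq_zero_of_not_dvd (by norm_num)
    exact_mod_cast this
  -- the primes different from 5
  have hpr : ∀ q : ℕ, q.Prime → q ≠ 5 → ¬ (q : ℤ) ∣ b ∧ ¬ (q : ℤ) ∣ m := by
    intro q hq hq5
    have : Fact q.Prime := ⟨hq⟩
    by_cases hq2 : q = 2
    · subst hq2
      have h1 := loc_two (1 : ℚ_[2]) (((x + 9 : ℚ)) : ℚ_[2]) ((y : ℚ) : ℚ_[2])
        one_ne_zero (hyq 2) (heq 2)
      have h2 := loc_two' (1 : ℚ_[2]) (((x + 9 : ℚ)) : ℚ_[2]) ((y : ℚ) : ℚ_[2])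
        (Or.inl IsSquare.one) norm_one (hyq 2) (heq 2)
      rw [hCq 2] at h2
      rw [mul_one, hBq 2] at h1
      have h3 : Even ((((b : ℚ) * z ^ 2 : ℚ) : ℚ_[2])).valuation := by
        rcases h1 with h1 | h1 | ⟨-, h1⟩
        · exact even_valuation _ h1
        · exact even_valuation _ h1
        · have h4 := even_valuation _ h1
          have hne : (((b : ℚ) * z ^ 2 : ℚ) : ℚ_[2]) ≠ 0 := by
            have : ((b : ℚ) * z ^ 2 : ℚ) ≠ 0 := by
              rw [← hBe]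
              exact hB0
            exact_mod_cast this
          rw [Padic.valuation_mul (by norm_num) hne, h5v, zero_add] at h4
          exact h4
      exact ⟨fun hc => cls_val_sq hb hz hc h3, fun hc => cls_val_sq hm hw hc h2⟩
    · have h1 := loc_unr hq2 (1 : ℚ_[q]) (((x + 9 : ℚ)) : ℚ_[q]) ((y : ℚ) : ℚ_[q])
        norm_one (fun _ => IsSquare.one) (fun h5 => absurd h5 hq5) (hyq q) (heq q)
      rw [hCq q, hBq q] at h1
      exact ⟨fun hc => cls_val_sq hb hz hc h1.1, fun hc => cls_val_sq hm hw hc h1.2⟩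
  -- the prime 5
  have : Fact (Nat.Prime 5) := ⟨by norm_num⟩
  have h5 : ((5 : ℕ) : ℤ) ∣ b ↔ ((5 : ℕ) : ℤ) ∣ m := by
    have h1 := loc_five (p := 5) rfl (1 : ℚ_[5]) (((x + 9 : ℚ)) : ℚ_[5]) ((y : ℚ) : ℚ_[5])
      norm_one (hyq 5) (heq 5)
    have h2 := LocUnr.val_sum (hyq 5) (heq 5)
    rw [hCq 5, hBq 5] at h2
    rw [hBq 5] at h1
    constructor
    · intro hc
      by_contra hn
      have h3 := co_val_sq hm.ne_zero hw hn
      have h4 := cls_val_sq hb hz hc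
      rw [Int.even_iff] at h1 h3 h4
      omega
    · intro hc
      by_contra hn
      have h3 := co_val_sq hb.ne_zero hz hn
      have h4 := cls_val_sq hm hw hc
      rw [Int.even_iff] at h1 h3 h4
      omega
  have hbn := co_sqf b hb (fun q hq hq5 => (hpr q hq hq5).1)
  have hmn := co_sqf m hm (fun q hq hq5 => (hpr q hq hq5).2)
  -- positivity
  have hbpos : 0 < b := by
    have hpos : 0 < x * (x + 9) * (x - 16) := by
      rw [← h]
      positivity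
    have hB : 0 < x + 9 := by
      by_contra hcon
      have h1 : x + 9 ≤ 0 := not_lt.1 hcon
      have h2 : x < 0 := by linarith
      have h4 : x - 16 < 0 := by linarith
      have h6 : 0 < x * (x - 16) := mul_pos_of_neg_of_neg h2 h4
      nlinarith [mul_nonneg h6.le (neg_nonneg.2 h1)]
    rw [hBe] at hB
    have hz2 : 0 < z ^ 2 := by positivity
    have h1 : (0 : ℚ) < b := by
      by_contra hcon
      have h2 : (b : ℚ) ≤ 0 := not_lt.1 hcon
      nlinarith [mul_nonneg hz2.le (neg_nonneg.2 h2)]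
    exact_mod_cast h1
  refine ⟨z, w, hz, hw, ?_⟩
  have hcases : (b = 1 ∧ m = 1) ∨ (b = 1 ∧ m = -1) ∨ (b = 5 ∧ m = 5) ∨ (b = 5 ∧ m = -5) := by
    omega
  rcases hcases with ⟨rfl, rfl⟩ | ⟨rfl, rfl⟩ | ⟨rfl, rfl⟩ | ⟨rfl, rfl⟩
  · left
    refine ⟨?_, ?_⟩
    · rw [hBe]; push_cast; ring
    · rw [hCe]; push_cast; ring
  · right; left
    refine ⟨?_, ?_⟩
    · rw [hBe]; push_cast; ring
    · rw [hCe]; push_cast; ring
  · right; right; left
    refine ⟨?_, ?_⟩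
    · rw [hBe]; push_cast; ring
    · rw [hCe]; push_cast; ring
  · right; right; right
    refine ⟨?_, ?_⟩
    · rw [hBe]; push_cast; ring
    · rw [hCe]; push_cast; ring

end X15
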