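import Pool.Agent.Lib.MP_87c685_nt_X15.Defs

open NumberField WeierstrassCurve

namespace X15

theorem crv_disc {F : Type*} [Field F] (d : F) : (E F d).Δ = 207360000 * d ^ 6 := by
  simp only [E, WeierstrassCurve.Δ, WeierstrassCurve.b₂, WeierstrassCurve.b₄,
    WeierstrassCurve.b₆, WeierstrassCurve.b₈]
  ring

theorem E_isElliptic {F : Type*} [Field F] [CharZero F] (d : F) (hd : d ≠ 0) :
    (E F d).IsElliptic := by
  refine ⟨?_⟩
  rw [crv_disc, isUnit_iff_ne_zero]
  exact mul_ne_zero (by norm_num) (pow_ne_zero 6 hd)

theorem equation_iff {F : Type*} [Field F] (d x y : F) :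
    (E F d).toAffine.Equation x y ↔ y ^ 2 = x * (x + 9 * d) * (x - 16 * d) := by
  rw [Affine.equation_iff]
  simp only [E]
  constructor
  · intro h
    linear_combination h
  · intro h
    linear_combination h

theorem nonsingular_iff {F : Type*} [Field F] [CharZero F] (d x y : F) (hd : d ≠ 0) :
    (E F d).toAffine.Nonsingular x y ↔ y ^ 2 = x * (x + 9 * d) * (x - 16 * d) := by
  have := E_isElliptic d hd
  rw [← Affine.equation_iff_nonsingular, equation_iff]

theorem add_self_eq_zero_iff {F : Type*} [Field F] [CharZero F] [DecidableEq F] (d : F)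
    (hd : d ≠ 0) (x y : F) (h : (E F d).toAffine.Nonsingular x y) :
    Affine.Point.some x y h + Affine.Point.some x y h = 0 ↔ y = 0 := by
  have hneg : (E F d).toAffine.negY x y = -y := by
    simp only [Affine.negY, E]
    ring
  constructor
  · intro h0
    by_contra hy
    have hne : y ≠ (E F d).toAffine.negY x y := by
      rw [hneg]
      intro h1
      apply hy
      have h2 : (2 : F) * y = 0 := by linear_combination h1
      rcases mul_eq_zero.mp h2 with h3 | h3
      · exact absurd h3 two_ne_zero
      · exact h3
    rw [Affine.Point.add_self_of_Y_ne hne] at h0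
    exact Affine.Point.some_ne_zero _ h0
  · intro hy
    apply Affine.Point.add_self_of_Y_eq
    rw [hneg, hy, neg_zero]

theorem crv_ker_finite {F : Type*} [Field F] [CharZero F] [DecidableEq F] (d : F)
    (hd : d ≠ 0) : {P : (E F d).toAffine.Point | P + P = 0}.Finite := by
  have hx : ({0, -9 * d, 16 * d} : Set F).Finite := by
    apply Set.Finite.insert
    apply Set.Finite.insert
    exact Set.finite_singleton _
  letI hdec : ∀ x : F, Decidable ((E F d).toAffine.Nonsingular x 0) :=
    fun x => Classical.propDecidable _
  let g : F → (E F d).toAffine.Point := fun x =>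
    if h : (E F d).toAffine.Nonsingular x 0 then Affine.Point.some x 0 h else 0
  refine Set.Finite.subset ((hx.image g).insert 0) ?_
  intro P hP
  cases P with
  | zero => exact Set.mem_insert _ _
  | some x y h =>
    right
    have hP' : Affine.Point.some x y h + Affine.Point.some x y h = 0 := hP
    have hy : y = 0 := (add_self_eq_zero_iff d hd x y h).1 hP'
    subst hy
    refine ⟨x, ?_, ?_⟩
    · have h1 := (nonsingular_iff d x 0 hd).1 h
      have h2 : x * (x + 9 * d) * (x - 16 * d) = 0 := by rw [← h1]; ring
      rcases mul_eq_zero.mp h2 with h3 | h3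
      · rcases mul_eq_zero.mp h3 with h4 | h4
        · left
          exact h4
        · right
          left
          linear_combination h4
      · right
        right
        change x = 16 * d
        linear_combination h3
    · change (if h : (E F d).toAffine.Nonsingular x 0 then Affine.Point.some x 0 h else 0) = _
      rw [dif_pos h]

/-- doubling is finite to one -/
theorem finite_preimage_double {F : Type*} [Field F] [CharZero F] [DecidableEq F] (d : F)
    (hd : d ≠ 0) (S : Set (E F d).toAffine.Point) (hS : S.Finite) :
    {P : (E F d).toAffine.Point | P + P ∈ S}.Finite := by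
  have h1 : {P : (E F d).toAffine.Point | P + P ∈ S} =
      ⋃ Q ∈ S, {P : (E F d).toAffine.Point | P + P = Q} := by
    ext P
    simp
  rw [h1]
  apply hS.biUnion
  intro Q _
  by_cases hne : ∃ P0 : (E F d).toAffine.Point, P0 + P0 = Q
  · obtain ⟨P0, hP0⟩ := hne
    refine Set.Finite.subset ((crv_ker_finite d hd).image (fun R => R + P0)) ?_
    intro P hP
    have hP' : P + P = Q := hP
    refine ⟨P - P0, ?_, sub_add_cancel P P0⟩
    change (P - P0) + (P - P0) = 0
    have h2 : (P - P0) + (P - P0) = (P + P) - (P0 + P0) := by abel
    rw [h2, hP', hP0, sub_self]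
  · have h2 : {P : (E F d).toAffine.Point | P + P = Q} = ∅ := by
      ext P
      simp only [Set.mem_ofPred_eq, Set.mem_empty_iff_false, iff_false]
      intro h
      exact hne ⟨P, h⟩
    rw [h2]
    exact Set.finite_empty

end X15
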