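import Pool.Agent.Lib.MP_87c685_nt_X15.Curve

open NumberField WeierstrassCurve

namespace X15

/-- halving with explicit square roots -/
theorem halve_aux {F : Type*} [Field F] [CharZero F] [DecidableEq F] (d : F) (hd : d ≠ 0) (x y : F)
    (h : (E F d).toAffine.Nonsingular x y) (a b c : F) (ha : x = a * a) (hb : x + 9 * d = b * b)
    (hc : x - 16 * d = c * c) (hy : a * b * c = y) :
    ∃ Q : (E F d).toAffine.Point, Affine.Point.some x y h = Q + Q := by
  set X : F := (a + b) * (a + c) with hX
  set Y : F := (a + b) * (a + c) * (b + c) with hY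
  have e1 : X + 9 * d = (b + a) * (b + c) := by
    rw [hX]
    linear_combination hb - ha
  have e2 : X - 16 * d = (c + a) * (c + b) := by
    rw [hX]
    linear_combination hc - ha
  have h9 : (9 : F) * d ≠ 0 := mul_ne_zero (by norm_num) hd
  have h16 : (16 : F) * d ≠ 0 := mul_ne_zero (by norm_num) hd
  have h25 : (25 : F) * d ≠ 0 := mul_ne_zero (by norm_num) hd
  have hab : a + b ≠ 0 := by
    intro h0
    apply h9
    linear_combination hb - ha + (b - a) * h0
  have hac : a + c ≠ 0 := by
    intro h0
    apply h16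
    linear_combination ha - hc + (a - c) * h0
  have hbc : b + c ≠ 0 := by
    intro h0
    apply h25
    linear_combination hb - hc + (b - c) * h0
  have hY0 : Y ≠ 0 := mul_ne_zero (mul_ne_zero hab hac) hbc
  have hQ : (E F d).toAffine.Nonsingular X Y := by
    rw [nonsingular_iff d X Y hd, e1, e2, hX, hY]
    ring
  have hne : Y ≠ (E F d).toAffine.negY X Y := by
    intro h0
    have h1 : (2 : F) * Y = 0 := by
      simp only [Affine.negY, E] at h0
      linear_combination h0
    rcases mul_eq_zero.1 h1 with h2 | h2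
    · norm_num at h2
    · exact hY0 h2
  have hsl : (E F d).toAffine.slope X X Y Y = a + b + c := by
    rw [Affine.slope_of_Y_ne rfl hne]
    have h2 : Y - (E F d).toAffine.negY X Y = 2 * Y := by
      simp only [Affine.negY, E]
      ring
    have h3 : 3 * X ^ 2 + 2 * (E F d).toAffine.a₂ * X + (E F d).toAffine.a₄ -
        (E F d).toAffine.a₁ * Y = (a + b + c) * (2 * Y) := by
      have h4 : 3 * X ^ 2 + 2 * (E F d).toAffine.a₂ * X + (E F d).toAffine.a₄ -
        (E F d).toAffine.a₁ * Y = (X + 9 * d) * (X - 16 * d) + X * (X - 16 * d) +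
          X * (X + 9 * d) := by
        simp only [E]
        ring
      rw [h4, e1, e2, hX, hY]
      ring
    rw [h2, h3, mul_div_assoc, div_self (mul_ne_zero two_ne_zero hY0), mul_one]
  refine ⟨Affine.Point.some X Y hQ, ?_⟩
  rw [Affine.Point.add_self_of_Y_ne hne]
  simp only [Affine.Point.some.injEq]
  have hx : x = (E F d).toAffine.addX X X (a + b + c) := by
    simp only [Affine.addX, E]
    rw [hX]
    linear_combination -ha + hb + hc
  rw [hsl]
  refine ⟨hx, ?_⟩
  rw [Affine.addY, Affine.negAddY, ← hx]
  simp only [Affine.negY, E]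
  rw [hX, hY, ← hy]
  linear_combination (a + b + c) * ha

/-- B1: halving -/
theorem halve {F : Type*} [Field F] [CharZero F] [DecidableEq F] (d : F) (hd : d ≠ 0) (x y : F)
    (h : (E F d).toAffine.Nonsingular x y) (h1 : IsSquare x) (h2 : IsSquare (x + 9 * d))
    (h3 : IsSquare (x - 16 * d)) :
    ∃ Q : (E F d).toAffine.Point, Affine.Point.some x y h = Q + Q := by
  obtain ⟨a, ha⟩ := h1
  obtain ⟨b, hb⟩ := h2
  obtain ⟨c, hc⟩ := h3
  have hy := (nonsingular_iff d x y hd).1 h
  have h4 : (a * b * c - y) * (a * b * c + y) = 0 := by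
    have h5 : y ^ 2 = (a * a) * (b * b) * (c * c) := by rw [hy, hb, hc, ← ha]
    linear_combination -h5
  rcases mul_eq_zero.1 h4 with h5 | h5
  · exact halve_aux d hd x y h a b c ha hb hc (by linear_combination h5)
  · exact halve_aux d hd x y h (-a) b c (by rw [ha]; ring) hb hc (by linear_combination -h5)

end X15
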