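import Pool.Agent.Lib.MP_87c685_nt_X15.Curve

open NumberField WeierstrassCurve

namespace X15

theorem prod_aux {F : Type*} [Field F] [DecidableEq F] (d e : F)
    (he : e * (e + 9 * d) * (e - 16 * d) = 0)
    (x₁ y₁ x₂ y₂ : F) (h₁ : (E F d).toAffine.Equation x₁ y₁)
    (h₂ : (E F d).toAffine.Equation x₂ y₂)
    (hxy : ¬(x₁ = x₂ ∧ y₁ = (E F d).toAffine.negY x₂ y₂)) :
    IsSquare ((x₁ - e) * (x₂ - e) *
      ((E F d).toAffine.addX x₁ x₂ ((E F d).toAffine.slope x₁ x₂ y₁ y₂) - e)) := by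
  have h := congrArg (Polynomial.eval e) (Affine.addPolynomial_slope h₁ h₂ hxy)
  rw [Affine.addPolynomial_eq] at h
  simp only [Cubic.toPoly, E, Polynomial.eval_neg, Polynomial.eval_add, Polynomial.eval_mul,
    Polynomial.eval_C, Polynomial.eval_pow, Polynomial.eval_X, Polynomial.eval_sub] at h
  refine ⟨y₁ + (E F d).toAffine.slope x₁ x₂ y₁ y₂ * (e - x₁), ?_⟩
  simp only [E] at h ⊢
  linear_combination -h - he

/-- B2: the descent maps are homomorphisms -/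
theorem prod_isSquare {F : Type*} [Field F] [CharZero F] [DecidableEq F] (d : F) (hd : d ≠ 0)
    (x₁ y₁ x₂ y₂ x₃ y₃ : F) (h₁ : (E F d).toAffine.Nonsingular x₁ y₁)
    (h₂ : (E F d).toAffine.Nonsingular x₂ y₂) (h₃ : (E F d).toAffine.Nonsingular x₃ y₃)
    (h : Affine.Point.some x₁ y₁ h₁ + Affine.Point.some x₂ y₂ h₂ = Affine.Point.some x₃ y₃ h₃) :
    IsSquare (x₁ * x₂ * x₃) ∧ IsSquare ((x₁ + 9 * d) * (x₂ + 9 * d) * (x₃ + 9 * d)) ∧
      IsSquare ((x₁ - 16 * d) * (x₂ - 16 * d) * (x₃ - 16 * d)) := by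
  by_cases hxy : x₁ = x₂ ∧ y₁ = (E F d).toAffine.negY x₂ y₂
  · rw [Affine.Point.add_of_Y_eq hxy.1 hxy.2] at h
    exact absurd h.symm (Affine.Point.some_ne_zero h₃)
  · rw [Affine.Point.add_some hxy] at h
    have hx3 : (E F d).toAffine.addX x₁ x₂ ((E F d).toAffine.slope x₁ x₂ y₁ y₂) = x₃ := by
      injection h
    refine ⟨?_, ?_, ?_⟩
    · have := prod_aux d 0 (by ring) x₁ y₁ x₂ y₂ h₁.1 h₂.1 hxy
      rw [hx3] at this
      simpa using this
    · have := prod_aux d (-(9 * d)) (by ring) x₁ y₁ x₂ y₂ h₁.1 h₂.1 hxy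
      rw [hx3] at this
      simpa only [sub_neg_eq_add] using this
    · have := prod_aux d (16 * d) (by ring) x₁ y₁ x₂ y₂ h₁.1 h₂.1 hxy
      rw [hx3] at this
      exact this

end X15
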