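import Pool.Agent.Lib.MP_87c685_nt_X15.FinTors
import Pool.Agent.Lib.MP_87c685_nt_X15.Curve
import Pool.Agent.Lib.MP_87c685_nt_X15.Halve
import Pool.Agent.Lib.MP_87c685_nt_X15.Prod
import Pool.Agent.Lib.MP_87c685_nt_X15.ClassesOne

open NumberField WeierstrassCurve

namespace X15

theorem fe1_isSquare {F : Type*} [Field F] (c a b : F) (hc : c ≠ 0) (hb : b = c ^ 2 * a)
    (h : IsSquare b) : IsSquare a := by
  obtain ⟨r, hr⟩ := h
  refine ⟨r / c, ?_⟩
  have h1 : c ^ 2 * a = r * r := by rw [← hb, hr]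
  field_simp
  linear_combination h1

theorem fe1_nonsing (x y : ℚ) :
    (E ℚ (1 : ℚ)).toAffine.Nonsingular x y ↔ y ^ 2 = x * (x + 9) * (x - 16) := by
  rw [nonsingular_iff (1 : ℚ) x y one_ne_zero, mul_one, mul_one]

/-- a point which is not of order dividing two -/
theorem fe1_some (R : (E ℚ (1 : ℚ)).toAffine.Point) (hR : R + R ≠ 0) :
    ∃ x y : ℚ, ∃ h : (E ℚ (1 : ℚ)).toAffine.Nonsingular x y, y ≠ 0 ∧
      R = Affine.Point.some x y h := by
  cases R with
  | zero => exact absurd (add_zero (0 : (E ℚ (1 : ℚ)).toAffine.Point)) hR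
  | some x y h =>
    refine ⟨x, y, h, ?_, rfl⟩
    intro hy
    exact hR ((add_self_eq_zero_iff (1 : ℚ) one_ne_zero x y h).2 hy)

theorem fe1_ne (x y : ℚ) (h : (E ℚ (1 : ℚ)).toAffine.Nonsingular x y) (hy : y ≠ 0) :
    x ≠ 0 ∧ x + 9 ≠ 0 ∧ x - 16 ≠ 0 := by
  have heq := (fe1_nonsing x y).1 h
  have key : x * (x + 9) * (x - 16) ≠ 0 := by
    rw [← heq]
    exact pow_ne_zero 2 hy
  exact ⟨left_ne_zero_of_mul (left_ne_zero_of_mul key),
    right_ne_zero_of_mul (left_ne_zero_of_mul key), right_ne_zero_of_mul key⟩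

/-- halving when two of the three classes are trivial -/
theorem fe1_halve (x y : ℚ) (h : (E ℚ (1 : ℚ)).toAffine.Nonsingular x y) (hy : y ≠ 0)
    (h1 : IsSquare (x + 9)) (h2 : IsSquare (x - 16)) :
    ∃ Q : (E ℚ (1 : ℚ)).toAffine.Point, Affine.Point.some x y h = Q + Q := by
  have heq := (fe1_nonsing x y).1 h
  obtain ⟨_, n2, n3⟩ := fe1_ne x y h hy
  have h0 : IsSquare x := by
    obtain ⟨z, hz⟩ := h1
    obtain ⟨w, hw⟩ := h2
    have hz0 : z ≠ 0 := by
      rintro rfl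
      exact n2 (by rw [hz]; ring)
    have hw0 : w ≠ 0 := by
      rintro rfl
      exact n3 (by rw [hw]; ring)
    refine ⟨y / (z * w), ?_⟩
    field_simp
    linear_combination (-1 : ℚ) * heq - x * (x - 16) * hz - x * (z * z) * hw
  exact halve (1 : ℚ) one_ne_zero x y h h0 (by rwa [mul_one]) (by rwa [mul_one])

/-- the descent maps, with `d = 1` -/
theorem fe1_prod (x₁ y₁ x₂ y₂ x₃ y₃ : ℚ) (h₁ : (E ℚ (1 : ℚ)).toAffine.Nonsingular x₁ y₁)
    (h₂ : (E ℚ (1 : ℚ)).toAffine.Nonsingular x₂ y₂)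
    (h₃ : (E ℚ (1 : ℚ)).toAffine.Nonsingular x₃ y₃)
    (h : Affine.Point.some x₁ y₁ h₁ + Affine.Point.some x₂ y₂ h₂ = Affine.Point.some x₃ y₃ h₃) :
    IsSquare ((x₁ + 9) * (x₂ + 9) * (x₃ + 9)) ∧
      IsSquare ((x₁ - 16) * (x₂ - 16) * (x₃ - 16)) := by
  have h4 := prod_isSquare (1 : ℚ) one_ne_zero x₁ y₁ x₂ y₂ x₃ y₃ h₁ h₂ h₃ h
  simp only [mul_one] at h4
  exact ⟨h4.2.1, h4.2.2⟩

theorem fe1_h0 : (E ℚ (1 : ℚ)).toAffine.Nonsingular 0 0 := (fe1_nonsing 0 0).2 (by norm_num)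

theorem fe1_h16 : (E ℚ (1 : ℚ)).toAffine.Nonsingular 16 0 := (fe1_nonsing 16 0).2 (by norm_num)

theorem fe1_h36 : (E ℚ (1 : ℚ)).toAffine.Nonsingular 36 180 :=
  (fe1_nonsing 36 180).2 (by norm_num)

theorem fe1_T0 : Affine.Point.some 0 0 fe1_h0 + Affine.Point.some 0 0 fe1_h0 = 0 :=
  (add_self_eq_zero_iff (1 : ℚ) one_ne_zero 0 0 fe1_h0).2 rfl

theorem fe1_T36 : (Affine.Point.some 36 180 fe1_h36 + Affine.Point.some 36 180 fe1_h36) +
    (Affine.Point.some 36 180 fe1_h36 + Affine.Point.some 36 180 fe1_h36) = 0 := by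
  have hne : (180 : ℚ) ≠ (E ℚ (1 : ℚ)).toAffine.negY 36 180 := by
    simp only [Affine.negY, E]
    norm_num
  have hsl : (E ℚ (1 : ℚ)).toAffine.slope 36 36 180 180 = 9 := by
    rw [Affine.slope_of_Y_ne rfl hne]
    simp only [Affine.negY, E]
    norm_num
  have h2 : Affine.Point.some 36 180 fe1_h36 + Affine.Point.some 36 180 fe1_h36 =
      Affine.Point.some 16 0 fe1_h16 := by
    rw [Affine.Point.add_self_of_Y_ne hne]
    simp only [Affine.Point.some.injEq]
    rw [hsl]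
    constructor
    · simp only [Affine.addX, E]
      norm_num
    · simp only [Affine.addY, Affine.negAddY, Affine.negY, Affine.addX, E]
      norm_num
  rw [h2]
  exact (add_self_eq_zero_iff (1 : ℚ) one_ne_zero 16 0 fe1_h16).2 rfl

/-- the case of the classes `(5, 5)` -/
theorem fe1_case5 (x y : ℚ) (h : (E ℚ (1 : ℚ)).toAffine.Nonsingular x y)
    (hP : (Affine.Point.some x y h + Affine.Point.some x y h) +
      (Affine.Point.some x y h + Affine.Point.some x y h) ≠ 0) (hy : y ≠ 0)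
    (h1 : IsSquare (5 * (x + 9))) (h2 : IsSquare (5 * (x - 16))) :
    ∃ Q : (E ℚ (1 : ℚ)).toAffine.Point,
      Affine.Point.some x y h + Affine.Point.some 36 180 fe1_h36 = Q + Q := by
  obtain ⟨_, n2, n3⟩ := fe1_ne x y h hy
  have hR : (Affine.Point.some x y h + Affine.Point.some 36 180 fe1_h36) +
      (Affine.Point.some x y h + Affine.Point.some 36 180 fe1_h36) ≠ 0 := by
    intro h0
    apply hP
    have e1 : (Affine.Point.some x y h + Affine.Point.some x y h) +
      (Affine.Point.some x y h + Affine.Point.some x y h) =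
      (((Affine.Point.some x y h + Affine.Point.some 36 180 fe1_h36) +
        (Affine.Point.some x y h + Affine.Point.some 36 180 fe1_h36)) +
      ((Affine.Point.some x y h + Affine.Point.some 36 180 fe1_h36) +
        (Affine.Point.some x y h + Affine.Point.some 36 180 fe1_h36))) -
      ((Affine.Point.some 36 180 fe1_h36 + Affine.Point.some 36 180 fe1_h36) +
        (Affine.Point.some 36 180 fe1_h36 + Affine.Point.some 36 180 fe1_h36)) := by abel
    rw [e1, h0, fe1_T36, sub_zero, add_zero]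
  obtain ⟨x3, y3, h3, hy3, hsum⟩ := fe1_some _ hR
  obtain ⟨q2, q3⟩ := fe1_prod x y 36 180 x3 y3 h fe1_h36 h3 hsum
  obtain ⟨c, hc⟩ := h1
  obtain ⟨e, he⟩ := h2
  have hc0 : c ≠ 0 := by
    rintro rfl
    have : 5 * (x + 9) = 0 := by rw [hc]; ring
    rcases mul_eq_zero.1 this with h5 | h5
    · norm_num at h5
    · exact n2 h5
  have he0 : e ≠ 0 := by
    rintro rfl
    have : 5 * (x - 16) = 0 := by rw [he]; ring
    rcases mul_eq_zero.1 this with h5 | h5
    · norm_num at h5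
    · exact n3 h5
  have s2 : IsSquare (x3 + 9) := by
    refine fe1_isSquare (3 * c) _ _ (mul_ne_zero (by norm_num) hc0) ?_ q2
    linear_combination 9 * (x3 + 9) * hc
  have s3 : IsSquare (x3 - 16) := by
    refine fe1_isSquare (2 * e) _ _ (mul_ne_zero (by norm_num) he0) ?_ q3
    linear_combination 4 * (x3 - 16) * he
  obtain ⟨Q, hQ⟩ := fe1_halve x3 y3 h3 hy3 s2 s3
  exact ⟨Q, by rw [hsum, hQ]⟩

theorem fe1_cover (P : (E ℚ (1 : ℚ)).toAffine.Point) :
    ∃ T ∈ {T : (E ℚ (1 : ℚ)).toAffine.Point | (T + T) + (T + T) = 0},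
      ∃ Q : (E ℚ (1 : ℚ)).toAffine.Point, P + T = Q + Q := by
  by_cases hP : (P + P) + (P + P) = 0
  · refine ⟨-P, ?_, 0, by rw [add_neg_cancel, add_zero]⟩
    change (-P + -P) + (-P + -P) = 0
    have : (-P + -P) + (-P + -P) = -((P + P) + (P + P)) := by abel
    rw [this, hP, neg_zero]
  · have hPP : P + P ≠ 0 := by
      intro h0
      exact hP (by rw [h0, add_zero])
    obtain ⟨x, y, h, hy, rfl⟩ := fe1_some P hPP
    have heq := (fe1_nonsing x y).1 h
    obtain ⟨_, n2, n3⟩ := fe1_ne x y h hy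
    -- adding the point `(0,0)`
    have hR : (Affine.Point.some x y h + Affine.Point.some 0 0 fe1_h0) +
        (Affine.Point.some x y h + Affine.Point.some 0 0 fe1_h0) =
        Affine.Point.some x y h + Affine.Point.some x y h := by
      have e1 : (Affine.Point.some x y h + Affine.Point.some 0 0 fe1_h0) +
        (Affine.Point.some x y h + Affine.Point.some 0 0 fe1_h0) =
        (Affine.Point.some x y h + Affine.Point.some x y h) +
        (Affine.Point.some 0 0 fe1_h0 + Affine.Point.some 0 0 fe1_h0) := by abel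
      rw [e1, fe1_T0, add_zero]
    obtain ⟨x3, y3, h3, hy3, hsum⟩ := fe1_some _ (by rw [hR]; exact hPP)
    obtain ⟨q2, q3⟩ := fe1_prod x y 0 0 x3 y3 h fe1_h0 h3 hsum
    have hT0 : (Affine.Point.some 0 0 fe1_h0 + Affine.Point.some 0 0 fe1_h0) +
        (Affine.Point.some 0 0 fe1_h0 + Affine.Point.some 0 0 fe1_h0) = 0 := by
      rw [fe1_T0, add_zero]
    obtain ⟨z, w, hz, hw, hc⟩ := exists_classes_one x y hy heq
    rcases hc with ⟨c1, c2⟩ | ⟨c1, c2⟩ | ⟨c1, c2⟩ | ⟨c1, c2⟩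
    · obtain ⟨Q, hQ⟩ := fe1_halve x y h hy ⟨z, by rw [c1]; ring⟩ ⟨w, by rw [c2]; ring⟩
      refine ⟨0, ?_, Q, by rw [add_zero, hQ]⟩
      change (0 : (E ℚ (1 : ℚ)).toAffine.Point) + 0 + (0 + 0) = 0
      simp
    · have s2 : IsSquare (x3 + 9) := by
        refine fe1_isSquare (3 * z) _ _ (mul_ne_zero (by norm_num) hz) ?_ q2
        rw [c1]; ring
      have s3 : IsSquare (x3 - 16) := by
        refine fe1_isSquare (4 * w) _ _ (mul_ne_zero (by norm_num) hw) ?_ q3
        rw [c2]; ring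
      obtain ⟨Q, hQ⟩ := fe1_halve x3 y3 h3 hy3 s2 s3
      exact ⟨_, hT0, Q, by rw [hsum, hQ]⟩
    · obtain ⟨Q, hQ⟩ := fe1_case5 x y h hP hy ⟨5 * z, by rw [c1]; ring⟩ ⟨5 * w, by rw [c2]; ring⟩
      exact ⟨_, fe1_T36, Q, hQ⟩
    · have s2 : IsSquare (5 * (x3 + 9)) := by
        refine fe1_isSquare (3 * z) _ (((x + 9) * (0 + 9) * (x3 + 9))) 
          (mul_ne_zero (by norm_num) hz) ?_ q2
        rw [c1]; ring
      have s3 : IsSquare (5 * (x3 - 16)) := by
        refine fe1_isSquare (4 * w) _ (((x - 16) * (0 - 16) * (x3 - 16)))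
          (mul_ne_zero (by norm_num) hw) ?_ q3
        rw [c2]; ring
      have hP3 : (Affine.Point.some x3 y3 h3 + Affine.Point.some x3 y3 h3) +
          (Affine.Point.some x3 y3 h3 + Affine.Point.some x3 y3 h3) ≠ 0 := by
        rw [← hsum, hR]
        exact hP
      obtain ⟨Q, hQ⟩ := fe1_case5 x3 y3 h3 hP3 hy3 s2 s3
      refine ⟨Affine.Point.some 0 0 fe1_h0 + Affine.Point.some 36 180 fe1_h36, ?_, Q, ?_⟩
      · change ((Affine.Point.some 0 0 fe1_h0 + Affine.Point.some 36 180 fe1_h36) +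
          (Affine.Point.some 0 0 fe1_h0 + Affine.Point.some 36 180 fe1_h36)) +
          ((Affine.Point.some 0 0 fe1_h0 + Affine.Point.some 36 180 fe1_h36) +
          (Affine.Point.some 0 0 fe1_h0 + Affine.Point.some 36 180 fe1_h36)) = 0
        have e1 : ((Affine.Point.some 0 0 fe1_h0 + Affine.Point.some 36 180 fe1_h36) +
          (Affine.Point.some 0 0 fe1_h0 + Affine.Point.some 36 180 fe1_h36)) +
          ((Affine.Point.some 0 0 fe1_h0 + Affine.Point.some 36 180 fe1_h36) +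
          (Affine.Point.some 0 0 fe1_h0 + Affine.Point.some 36 180 fe1_h36)) =
          ((Affine.Point.some 0 0 fe1_h0 + Affine.Point.some 0 0 fe1_h0) +
          (Affine.Point.some 0 0 fe1_h0 + Affine.Point.some 0 0 fe1_h0)) +
          ((Affine.Point.some 36 180 fe1_h36 + Affine.Point.some 36 180 fe1_h36) +
          (Affine.Point.some 36 180 fe1_h36 + Affine.Point.some 36 180 fe1_h36)) := by abel
        rw [e1, hT0, fe1_T36, add_zero]
      · rw [← add_assoc, hsum, hQ]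

theorem fe1_finite : {T : (E ℚ (1 : ℚ)).toAffine.Point | (T + T) + (T + T) = 0}.Finite := by
  have h1 : {T : (E ℚ (1 : ℚ)).toAffine.Point | T + T ∈
      {T : (E ℚ (1 : ℚ)).toAffine.Point | T + T = 0}}.Finite :=
    finite_preimage_double (1 : ℚ) one_ne_zero _ (crv_ker_finite (1 : ℚ) one_ne_zero)
  exact h1

/-- F2 -/
theorem finite_E1 : {P : ℚ × ℚ | P.2 ^ 2 = P.1 * (P.1 + 9) * (P.1 - 16)}.Finite := by
  have := E_isElliptic (1 : ℚ) one_ne_zero
  have : Finite (E ℚ (1 : ℚ)).toAffine.Point := by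
    refine finite_of_torsion_add_two (E ℚ (1 : ℚ)) _ fe1_finite ?_ fe1_cover
    intro T hT
    rw [isOfFinAddOrder_iff_nsmul_eq_zero]
    refine ⟨4, by norm_num, ?_⟩
    have hT' : (T + T) + (T + T) = 0 := hT
    have e1 : (4 : ℕ) • T = (T + T) + (T + T) := by
      rw [show (4 : ℕ) = 2 * 2 from rfl, mul_smul, two_nsmul, two_nsmul]
    rw [e1, hT']
  let g : (E ℚ (1 : ℚ)).toAffine.Point → ℚ × ℚ := fun P =>
    match P with
    | .zero => (0, 0)
    | .some x y _ => (x, y)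
  refine Set.Finite.subset (Set.finite_range g) ?_
  rintro ⟨x, y⟩ hxy
  exact ⟨Affine.Point.some x y ((fe1_nonsing x y).2 hxy), rfl⟩

end X15
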