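import Pool.Agent.Lib.MP_87c685_nt_X15.Defs

open NumberField WeierstrassCurve

namespace X15

theorem conj_irr (K : Type*) [Field K] [NumberField K]
    (d : ℤ) (hneg : d < 0) (s : K) (hs : s ^ 2 = (d : K)) (q : ℚ) : s ≠ (q : K) := by
  intro h
  rw [h] at hs
  have h1 : q ^ 2 = (d : ℚ) := by
    have : ((q ^ 2 : ℚ) : K) = ((d : ℚ) : K) := by push_cast; exact hs
    exact_mod_cast this
  have h2 : (d : ℚ) < 0 := by exact_mod_cast hneg
  nlinarith [sq_nonneg q]

theorem conj_uniq (K : Type*) [Field K] [NumberField K]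
    (d : ℤ) (hneg : d < 0) (s : K) (hs : s ^ 2 = (d : K)) {a b a' b' : ℚ}
    (h : (a : K) + (b : K) * s = (a' : K) + (b' : K) * s) : a = a' ∧ b = b' := by
  have hb : b = b' := by
    by_contra hne
    have h3 : ((b - b' : ℚ) : K) ≠ 0 := by
      have : b - b' ≠ 0 := sub_ne_zero.mpr hne
      exact_mod_cast this
    apply conj_irr K d hneg s hs ((a' - a) / (b - b'))
    have h4 : (b - b' : K) * s = (a' - a : K) := by linear_combination h
    have h3' : ((b : K) - (b' : K)) ≠ 0 := by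
      have := h3
      push_cast at this
      exact this
    push_cast
    rw [eq_div_iff h3']
    linear_combination h4
  refine ⟨?_, hb⟩
  rw [hb] at h
  have : (a : K) = (a' : K) := by linear_combination h
  exact_mod_cast this

theorem conj_span (K : Type*) [Field K] [NumberField K] (h2 : Module.finrank ℚ K = 2)
    (d : ℤ) (hneg : d < 0) (s : K) (hs : s ^ 2 = (d : K)) (x : K) :
    ∃ a b : ℚ, x = (a : K) + (b : K) * s := by
  have hli : LinearIndependent ℚ ![(1 : K), s] := by
    rw [LinearIndependent.pair_iff]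
    intro u v huv
    have h0 : (u : K) + (v : K) * s = ((0 : ℚ) : K) + ((0 : ℚ) : K) * s := by
      simp only [Rat.cast_zero, zero_mul, add_zero]
      rw [← huv]
      simp only [Algebra.smul_def, mul_one]
      simp
    exact conj_uniq K d hneg s hs h0
  let bs := basisOfLinearIndependentOfCardEqFinrank hli (by simp [h2])
  have h1 := bs.sum_repr x
  rw [Fin.sum_univ_two] at h1
  refine ⟨bs.repr x 0, bs.repr x 1, ?_⟩
  rw [← h1]
  have e0 : bs 0 = 1 := by simp [bs]
  have e1 : bs 1 = s := by simp [bs]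
  rw [h1] 
  conv_lhs => rw [← h1]
  rw [e0, e1]
  simp only [Algebra.smul_def, mul_one]
  simp

/-- E0: conjugation -/
theorem exists_conj (K : Type*) [Field K] [NumberField K] (h2 : Module.finrank ℚ K = 2)
    (d : ℤ) (hd : Squarefree d) (hneg : d < 0) (s : K) (hs : s ^ 2 = (d : K)) :
    ∃ σ : K ≃ₐ[ℚ] K, σ s = -s ∧ (∀ x, σ (σ x) = x) ∧
      ∀ x, ∃ a b : ℚ, x = (a : K) + (b : K) * s := by
  classical
  choose A B hAB using conj_span K h2 d hneg s hs
  have key : ∀ (x : K) (a b : ℚ), x = (a : K) + (b : K) * s → A x = a ∧ B x = b := by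
    intro x a b h
    apply conj_uniq K d hneg s hs
    rw [← hAB x, h]
  let f : K → K := fun x => (A x : K) - (B x : K) * s
  have hf : ∀ (a b : ℚ), f ((a : K) + (b : K) * s) = (a : K) - (b : K) * s := by
    intro a b
    obtain ⟨h, h'⟩ := key _ a b rfl
    simp only [f, h, h']
  have hrat : ∀ a : ℚ, f (a : K) = (a : K) := by
    intro a
    have := hf a 0
    simpa using this
  have hmul : ∀ x y, f (x * y) = f x * f y := by
    intro x y
    rw [hAB x, hAB y, hf, hf]
    have e : ((A x : K) + (B x : K) * s) * ((A y : K) + (B y : K) * s)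
        = ((A x * A y + B x * B y * d : ℚ) : K) + ((A x * B y + B x * A y : ℚ) : K) * s := by
      push_cast
      linear_combination ((B x : K) * (B y : K)) * hs
    rw [e, hf]
    push_cast
    linear_combination (-(B x : K) * (B y : K)) * hs
  have hadd : ∀ x y, f (x + y) = f x + f y := by
    intro x y
    rw [hAB x, hAB y, hf, hf]
    have e : ((A x : K) + (B x : K) * s) + ((A y : K) + (B y : K) * s)
        = ((A x + A y : ℚ) : K) + ((B x + B y : ℚ) : K) * s := by
      push_cast; ring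
    rw [e, hf]
    push_cast
    ring
  have hinv : ∀ x, f (f x) = x := by
    intro x
    conv_rhs => rw [hAB x]
    have e : f x = ((A x : ℚ) : K) + ((-B x : ℚ) : K) * s := by
      simp only [f]; push_cast; ring
    rw [e, hf]
    push_cast
    ring
  let g : K →ₐ[ℚ] K :=
    { toFun := f
      map_one' := by simpa using hrat 1
      map_mul' := hmul
      map_zero' := by simpa using hrat 0
      map_add' := hadd
      commutes' := by intro r; simpa using hrat r }
  have hg : ∀ x, g x = f x := fun x => rfl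
  refine ⟨AlgEquiv.ofAlgHom g g ?_ ?_, ?_, ?_, conj_span K h2 d hneg s hs⟩
  · ext x
    simp [hg, hinv]
  · ext x
    simp [hg, hinv]
  · change f s = -s
    have := hf 0 1
    simpa using this
  · intro x
    exact hinv x

theorem conj_int_of_sq (d : ℤ) (hd : Squarefree d) (w : ℚ) (n : ℤ)
    (h : (d : ℚ) * w ^ 2 = (n : ℚ)) : ∃ k : ℤ, w = (k : ℚ) := by
  have hden : (w.den : ℚ) ≠ 0 := by exact_mod_cast w.den_nz
  have hw : w = (w.num : ℚ) / (w.den : ℚ) := (Rat.num_div_den w).symm
  have h1 : d * w.num ^ 2 = n * (w.den : ℤ) ^ 2 := by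
    rw [hw] at h
    have : (d : ℚ) * (w.num : ℚ) ^ 2 = (n : ℚ) * (w.den : ℚ) ^ 2 := by
      field_simp at h
      linarith
    exact_mod_cast this
  have h2 : ((w.den : ℤ) ^ 2) ∣ d * w.num ^ 2 := ⟨n, by rw [h1]; ring⟩
  have hcop : IsCoprime ((w.den : ℤ) ^ 2) (w.num ^ 2) := by
    apply IsCoprime.pow
    rw [Int.isCoprime_iff_gcd_eq_one]
    have := w.reduced
    rw [Int.gcd_comm]
    simpa [Int.gcd, Nat.Coprime] using this
  have h3 : ((w.den : ℤ) ^ 2) ∣ d := hcop.dvd_of_dvd_mul_right h2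
  have h4 : IsUnit (w.den : ℤ) := hd _ (by rw [← pow_two]; exact h3)
  have h5 : w.den = 1 := by
    have := Int.isUnit_iff.mp h4
    omega
  refine ⟨w.num, ?_⟩
  conv_lhs => rw [hw]
  rw [h5]; simp

theorem conj_norm (K : Type*) [Field K] [NumberField K] (h2 : Module.finrank ℚ K = 2)
    (d : ℤ) (hneg : d < 0) (s : K) (hs : s ^ 2 = (d : K)) (σ : K ≃ₐ[ℚ] K) (h1 : σ s = -s)
    (a b : ℚ) :
    Algebra.norm ℚ ((a : K) + (b : K) * s) = a ^ 2 - d * b ^ 2 := by
  classical
  haveI : Algebra.IsQuadraticExtension ℚ K := ⟨h2⟩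
  have hs0 : s ≠ 0 := by
    have := conj_irr K d hneg s hs 0
    simpa using this
  have hne : (1 : K ≃ₐ[ℚ] K) ≠ σ := by
    intro h
    rw [← h] at h1
    simp only [AlgEquiv.one_apply] at h1
    have : (2 : K) * s = 0 := by linear_combination h1
    rcases mul_eq_zero.mp this with h | h
    · norm_num at h
    · exact hs0 h
  have hcard : Fintype.card (K ≃ₐ[ℚ] K) = 2 := by
    have := IsGalois.card_aut_eq_finrank ℚ K
    rw [h2] at this
    rw [← this, Nat.card_eq_fintype_card]
  have huniv : (Finset.univ : Finset (K ≃ₐ[ℚ] K)) = {1, σ} := by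
    symm
    apply Finset.eq_of_subset_of_card_le (Finset.subset_univ _)
    rw [Finset.card_univ, hcard, Finset.card_pair hne]
  have h3 := Algebra.norm_eq_prod_automorphisms ℚ ((a : K) + (b : K) * s)
  rw [huniv, Finset.prod_pair hne] at h3
  simp only [AlgEquiv.one_apply, map_add, map_mul, map_ratCast, h1] at h3
  have h4 : ((Algebra.norm ℚ ((a : K) + (b : K) * s) : ℚ) : K) = ((a ^ 2 - d * b ^ 2 : ℚ) : K) := by
    rw [eq_ratCast] at h3
    rw [h3]
    push_cast
    linear_combination (-(b : K) ^ 2) * hs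
  exact_mod_cast h4

/-- E0' -/
theorem norm_form (K : Type*) [Field K] [NumberField K] (h2 : Module.finrank ℚ K = 2)
    (d : ℤ) (hd : Squarefree d) (hneg : d < 0) (s : K) (hs : s ^ 2 = (d : K))
    (γ : 𝓞 K) : ∃ a w : ℤ, 2 * (γ : K) = (a : K) + (w : K) * s ∧
    a ^ 2 - d * w ^ 2 = 4 * (Ideal.absNorm (Ideal.span {γ}) : ℤ) ∧
    (d % 4 ≠ 1 → (2 : ℤ) ∣ a ∧ (2 : ℤ) ∣ w) := by
  obtain ⟨σ, h1, hinv, hsp⟩ := exists_conj K h2 d hd hneg s hs
  obtain ⟨a', b', hab⟩ := hsp (γ : K)
  have hint : IsIntegral ℤ (γ : K) := γ.2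
  have hσ : σ (γ : K) = (a' : K) - (b' : K) * s := by
    rw [hab]
    simp only [map_add, map_mul, map_ratCast, h1]
    ring
  have hint2 : IsIntegral ℤ (σ (γ : K)) := hint.map σ.toAlgHom.toRingHom.toIntAlgHom
  -- trace
  have htr : IsIntegral ℤ ((2 * a' : ℚ) : K) := by
    have e : ((2 * a' : ℚ) : K) = (γ : K) + σ (γ : K) := by
      rw [hσ, hab]
      push_cast
      ring
    rw [e]
    exact hint.add hint2
  obtain ⟨a, ha⟩ := (IsIntegral.exists_int_iff_exists_rat htr).mp ⟨_, rfl⟩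
  have ha' : 2 * a' = (a : ℚ) := by exact_mod_cast ha
  -- norm
  set n : ℤ := Algebra.norm ℤ γ with hn
  have hnorm : (n : ℚ) = a' ^ 2 - d * b' ^ 2 := by
    rw [hn, Algebra.coe_norm_int, hab]
    exact conj_norm K h2 d hneg s hs σ h1 a' b'
  have hn0 : 0 ≤ n := by
    have h5 : (d : ℚ) < 0 := by exact_mod_cast hneg
    have : (0 : ℚ) ≤ (n : ℚ) := by
      rw [hnorm]
      nlinarith [sq_nonneg a', mul_nonneg (neg_nonneg.mpr h5.le) (sq_nonneg b')]
    exact_mod_cast this
  have habs : ((Ideal.absNorm (Ideal.span {γ}) : ℕ) : ℤ) = n := by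
    rw [Ideal.absNorm_span_singleton, ← hn]
    exact Int.natAbs_of_nonneg hn0
  obtain ⟨w, hw⟩ := conj_int_of_sq d hd (2 * b') (a ^ 2 - 4 * n) (by
    push_cast
    rw [← ha']
    linear_combination 4 * hnorm)
  have heq : a ^ 2 - d * w ^ 2 = 4 * n := by
    have : (a : ℚ) ^ 2 - d * (w : ℚ) ^ 2 = 4 * n := by
      rw [← ha', ← hw, hnorm]; ring
    exact_mod_cast this
  refine ⟨a, w, ?_, ?_, ?_⟩
  · rw [hab]
    have e1 : ((2 * a' : ℚ) : K) = ((a : ℚ) : K) := by rw [ha']
    have e2 : ((2 * b' : ℚ) : K) = ((w : ℚ) : K) := by rw [hw]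
    push_cast at e1 e2
    rw [← e1, ← e2]
    ring
  · rw [habs, heq]
  · intro hd4
    have hd0 : d % 4 ≠ 0 := by
      intro h
      have h6 : (2 : ℤ) * 2 ∣ d := by omega
      have := hd 2 h6
      rw [Int.isUnit_iff] at this
      omega
    have hmod : (a ^ 2 - d * w ^ 2) % 4 = 0 := by rw [heq]; omega
    have hdm : d % 4 = 2 ∨ d % 4 = 3 := by omega
    have hae : a % 4 = 0 ∨ a % 4 = 1 ∨ a % 4 = 2 ∨ a % 4 = 3 := by omega
    have hwe : w % 4 = 0 ∨ w % 4 = 1 ∨ w % 4 = 2 ∨ w % 4 = 3 := by omega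
    rw [Int.sub_emod, Int.mul_emod, pow_two, pow_two, Int.mul_emod a a, Int.mul_emod w w] at hmod
    rcases hdm with h | h <;> rcases hae with h' | h' | h' | h' <;>
      rcases hwe with h'' | h'' | h'' | h'' <;> rw [h, h', h''] at hmod <;>
      first
        | (exfalso; revert hmod; decide)
        | (constructor <;> omega)

end X15
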