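import Pool.Agent.Lib.MP_87c685_nt_X15.Conj

open NumberField WeierstrassCurve

namespace X15

theorem ram_dvd_nat (m n : ℕ) (hm : Squarefree m) (h : ∀ p : ℕ, p.Prime → p ∣ m → p ∣ n) :
    m ∣ n := by
  rw [← Nat.prod_primeFactors_of_squarefree hm]
  apply Finset.prod_primes_dvd
  · intro a ha
    exact (Nat.prime_of_mem_primeFactors ha).prime
  · intro a ha
    exact h a (Nat.prime_of_mem_primeFactors ha) (Nat.dvd_of_mem_primeFactors ha)

theorem ram_dvd (m d : ℤ) (hm : Squarefree m)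
    (h : ∀ q : ℕ, q.Prime → (q : ℤ) ∣ m → (q : ℤ) ∣ d) : m ∣ d := by
  rw [← Int.natAbs_dvd_natAbs]
  apply ram_dvd_nat
  · rwa [Int.squarefree_natAbs]
  · intro p hp hpm
    have := h p hp (Int.natCast_dvd.mpr hpm)
    exact Int.natCast_dvd.mp this

/-- the basic square -/
theorem ram_sq {R : Type*} [CommRing R] (m d S : R) (hS : S ^ 2 = d) (k u v : R)
    (hk : d = m * k) (huv : u * m + v * k = 1) :
    (Ideal.span {m, S}) ^ 2 = Ideal.span {m} := by
  rw [pow_two, Ideal.span_pair_mul_span_pair]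
  apply le_antisymm
  · rw [Ideal.span_le]
    intro x hx
    simp only [Set.mem_insert_iff, Set.mem_singleton_iff] at hx
    rw [SetLike.mem_coe, Ideal.mem_span_singleton]
    rcases hx with rfl | rfl | rfl | rfl
    · exact dvd_mul_right _ _
    · exact dvd_mul_right _ _
    · exact dvd_mul_left _ _
    · exact ⟨k, by rw [← pow_two, hS, hk]⟩
  · rw [Ideal.span_le]
    intro x hx
    rw [Set.mem_singleton_iff] at hx
    subst hx
    have e : x = u * (x * x) + v * (S * S) := by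
      have h1 : S * S = x * k := by rw [← pow_two, hS, hk]
      rw [h1]
      linear_combination (-x) * huv
    have g1 : x * x ∈ Ideal.span {x * x, x * S, S * x, S * S} := Ideal.subset_span (by simp)
    have g2 : S * S ∈ Ideal.span {x * x, x * S, S * x, S * S} := Ideal.subset_span (by simp)
    have g3 := Ideal.add_mem _ (Ideal.mul_mem_left _ u g1) (Ideal.mul_mem_left _ v g2)
    rw [← e] at g3
    exact g3

/-- the ideal above 2 when `d % 4 = 3` -/
theorem ram_two {R : Type*} [CommRing R] (S r : R) (hS : S ^ 2 = 4 * r - 1) :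
    (Ideal.span {2, 1 + S}) ^ 2 = Ideal.span {(2 : R)} := by
  rw [pow_two, Ideal.span_pair_mul_span_pair]
  apply le_antisymm
  · rw [Ideal.span_le]
    intro x hx
    simp only [Set.mem_insert_iff, Set.mem_singleton_iff] at hx
    rw [SetLike.mem_coe, Ideal.mem_span_singleton]
    rcases hx with rfl | rfl | rfl | rfl
    · exact dvd_mul_right _ _
    · exact dvd_mul_right _ _
    · exact dvd_mul_left _ _
    · exact ⟨S + 2 * r, by linear_combination hS⟩
  · rw [Ideal.span_le]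
    intro x hx
    rw [Set.mem_singleton_iff] at hx
    subst hx
    have e : (2 : R) = 1 * (2 * (1 + S)) - 1 * ((1 + S) * (1 + S)) + r * (2 * 2) := by
      linear_combination hS
    have g1 : 2 * (1 + S) ∈ Ideal.span {2 * 2, 2 * (1 + S), (1 + S) * 2, (1 + S) * (1 + S)} :=
      Ideal.subset_span (by simp)
    have g2 : (1 + S) * (1 + S) ∈
        Ideal.span {2 * 2, 2 * (1 + S), (1 + S) * 2, (1 + S) * (1 + S)} :=
      Ideal.subset_span (by simp)
    have g4 : (2 * 2 : R) ∈ Ideal.span {2 * 2, 2 * (1 + S), (1 + S) * 2, (1 + S) * (1 + S)} :=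
      Ideal.subset_span (by simp)
    have g3 := Ideal.add_mem _ (Ideal.sub_mem _ (Ideal.mul_mem_left _ 1 g1)
      (Ideal.mul_mem_left _ 1 g2)) (Ideal.mul_mem_left _ r g4)
    rw [← e] at g3
    exact g3

theorem ram_norm (K : Type*) [Field K] [NumberField K] (h2 : Module.finrank ℚ K = 2)
    (m : ℤ) (M : Ideal (𝓞 K)) (hM : M ^ 2 = Ideal.span {(m : 𝓞 K)}) :
    Ideal.absNorm M = m.natAbs := by
  have h1 : (Ideal.absNorm M) ^ 2 = (m.natAbs) ^ 2 := by
    rw [← map_pow, hM, Ideal.absNorm_span_singleton]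
    have h3 : (Algebra.norm ℤ (m : 𝓞 K) : ℤ) = m ^ 2 := by
      have h4 : ((Algebra.norm ℤ (m : 𝓞 K) : ℤ) : ℚ) = ((m ^ 2 : ℤ) : ℚ) := by
        rw [Algebra.coe_norm_int]
        have h5 : ((m : 𝓞 K) : K) = algebraMap ℚ K (m : ℚ) := by
          simp
        rw [h5, Algebra.norm_algebraMap, h2]
        push_cast
        rfl
      exact_mod_cast h4
    rw [h3, Int.natAbs_pow]
  exact Nat.pow_left_injective (le_refl 2 |> fun _ => (by norm_num : (2:ℕ) ≠ 0)) h1

theorem ram_case (K : Type*) [Field K] [NumberField K]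
    (d : ℤ) (hd : Squarefree d) (S : 𝓞 K) (hS : S ^ 2 = (d : 𝓞 K))
    (m : ℤ) (hmd : m ∣ d) :
    (Ideal.span {(m : 𝓞 K), S}) ^ 2 = Ideal.span {(m : 𝓞 K)} := by
  obtain ⟨k, hk⟩ := hmd
  have hcop : IsCoprime m k := by
    rw [hk] at hd
    exact ((squarefree_mul_iff).mp hd).1.isCoprime
  obtain ⟨u, v, huv⟩ := hcop
  apply ram_sq (m : 𝓞 K) (d : 𝓞 K) S hS (k : 𝓞 K) (u : 𝓞 K) (v : 𝓞 K)
  · rw [hk]; push_cast; rfl
  · have : ((u * m + v * k : ℤ) : 𝓞 K) = ((1 : ℤ) : 𝓞 K) := by rw [huv]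
    push_cast at this
    exact this

/-- E4 -/
theorem exists_ram_ideal (K : Type*) [Field K] [NumberField K] (h2 : Module.finrank ℚ K = 2)
    (d : ℤ) (hd : Squarefree d) (hneg : d < 0) (s : K) (hs : s ^ 2 = (d : K))
    (m : ℤ) (hm : CondM d m) :
    ∃ M : Ideal (𝓞 K), M ^ 2 = Ideal.span {(m : 𝓞 K)} ∧ Ideal.absNorm M = m.natAbs := by
  have hint : IsIntegral ℤ s := by
    apply IsIntegral.of_pow (n := 2) (by norm_num)
    rw [hs]
    exact isIntegral_algebraMap (R := ℤ) (A := K) (x := d)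
  let S : 𝓞 K := ⟨s, hint⟩
  have hS : S ^ 2 = (d : 𝓞 K) := by
    apply RingOfIntegers.ext
    simp only [map_pow, map_intCast]
    exact hs
  suffices h : ∃ M : Ideal (𝓞 K), M ^ 2 = Ideal.span {(m : 𝓞 K)} by
    obtain ⟨M, hM⟩ := h
    exact ⟨M, hM, ram_norm K h2 m M hM⟩
  by_cases hcase : (2 : ℤ) ∣ m ∧ ¬ (2 : ℤ) ∣ d
  · obtain ⟨⟨m', hm'⟩, hd2⟩ := hcase
    have hd4 := hm.two ⟨m', hm'⟩
    have hd3 : d % 4 = 3 := by omega
    have hodd : ¬ (2 : ℤ) ∣ m' := by
      rintro ⟨t, ht⟩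
      have h4 : (2 : ℤ) * 2 ∣ m := ⟨t, by rw [hm', ht]; ring⟩
      have := hm.sqf 2 h4
      rw [Int.isUnit_iff] at this
      omega
    have hsq' : Squarefree m' := hm.sqf.squarefree_of_dvd ⟨2, by rw [hm']; ring⟩
    have hm'd : m' ∣ d := by
      apply ram_dvd m' d hsq'
      intro q hq hqm
      by_cases hq2 : q = 2
      · subst hq2
        exact absurd (by exact_mod_cast hqm) hodd
      · exact hm.dvd q hq hq2 (hqm.trans ⟨2, by rw [hm']; ring⟩)
    obtain ⟨r, hr⟩ : (4 : ℤ) ∣ d + 1 := by omega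
    refine ⟨Ideal.span {2, 1 + S} * Ideal.span {(m' : 𝓞 K), S}, ?_⟩
    rw [mul_pow, ram_case K d hd S hS m' hm'd, ram_two S (r : 𝓞 K), Ideal.span_singleton_mul_span_singleton]
    · rw [hm']
      push_cast
      rfl
    · rw [hS]
      have : d = 4 * r - 1 := by omega
      rw [this]
      push_cast
      rfl
  · have hmd : m ∣ d := by
      apply ram_dvd m d hm.sqf
      intro q hq hqm
      by_cases hq2 : q = 2
      · subst hq2
        by_contra hcon
        exact hcase ⟨by exact_mod_cast hqm, by exact_mod_cast hcon⟩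
      · exact hm.dvd q hq hq2 hqm
    exact ⟨_, ram_case K d hd S hS m hmd⟩

end X15
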