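import Pool.Agent.Lib.MP_87c685_nt_X15.IdConj

open NumberField WeierstrassCurve

namespace X15

/-- squares of ideals determine the ideal -/
theorem sqid_sq_inj {R : Type*} [CommRing R] [IsDedekindDomain R] {A B : Ideal R}
    (h : A ^ 2 = B ^ 2) : A = B := by
  have h1 : A ∣ B := (UniqueFactorizationMonoid.pow_dvd_pow_iff_dvd two_ne_zero).1 (dvd_of_eq h)
  have h2 : B ∣ A := (UniqueFactorizationMonoid.pow_dvd_pow_iff_dvd two_ne_zero).1 (dvd_of_eq h.symm)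
  exact le_antisymm (Ideal.le_of_dvd h2) (Ideal.le_of_dvd h1)

/-- E3 -/
theorem exists_sq_of_absNorm (K : Type*) [Field K] [NumberField K] (h2 : Module.finrank ℚ K = 2)
    (d : ℤ) (hd : Squarefree d) (hneg : d < 0) (s : K) (hs : s ^ 2 = (d : K))
    (I : Ideal (𝓞 K)) (hI : I ≠ ⊥) (z : ℕ) (hz : Ideal.absNorm I = z ^ 2) :
    ∃ J : Ideal (𝓞 K), J ≠ ⊥ ∧ ∃ x y : 𝓞 K, x ≠ 0 ∧ y ≠ 0 ∧
      Ideal.span {x} * I = Ideal.span {y} * J ^ 2 := by
  obtain ⟨σ, hσ, -, hab⟩ := exists_conj K h2 d hd hneg s hs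
  set f : 𝓞 K ≃+* 𝓞 K := RingOfIntegers.mapRingEquiv σ.toRingEquiv with hf
  have hfc : ∀ x : 𝓞 K, (f x : K) = σ (x : K) := fun x => rfl
  have hσσ : ∀ x : K, σ (σ x) = x := by
    intro x
    obtain ⟨a, b, h⟩ := hab x
    rw [h, map_add, map_mul, hσ, map_add, map_mul, map_ratCast, map_ratCast, map_neg, hσ,
      map_ratCast, map_ratCast, neg_neg]
  have hff : ∀ x : 𝓞 K, f (f x) = x := by
    intro x
    apply RingOfIntegers.ext
    rw [hfc, hfc, hσσ]
  have hconj : ∀ A : Ideal (𝓞 K), A * A.map (f : 𝓞 K →+* 𝓞 K) =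
      Ideal.span {((Ideal.absNorm A : ℕ) : 𝓞 K)} := fun A =>
    ideal_mul_conj K h2 d hd hneg s hs σ hσ A
  set I' : Ideal (𝓞 K) := I.map (f : 𝓞 K →+* 𝓞 K) with hI'
  have hmm : I'.map (f : 𝓞 K →+* 𝓞 K) = I := by
    rw [hI', Ideal.map_map]
    have h3 : (f : 𝓞 K →+* 𝓞 K).comp (f : 𝓞 K →+* 𝓞 K) = RingHom.id _ := by
      ext x
      exact congrArg _ (hff x)
    rw [h3, Ideal.map_id]
  set Z : Ideal (𝓞 K) := Ideal.span {((z : ℕ) : 𝓞 K)} with hZ
  have hZm : Z.map (f : 𝓞 K →+* 𝓞 K) = Z := by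
    rw [hZ, Ideal.map_span, Set.image_singleton]
    simp
  have hII : I * I' = Z * Z := by
    rw [hI', hconj, hz, hZ, Ideal.span_singleton_mul_span_singleton]
    push_cast
    rw [sq]
  have hN0 : Ideal.absNorm I ≠ 0 := by
    rw [Ne, Ideal.absNorm_eq_zero_iff]
    exact hI
  have hz0 : z ≠ 0 := by
    rintro rfl
    exact hN0 (by rw [hz]; norm_num)
  set J : Ideal (𝓞 K) := I ⊔ Z with hJ
  set e : Ideal (𝓞 K) := I ⊔ Z ⊔ I' with he
  have hem : e.map (f : 𝓞 K →+* 𝓞 K) = e := by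
    rw [he, Ideal.map_sup, Ideal.map_sup, hmm, hZm, ← hI']
    rw [sup_comm (I' ⊔ Z) I, sup_comm I' Z, ← sup_assoc]
  have hJ2 : J ^ 2 = I * e := by
    rw [sq, hJ, he, Ideal.mul_sup, Ideal.mul_sup, Ideal.mul_sup, Ideal.sup_mul, Ideal.sup_mul,
      hII, mul_comm Z I]
    apply le_antisymm
    · simp only [sup_le_iff]
      refine ⟨⟨?_, ?_⟩, ?_, ?_⟩
      · exact le_sup_of_le_left le_sup_left
      · exact le_sup_of_le_left le_sup_right
      · exact le_sup_of_le_left le_sup_right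
      · exact le_sup_right
    · simp only [sup_le_iff]
      refine ⟨⟨?_, ?_⟩, ?_⟩
      · exact le_sup_of_le_left le_sup_left
      · exact le_sup_of_le_left le_sup_right
      · exact le_sup_of_le_right le_sup_right
  have hnJ : Ideal.absNorm J ^ 2 = z ^ 2 * Ideal.absNorm e := by
    rw [← map_pow, hJ2, map_mul, hz]
  have hzd : z ∣ Ideal.absNorm J := by
    rw [← Nat.pow_dvd_pow_iff two_ne_zero]
    exact ⟨_, hnJ⟩
  obtain ⟨e0, he0⟩ := hzd
  have hee : Ideal.absNorm e = e0 ^ 2 := by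
    have h3 : z ^ 2 * Ideal.absNorm e = z ^ 2 * e0 ^ 2 := by
      rw [← hnJ, he0, mul_pow]
    exact Nat.eq_of_mul_eq_mul_left (by positivity) h3
  have he2 : e = Ideal.span {((e0 : ℕ) : 𝓞 K)} := by
    apply sqid_sq_inj
    have h3 := hconj e
    rw [hem, hee] at h3
    rw [sq, h3, Ideal.span_singleton_pow]
    push_cast
    rfl
  have he00 : e ≠ ⊥ := by
    intro h3
    apply hI
    rw [eq_bot_iff, ← h3, he]
    exact le_sup_of_le_left le_sup_left
  have hJ0 : J ≠ ⊥ := by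
    intro h3
    apply hI
    rw [eq_bot_iff, ← h3, hJ]
    exact le_sup_left
  refine ⟨J, hJ0, ((e0 : ℕ) : 𝓞 K), 1, ?_, one_ne_zero, ?_⟩
  · intro h3
    apply he00
    rw [he2, h3]
    simp
  · rw [hJ2, ← he2, Ideal.span_singleton_one, Ideal.one_eq_top.symm, one_mul, mul_comm]

end X15
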