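import Pool.Agent.Lib.MP_87c685_nt_X15.Defs

open NumberField WeierstrassCurve

namespace X15

private theorem as_eval {F : Type*} [Field F] (W : WeierstrassCurve F) (s t u : F) :
    (fun i => MvPolynomial.eval ![s, t, u] (W.addSubMap i)) =
      ![s ^ 2 - W.b₄ * s * u - W.b₆ * t * u - W.b₈ * u ^ 2,
        2 * t * s + W.b₂ * s * u + W.b₄ * t * u + W.b₆ * u ^ 2, t ^ 2 - 4 * s * u] := by
  funext i
  fin_cases i <;> simp [WeierstrassCurve.addSubMap]

private theorem as_double {F : Type*} [Field F] [DecidableEq F] (W : WeierstrassCurve F) {x y : F}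
    (h : W.toAffine.Nonsingular x y) :
    ∃ c : F, c ≠ 0 ∧ (fun i => MvPolynomial.eval ![x * x, x + x, 1] (W.addSubMap i)) =
      c • (Affine.Point.some x y h + Affine.Point.some x y h).sym2x 0 := by
  have he : y ^ 2 + W.a₁ * x * y + W.a₃ * y = x ^ 3 + W.a₂ * x ^ 2 + W.a₄ * x + W.a₆ :=
    (W.toAffine.equation_iff x y).1 h.1
  have hn := ((W.toAffine.nonsingular_iff x y).1 h).2
  rw [as_eval]
  by_cases hy : y = W.toAffine.negY x y
  · rw [Affine.Point.add_self_of_Y_eq hy, Affine.Point.sym2x_zero_zero]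
    have hy' : 2 * y + W.a₁ * x + W.a₃ = 0 := by
      have h1 : y = -y - W.a₁ * x - W.a₃ := hy
      linear_combination h1
    have hx' : W.a₁ * y - (3 * x ^ 2 + 2 * W.a₂ * x + W.a₄) ≠ 0 := by
      rcases hn with h1 | h1
      · exact sub_ne_zero.2 h1
      · exact absurd hy h1
    refine ⟨(W.a₁ * y - (3 * x ^ 2 + 2 * W.a₂ * x + W.a₄)) ^ 2, pow_ne_zero 2 hx', ?_⟩
    funext i
    fin_cases i
    · simp [WeierstrassCurve.b₂, WeierstrassCurve.b₄, WeierstrassCurve.b₆, WeierstrassCurve.b₈]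
      linear_combination (8 * x + W.a₁ ^ 2 + 4 * W.a₂) * he +
        (-W.a₁ * (W.a₁ * y - (3 * x ^ 2 + 2 * W.a₂ * x + W.a₄)) -
          (W.a₂ + 2 * x) * (2 * y + W.a₁ * x + W.a₃)) * hy'
    · simp [WeierstrassCurve.b₂, WeierstrassCurve.b₄, WeierstrassCurve.b₆, WeierstrassCurve.b₈]
      linear_combination (-4) * he + (2 * y + W.a₁ * x + W.a₃) * hy'
    · simp
      ring
  · rw [Affine.Point.add_self_of_Y_ne hy, Affine.Point.sym2x_some_zero]
    have hy' : y - W.toAffine.negY x y ≠ 0 := sub_ne_zero.2 hy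
    have hy2 : y - W.toAffine.negY x y = 2 * y + W.a₁ * x + W.a₃ := by
      rw [Affine.negY]
      ring
    have hw : 2 * y + W.a₁ * x + W.a₃ ≠ 0 := by rwa [hy2] at hy'
    obtain ⟨l, hl⟩ : ∃ l, l = W.toAffine.slope x x y y := ⟨_, rfl⟩
    have hl2 : l * (2 * y + W.a₁ * x + W.a₃) = 3 * x ^ 2 + 2 * W.a₂ * x + W.a₄ - W.a₁ * y := by
      rw [hl, Affine.slope_of_Y_ne rfl hy, hy2, div_mul_cancel₀ _ hw]
    refine ⟨(2 * y + W.a₁ * x + W.a₃) ^ 2, pow_ne_zero 2 hw, ?_⟩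
    rw [← hl, Affine.addX]
    funext i
    fin_cases i
    · simp [WeierstrassCurve.b₂, WeierstrassCurve.b₄, WeierstrassCurve.b₆, WeierstrassCurve.b₈]
      linear_combination (8 * x + W.a₁ ^ 2 + 4 * W.a₂) * he -
        (l * (2 * y + W.a₁ * x + W.a₃) + (3 * x ^ 2 + 2 * W.a₂ * x + W.a₄ - W.a₁ * y) +
          W.a₁ * (2 * y + W.a₁ * x + W.a₃)) * hl2
    · simp [WeierstrassCurve.b₂, WeierstrassCurve.b₄, WeierstrassCurve.b₆, WeierstrassCurve.b₈]
      linear_combination (-4) * he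
    · simp
      ring

private theorem as_add {F : Type*} [Field F] [DecidableEq F] (W : WeierstrassCurve F)
    {x₁ y₁ x₂ y₂ : F} (h₁ : W.toAffine.Nonsingular x₁ y₁) (h₂ : W.toAffine.Nonsingular x₂ y₂)
    (hx : x₁ ≠ x₂) :
    ∃ c : F, c ≠ 0 ∧ (fun i => MvPolynomial.eval ![x₁ * x₂, x₁ + x₂, 1] (W.addSubMap i)) =
      c • (Affine.Point.some x₁ y₁ h₁ + Affine.Point.some x₂ y₂ h₂).sym2x
        (Affine.Point.some x₁ y₁ h₁ - Affine.Point.some x₂ y₂ h₂) := by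
  have he1 : y₁ ^ 2 + W.a₁ * x₁ * y₁ + W.a₃ * y₁ = x₁ ^ 3 + W.a₂ * x₁ ^ 2 + W.a₄ * x₁ + W.a₆ :=
    (W.toAffine.equation_iff x₁ y₁).1 h₁.1
  have he2 : y₂ ^ 2 + W.a₁ * x₂ * y₂ + W.a₃ * y₂ = x₂ ^ 3 + W.a₂ * x₂ ^ 2 + W.a₄ * x₂ + W.a₆ :=
    (W.toAffine.equation_iff x₂ y₂).1 h₂.1
  have hd : x₁ - x₂ ≠ 0 := sub_ne_zero.2 hx
  have ha6 : W.a₆ = y₁ ^ 2 + W.a₁ * x₁ * y₁ + W.a₃ * y₁ - x₁ ^ 3 - W.a₂ * x₁ ^ 2 - W.a₄ * x₁ := by
    linear_combination -he1
  have ha4 : W.a₄ = ((y₁ ^ 2 + W.a₁ * x₁ * y₁ + W.a₃ * y₁) - (y₂ ^ 2 + W.a₁ * x₂ * y₂ + W.a₃ * y₂)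
      - (x₁ ^ 3 - x₂ ^ 3) - W.a₂ * (x₁ ^ 2 - x₂ ^ 2)) / (x₁ - x₂) := by
    rw [eq_div_iff hd]
    linear_combination he2 - he1
  rw [as_eval, sub_eq_add_neg (Affine.Point.some x₁ y₁ h₁) (Affine.Point.some x₂ y₂ h₂),
    Affine.Point.neg_some, Affine.Point.add_of_X_ne hx,
    Affine.Point.add_of_X_ne hx, Affine.Point.sym2x_some_some]
  refine ⟨(x₁ - x₂) ^ 2, pow_ne_zero 2 hd, ?_⟩
  rw [Affine.slope_of_X_ne hx, Affine.slope_of_X_ne hx, Affine.addX, Affine.addX, Affine.negY]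
  funext i
  fin_cases i
  · simp [WeierstrassCurve.b₂, WeierstrassCurve.b₄, WeierstrassCurve.b₆, WeierstrassCurve.b₈]
    rw [ha6, ha4]
    field_simp
    ring
  · simp [WeierstrassCurve.b₂, WeierstrassCurve.b₄, WeierstrassCurve.b₆, WeierstrassCurve.b₈]
    rw [ha6, ha4]
    field_simp
    ring
  · simp
    ring

/-- A1: Mathlib's `addSubMap` does what its TODO says. -/
theorem addSub_rel {F : Type*} [Field F] [DecidableEq F] (W : WeierstrassCurve F)
    (P Q : W.toAffine.Point) :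
    ∃ c : F, c ≠ 0 ∧ (fun i => MvPolynomial.eval (P.sym2x Q) (W.addSubMap i)) =
      c • (P + Q).sym2x (P - Q) := by
  rcases P with _ | ⟨x₁, y₁, h₁⟩
  · rcases Q with _ | ⟨x₂, y₂, h₂⟩
    · refine ⟨1, one_ne_zero, ?_⟩
      rw [← Affine.Point.zero_def, Affine.Point.sym2x_zero_zero, as_eval, add_zero, sub_zero,
        Affine.Point.sym2x_zero_zero]
      funext i
      fin_cases i <;> simp
    · refine ⟨1, one_ne_zero, ?_⟩
      rw [← Affine.Point.zero_def, Affine.Point.sym2x_zero_some, as_eval, zero_add, zero_sub,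
        Affine.Point.sym2x_neg_right, Affine.Point.sym2x_some_some]
      funext i
      fin_cases i <;> simp <;> ring
  · rcases Q with _ | ⟨x₂, y₂, h₂⟩
    · refine ⟨1, one_ne_zero, ?_⟩
      rw [← Affine.Point.zero_def, Affine.Point.sym2x_some_zero, as_eval, add_zero, sub_zero,
        Affine.Point.sym2x_some_some]
      funext i
      fin_cases i <;> simp <;> ring
    · rw [Affine.Point.sym2x_some_some]
      by_cases hx : x₁ = x₂
      · subst hx
        rcases Affine.Y_eq_of_X_eq h₁.1 h₂.1 rfl with hy | hy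
        · subst hy
          rw [sub_self]
          exact as_double W h₁
        · have hQ : Affine.Point.some x₁ y₂ h₂ = -Affine.Point.some x₁ y₁ h₁ := by
            rw [Affine.Point.neg_some]
            congr 1
            rw [hy, Affine.negY_negY]
          rw [hQ, add_neg_cancel, sub_neg_eq_add, Affine.Point.sym2x_comm]
          exact as_double W h₁
      · exact as_add W h₁ h₂ hx

end X15
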