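import Pool.Agent.Lib.MP_87c685_nt_X15.SqId

open NumberField WeierstrassCurve

namespace X15

/-- an ideal whose square is generated by a squarefree integer divisible by an odd prime `q`:
`q` divides `d` -/
theorem amb_odd (K : Type*) [Field K] [NumberField K] (h2 : Module.finrank ℚ K = 2)
    (d : ℤ) (hd : Squarefree d) (hneg : d < 0) (s : K) (hs : s ^ 2 = (d : K))
    (m : ℤ) (hm : Squarefree m) (M : Ideal (𝓞 K)) (hM : M ^ 2 = Ideal.span {(m : 𝓞 K)})
    (q : ℕ) (hq : q.Prime) (hq2 : q ≠ 2) (hqm : (q : ℤ) ∣ m) : (q : ℤ) ∣ d := by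
  by_contra hqd
  have hqp : Prime (q : ℤ) := Nat.prime_iff_prime_int.mp hq
  have hle : M ≤ Ideal.span {((q : ℤ) : 𝓞 K)} := by
    intro x hx
    have hx2 : x ^ 2 ∈ M ^ 2 := Ideal.pow_mem_pow hx 2
    rw [hM, Ideal.mem_span_singleton] at hx2
    obtain ⟨c, hc⟩ := hqm
    obtain ⟨v0, hv0⟩ := hx2
    obtain ⟨v, hv⟩ : ∃ v : 𝓞 K, x ^ 2 = ((q : ℤ) : 𝓞 K) * v := by
      refine ⟨(c : 𝓞 K) * v0, ?_⟩
      rw [hv0, hc]
      push_cast
      ring
    obtain ⟨a, w, h3, -, -⟩ := norm_form K h2 d hd hneg s hs x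
    obtain ⟨a', w', h4, -, -⟩ := norm_form K h2 d hd hneg s hs v
    have hvK : (x : K) ^ 2 = (q : K) * (v : K) := by
      have := congrArg (fun z : 𝓞 K => (z : K)) hv
      simpa using this
    have h5 : ((a ^ 2 + d * w ^ 2 : ℚ) : K) + ((2 * a * w : ℚ) : K) * s =
        ((2 * q * a' : ℚ) : K) + ((2 * q * w' : ℚ) : K) * s := by
      push_cast
      have h6 : ((a : K) + (w : K) * s) ^ 2 = 2 * (q : K) * ((a' : K) + (w' : K) * s) := by
        rw [← h3, ← h4]
        linear_combination 4 * hvK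
      linear_combination h6 - (w : K) ^ 2 * hs
    obtain ⟨h6, h7⟩ := conj_uniq K d hneg s hs h5
    have h6' : a ^ 2 + d * w ^ 2 = 2 * q * a' := by exact_mod_cast h6
    have h7' : 2 * a * w = 2 * q * w' := by exact_mod_cast h7
    have h8 : (q : ℤ) ∣ a * w := ⟨w', by linarith⟩
    have hwq : (q : ℤ) ∣ w := by
      rcases hqp.dvd_or_dvd h8 with h | h
      · have h9 : (q : ℤ) ∣ d * w ^ 2 := by
          have h10 : d * w ^ 2 = 2 * q * a' - a * a := by linarith
          rw [h10]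
          exact dvd_sub ⟨2 * a', by ring⟩ (Dvd.dvd.mul_left h a)
        rcases hqp.dvd_or_dvd h9 with h10 | h10
        · exact absurd h10 hqd
        · exact hqp.dvd_of_dvd_pow h10
      · exact h
    have haq : (q : ℤ) ∣ a := by
      have h9 : (q : ℤ) ∣ a ^ 2 := by
        have h10 : a ^ 2 = 2 * q * a' - d * w * w := by linarith
        rw [h10]
        exact dvd_sub ⟨2 * a', by ring⟩ (Dvd.dvd.mul_left hwq (d * w))
      exact hqp.dvd_of_dvd_pow h9
    obtain ⟨a1, ha1⟩ := haq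
    obtain ⟨w1, hw1⟩ := hwq
    have hsint : IsIntegral ℤ s := by
      refine ⟨Polynomial.X ^ 2 - Polynomial.C d, by monicity!, ?_⟩
      rw [Polynomial.eval₂_sub, Polynomial.eval₂_pow, Polynomial.eval₂_X, Polynomial.eval₂_C,
        eq_intCast, hs, sub_self]
    set S : 𝓞 K := ⟨s, hsint⟩ with hS
    have hSc : (S : K) = s := rfl
    obtain ⟨k, hk⟩ : ∃ k : ℕ, q = 2 * k + 1 := by
      rcases hq.eq_two_or_odd' with h | h
      · exact absurd h hq2
      · obtain ⟨k, hk⟩ := h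
        exact ⟨k, hk⟩
    have h2x : 2 * x = ((q : ℤ) : 𝓞 K) * ((a1 : 𝓞 K) + (w1 : 𝓞 K) * S) := by
      apply RingOfIntegers.ext
      have e1 : ((2 * x : 𝓞 K) : K) = 2 * (x : K) := by
        change algebraMap (𝓞 K) K (2 * x) = 2 * algebraMap (𝓞 K) K x
        rw [map_mul, map_ofNat]
      rw [e1, h3, ha1, hw1]
      push_cast
      simp [hSc]
      ring
    rw [Ideal.mem_span_singleton]
    refine ⟨x - (k : 𝓞 K) * ((a1 : 𝓞 K) + (w1 : 𝓞 K) * S), ?_⟩
    have hk' : ((q : ℤ) : 𝓞 K) = 2 * (k : 𝓞 K) + 1 := by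
      rw [hk]
      push_cast
      ring
    linear_combination (-(k : 𝓞 K)) * h2x + (-x) * hk'
  have hdvd : Ideal.span {((q : ℤ) : 𝓞 K)} ^ 2 ∣ M ^ 2 := pow_dvd_pow_of_dvd (Ideal.dvd_iff_le.2 hle) 2
  rw [hM, Ideal.span_singleton_pow, Ideal.dvd_span_singleton, Ideal.mem_span_singleton] at hdvd
  obtain ⟨v, hv⟩ := hdvd
  obtain ⟨a', w', h4, -, -⟩ := norm_form K h2 d hd hneg s hs v
  have hvK : (m : K) = (q : K) ^ 2 * (v : K) := by
    have := congrArg (fun z : 𝓞 K => (z : K)) hv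
    simpa using this
  have h5 : ((2 * m : ℚ) : K) + ((0 : ℚ) : K) * s =
      ((q ^ 2 * a' : ℚ) : K) + ((q ^ 2 * w' : ℚ) : K) * s := by
    push_cast
    rw [hvK]
    linear_combination (q : K) ^ 2 * h4
  obtain ⟨h6, -⟩ := conj_uniq K d hneg s hs h5
  have h6' : 2 * m = (q : ℤ) ^ 2 * a' := by exact_mod_cast h6
  have h7 : (q : ℤ) * q ∣ m := by
    have hc : IsCoprime ((q : ℤ) * q) 2 := by
      have : IsCoprime (q : ℤ) 2 := by
        rw [Int.isCoprime_iff_gcd_eq_one]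
        have := (Nat.coprime_primes hq Nat.prime_two).2 hq2
        simpa [Int.gcd] using this
      exact IsCoprime.mul_left this this
    apply hc.dvd_of_dvd_mul_left
    exact ⟨a', by rw [h6']; ring⟩
  exact hqp.not_isUnit (hm _ h7)

/-- the same for the prime 2 -/
theorem amb_two (K : Type*) [Field K] [NumberField K] (h2 : Module.finrank ℚ K = 2)
    (d : ℤ) (hd : Squarefree d) (hneg : d < 0) (s : K) (hs : s ^ 2 = (d : K))
    (m : ℤ) (hm : Squarefree m) (M : Ideal (𝓞 K)) (hM : M ^ 2 = Ideal.span {(m : 𝓞 K)})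
    (h2m : (2 : ℤ) ∣ m) : d % 4 ≠ 1 := by
  intro hd4
  have hle : M ≤ Ideal.span {(2 : 𝓞 K)} := by
    intro x hx
    have hx2 : x ^ 2 ∈ M ^ 2 := Ideal.pow_mem_pow hx 2
    rw [hM, Ideal.mem_span_singleton] at hx2
    obtain ⟨c, hc⟩ := h2m
    obtain ⟨v0, hv0⟩ := hx2
    obtain ⟨v, hv⟩ : ∃ v : 𝓞 K, x ^ 2 = 2 * v := by
      refine ⟨(c : 𝓞 K) * v0, ?_⟩
      rw [hv0, hc]
      push_cast
      ring
    obtain ⟨a, w, h3, hN, -⟩ := norm_form K h2 d hd hneg s hs x
    obtain ⟨a', w', h4, hN', -⟩ := norm_form K h2 d hd hneg s hs v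
    have hvK : (x : K) ^ 2 = 2 * (v : K) := by
      have := congrArg (fun z : 𝓞 K => (z : K)) hv
      simp only [map_pow, map_mul, map_ofNat] at this
      exact this
    have h5 : ((a ^ 2 + d * w ^ 2 : ℚ) : K) + ((2 * a * w : ℚ) : K) * s =
        ((4 * a' : ℚ) : K) + ((4 * w' : ℚ) : K) * s := by
      push_cast
      have h6 : ((a : K) + (w : K) * s) ^ 2 = 4 * ((a' : K) + (w' : K) * s) := by
        rw [← h3, ← h4]
        linear_combination 4 * hvK
      linear_combination h6 - (w : K) ^ 2 * hs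
    obtain ⟨h6, h7⟩ := conj_uniq K d hneg s hs h5
    have h6' : a ^ 2 + d * w ^ 2 = 4 * a' := by exact_mod_cast h6
    have h7' : 2 * a * w = 4 * w' := by exact_mod_cast h7
    obtain ⟨e, he⟩ : ∃ e : ℤ, d = 4 * e + 1 := ⟨d / 4, by omega⟩
    -- both are even
    have haw : (2 : ℤ) ∣ a ∧ (2 : ℤ) ∣ w := by
      rcases Int.even_or_odd' a with ⟨a1, ha | ha⟩
      · rcases Int.even_or_odd' w with ⟨w1, hw | hw⟩
        · exact ⟨⟨a1, ha⟩, ⟨w1, hw⟩⟩
        · exfalso
          rw [ha, hw, he] at h6'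
          ring_nf at h6'
          omega
      · rcases Int.even_or_odd' w with ⟨w1, hw | hw⟩
        · exfalso
          rw [ha, hw, he] at h6'
          ring_nf at h6'
          omega
        · exfalso
          rw [ha, hw] at h7'
          ring_nf at h7'
          omega
    obtain ⟨⟨a1, ha1⟩, ⟨w1, hw1⟩⟩ := haw
    have h8 : a1 ^ 2 + d * w1 ^ 2 = a' := by
      rw [ha1, hw1] at h6'
      linarith
    have h9 : 2 * a1 * w1 = w' := by
      rw [ha1, hw1] at h7'
      linarith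
    -- `a1` and `w1` have the same parity
    have hpar : ∃ t : ℤ, a1 = w1 + 2 * t := by
      rw [← h8, ← h9, he] at hN'
      rcases Int.even_or_odd' a1 with ⟨a2, ha | ha⟩
      · rcases Int.even_or_odd' w1 with ⟨w2, hw | hw⟩
        · exact ⟨a2 - w2, by rw [ha, hw]; ring⟩
        · exfalso
          rw [ha, hw] at hN'
          ring_nf at hN'
          omega
      · rcases Int.even_or_odd' w1 with ⟨w2, hw | hw⟩
        · exfalso
          rw [ha, hw] at hN'
          ring_nf at hN'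
          omega
        · exact ⟨a2 - w2, by rw [ha, hw]; ring⟩
    obtain ⟨t, ht⟩ := hpar
    have hsint : _root_.IsIntegral ℤ ((1 + s) / 2) := by
      refine ⟨Polynomial.X ^ 2 - Polynomial.X - Polynomial.C e, by monicity!, ?_⟩
      rw [Polynomial.eval₂_sub, Polynomial.eval₂_sub, Polynomial.eval₂_pow, Polynomial.eval₂_X,
        Polynomial.eval₂_C, eq_intCast]
      have hd' : (d : K) = 4 * (e : K) + 1 := by rw [he]; push_cast; ring
      rw [hd'] at hs
      linear_combination (1 / 4 : K) * hs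
    set S : 𝓞 K := ⟨(1 + s) / 2, hsint⟩ with hS
    have hSc : (S : K) = (1 + s) / 2 := rfl
    rw [Ideal.mem_span_singleton]
    refine ⟨(t : 𝓞 K) + (w1 : 𝓞 K) * S, ?_⟩
    apply RingOfIntegers.ext
    have h10 : 2 * (x : K) = 2 * ((a1 : K) + (w1 : K) * s) := by
      rw [h3, ha1, hw1]
      push_cast
      ring
    have h11 : (x : K) = (a1 : K) + (w1 : K) * s := mul_left_cancel₀ two_ne_zero h10
    have h12 : ((2 * ((t : 𝓞 K) + (w1 : 𝓞 K) * S) : 𝓞 K) : K) =
        2 * ((t : K) + (w1 : K) * ((1 + s) / 2)) := by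
      change algebraMap (𝓞 K) K (2 * ((t : 𝓞 K) + (w1 : 𝓞 K) * S)) = _
      rw [map_mul, map_ofNat, map_add, map_mul, map_intCast, map_intCast]
      rfl
    rw [h12, h11, ht]
    push_cast
    ring
  have hdvd : Ideal.span {(2 : 𝓞 K)} ^ 2 ∣ M ^ 2 := pow_dvd_pow_of_dvd (Ideal.dvd_iff_le.2 hle) 2
  rw [hM, Ideal.span_singleton_pow, Ideal.dvd_span_singleton, Ideal.mem_span_singleton] at hdvd
  obtain ⟨v, hv⟩ := hdvd
  obtain ⟨a', w', h4, hN', -⟩ := norm_form K h2 d hd hneg s hs v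
  have hvK : (m : K) = 4 * (v : K) := by
    have := congrArg (fun z : 𝓞 K => (z : K)) hv
    simp only [map_pow, map_mul, map_ofNat, map_intCast] at this
    rw [this]
    norm_num
  have h5 : ((m : ℚ) : K) + ((0 : ℚ) : K) * s =
      ((2 * a' : ℚ) : K) + ((2 * w' : ℚ) : K) * s := by
    push_cast
    rw [hvK]
    linear_combination 2 * h4
  obtain ⟨h6, h6w⟩ := conj_uniq K d hneg s hs h5
  have h6' : m = 2 * a' := by exact_mod_cast h6
  have h6w' : w' = 0 := by
    have : (0 : ℤ) = 2 * w' := by exact_mod_cast h6w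
    omega
  rw [h6w'] at hN'
  have h7 : (2 : ℤ) ∣ a' := by
    have h8 : (2 : ℤ) ∣ a' ^ 2 := ⟨2 * (Ideal.absNorm (Ideal.span {v}) : ℤ), by linarith⟩
    exact Int.prime_two.dvd_of_dvd_pow h8
  obtain ⟨r, hr⟩ := h7
  have h8 : (2 : ℤ) * 2 ∣ m := ⟨r, by rw [h6', hr]; ring⟩
  exact Int.prime_two.not_isUnit (hm _ h8)

/-- ambiguous classes: an ideal with principal square is equivalent to a ramified product -/
theorem exists_ramified (K : Type*) [Field K] [NumberField K] (h2 : Module.finrank ℚ K = 2)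
    (d : ℤ) (hd : Squarefree d) (hneg : d < 0) (s : K) (hs : s ^ 2 = (d : K))
    (I : Ideal (𝓞 K)) (hI : I ≠ ⊥) (hp : (I ^ 2).IsPrincipal) :
    ∃ m : ℤ, CondM d m ∧ ∃ M : Ideal (𝓞 K), M ^ 2 = Ideal.span {(m : 𝓞 K)} ∧
      ∃ x y : 𝓞 K, x ≠ 0 ∧ y ≠ 0 ∧ Ideal.span {x} * I = Ideal.span {y} * M := by
  obtain ⟨σ, hσ, -, hab⟩ := exists_conj K h2 d hd hneg s hs
  set f : 𝓞 K ≃+* 𝓞 K := RingOfIntegers.mapRingEquiv σ.toRingEquiv with hf
  have hfc : ∀ x : 𝓞 K, (f x : K) = σ (x : K) := fun x => rfl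
  have hconj : ∀ A : Ideal (𝓞 K), A * A.map (f : 𝓞 K →+* 𝓞 K) =
      Ideal.span {((Ideal.absNorm A : ℕ) : 𝓞 K)} := fun A =>
    ideal_mul_conj K h2 d hd hneg s hs σ hσ A
  set a : ℕ := Ideal.absNorm I with ha
  have ha0 : a ≠ 0 := by
    rw [ha, Ne, Ideal.absNorm_eq_zero_iff]
    exact hI
  have haO : ((a : ℕ) : 𝓞 K) ≠ 0 := by exact_mod_cast ha0
  -- a generator with `α + a ≠ 0`
  obtain ⟨α, hα, hδ0⟩ : ∃ α : 𝓞 K, I ^ 2 = Ideal.span {α} ∧ α + (a : 𝓞 K) ≠ 0 := by
    obtain ⟨α, hα⟩ := hp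
    change I ^ 2 = Ideal.span {α} at hα
    by_cases h : α + (a : 𝓞 K) = 0
    · refine ⟨-α, ?_, ?_⟩
      · rw [hα, Ideal.span_singleton_neg]
      · have h3 : α = -(a : 𝓞 K) := by linear_combination h
        rw [h3, neg_neg]
        intro h4
        apply haO
        have h5 : (2 : 𝓞 K) * (a : 𝓞 K) = 0 := by linear_combination h4
        exact (mul_eq_zero.1 h5).resolve_left two_ne_zero
    · exact ⟨α, hα, h⟩
  have hnα : Ideal.absNorm (Ideal.span {α}) = a ^ 2 := by rw [← hα, map_pow]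
  have hαf : α * f α = ((a : ℕ) : 𝓞 K) ^ 2 := by
    obtain ⟨A, W, h3, hN, -⟩ := norm_form K h2 d hd hneg s hs α
    have h4 : 2 * (f α : K) = (A : K) - (W : K) * s := by
      rw [hfc]
      have h5 : σ (2 * (α : K)) = σ ((A : K) + (W : K) * s) := by rw [h3]
      rw [map_mul, map_add, map_mul, map_intCast, map_intCast, hσ, map_ofNat] at h5
      rw [h5]
      ring
    rw [hnα] at hN
    have hN' : (A : K) ^ 2 - (d : K) * (W : K) ^ 2 = 4 * (a : K) ^ 2 := by exact_mod_cast hN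
    apply RingOfIntegers.ext
    change (α : K) * (f α : K) = algebraMap (𝓞 K) K (((a : ℕ) : 𝓞 K) ^ 2)
    rw [map_pow, map_natCast]
    have h6 : (4 : K) * ((α : K) * (f α : K)) = 4 * (a : K) ^ 2 := by
      rw [← hN']
      calc (4 : K) * ((α : K) * (f α : K)) = (2 * (α : K)) * (2 * (f α : K)) := by ring
        _ = (A : K) ^ 2 - (d : K) * (W : K) ^ 2 := by
          rw [h3, h4]
          linear_combination (-(W : K) ^ 2) * hs
    exact mul_left_cancel₀ (by norm_num) h6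
  set δ : 𝓞 K := α + (a : 𝓞 K) with hδ
  have hδI : δ ∈ I := by
    apply Ideal.add_mem
    · have h3 : α ∈ I ^ 2 := by
        rw [hα]
        exact Ideal.mem_span_singleton_self α
      exact Ideal.pow_le_self two_ne_zero h3
    · exact Ideal.absNorm_mem I
  obtain ⟨E, hE⟩ : I ∣ Ideal.span {δ} := by
    rw [Ideal.dvd_span_singleton]
    exact hδI
  have hE0 : E ≠ ⊥ := by
    rintro rfl
    apply hδ0
    rw [Ideal.mul_bot, Ideal.span_singleton_eq_bot] at hE
    exact hE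
  set I' : Ideal (𝓞 K) := I.map (f : 𝓞 K →+* 𝓞 K) with hI'
  set E' : Ideal (𝓞 K) := E.map (f : 𝓞 K →+* 𝓞 K) with hE'
  have hfδ : Ideal.span {f δ} = I' * E' := by
    rw [hI', hE', ← Ideal.map_mul, ← hE, Ideal.map_span, Set.image_singleton]
    rfl
  have hαδ : α * f δ = (a : 𝓞 K) * δ := by
    rw [hδ, map_add, map_natCast]
    linear_combination hαf
  have hII : I * I' = Ideal.span {((a : ℕ) : 𝓞 K)} := hconj I
  have hI'0 : I' ≠ ⊥ := by
    intro h3
    rw [h3, Ideal.mul_bot] at hII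
    apply haO
    rw [eq_comm, Ideal.span_singleton_eq_bot] at hII
    exact hII
  have hEE' : E' = E := by
    have h3 : (I * I * I') * E' = (I * I * I') * E := by
      have h4 : Ideal.span {α} * Ideal.span {f δ} = Ideal.span {(a : 𝓞 K)} * Ideal.span {δ} := by
        rw [Ideal.span_singleton_mul_span_singleton, Ideal.span_singleton_mul_span_singleton, hαδ]
      rw [← hα, hfδ, ← hII, hE] at h4
      calc (I * I * I') * E' = I ^ 2 * (I' * E') := by ring
        _ = I * I' * (I * E) := h4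
        _ = (I * I * I') * E := by ring
    have h5 : I * I * I' ≠ 0 := by
      rw [Ideal.zero_eq_bot]
      exact mul_ne_zero (mul_ne_zero hI hI) hI'0
    exact mul_left_cancel₀ h5 h3
  have hE2 : E ^ 2 = Ideal.span {((Ideal.absNorm E : ℕ) : 𝓞 K)} := by
    rw [← hconj E, ← hE', hEE', sq]
  have he0 : Ideal.absNorm E ≠ 0 := by
    rw [Ne, Ideal.absNorm_eq_zero_iff]
    exact hE0
  obtain ⟨m, c, hcm, hm⟩ := Nat.sq_mul_squarefree (Ideal.absNorm E)
  have hc0 : c ≠ 0 := by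
    rintro rfl
    apply he0
    rw [← hcm]
    ring
  have hm0 : m ≠ 0 := by
    rintro rfl
    apply he0
    rw [← hcm]
    ring
  have hcO : ((c : ℕ) : 𝓞 K) ≠ 0 := by exact_mod_cast hc0
  have hmO : ((m : ℕ) : 𝓞 K) ≠ 0 := by exact_mod_cast hm0
  have hE2' : E ^ 2 = Ideal.span {((c : ℕ) : 𝓞 K)} ^ 2 * Ideal.span {((m : ℕ) : 𝓞 K)} := by
    rw [hE2, Ideal.span_singleton_pow, Ideal.span_singleton_mul_span_singleton, ← hcm]
    push_cast
    rfl
  obtain ⟨M, hM⟩ : Ideal.span {((c : ℕ) : 𝓞 K)} ∣ E :=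
    (UniqueFactorizationMonoid.pow_dvd_pow_iff_dvd two_ne_zero).1 ⟨_, hE2'⟩
  have hM2 : M ^ 2 = Ideal.span {((m : ℤ) : 𝓞 K)} := by
    have h3 : Ideal.span {((c : ℕ) : 𝓞 K)} ^ 2 * M ^ 2 =
        Ideal.span {((c : ℕ) : 𝓞 K)} ^ 2 * Ideal.span {((m : ℕ) : 𝓞 K)} := by
      rw [← hE2', hM, mul_pow]
    have h4 : Ideal.span {((c : ℕ) : 𝓞 K)} ^ 2 ≠ 0 := by
      apply pow_ne_zero
      rw [Ideal.zero_eq_bot, Ne, Ideal.span_singleton_eq_bot]
      exact hcO
    rw [mul_left_cancel₀ h4 h3]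
    push_cast
    rfl
  have hmsq : Squarefree (m : ℤ) := Int.squarefree_natCast.2 hm
  refine ⟨(m : ℤ), ⟨by positivity, hmsq, ?_, ?_⟩, M, hM2, (c : 𝓞 K) * (m : 𝓞 K), δ, ?_, hδ0, ?_⟩
  · intro q hq hq2 hqm
    exact amb_odd K h2 d hd hneg s hs m hmsq M hM2 q hq hq2 hqm
  · intro h
    exact amb_two K h2 d hd hneg s hs m hmsq M hM2 h
  · exact mul_ne_zero hcO hmO
  · have h3 : Ideal.span {((m : ℕ) : 𝓞 K)} = M ^ 2 := by
      rw [hM2]
      push_cast
      rfl
    rw [← Ideal.span_singleton_mul_span_singleton, h3, hE, hM]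
    ring

end X15
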