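import Pool.Agent.Lib.MP_87c685_nt_X15.Defs

open NumberField WeierstrassCurve

namespace X15

open NumberTheorySymbols

namespace DirAux

theorem per {c : ℤ} {Q p a : ℕ} (hcQ : 8 * c.natAbs ∣ Q) (hp : Odd p) (ha : Odd a)
    (h : p ≡ a [MOD Q]) : J(c | p) = J(c | a) := by
  have h4 : 4 * c.natAbs ∣ Q := (Nat.mul_dvd_mul_right (by norm_num) _).trans hcQ
  rw [jacobiSym.mod_right c hp, jacobiSym.mod_right c ha]
  have : p % (4 * c.natAbs) = a % (4 * c.natAbs) := h.of_dvd h4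
  rw [this]

theorem odd_of_coprime {a Q : ℕ} (h : a.Coprime Q) (h2 : 2 ∣ Q) : Odd a := by
  rw [← Nat.not_even_iff_odd]
  intro he
  have h3 : 2 ∣ Nat.gcd a Q := Nat.dvd_gcd he.two_dvd h2
  rw [h] at h3
  omega

theorem gcd_of_coprime {c : ℤ} {a Q : ℕ} (h : a.Coprime Q) (h2 : c.natAbs ∣ Q) :
    c.gcd a = 1 := by
  rw [Int.gcd, Int.natAbs_natCast]
  exact (Nat.Coprime.coprime_dvd_right h2 h).symm

/-- a modulus with symbol `-1` -/
theorem exists_neg (c : ℤ) (hc : ¬ IsSquare c) (Q : ℕ) (hQ : Q ≠ 0)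
    (hcQ : 8 * c.natAbs ∣ Q) : ∃ a : ℕ, a.Coprime Q ∧ J(c | a) = -1 := by
  obtain ⟨s, f, hsf, hs⟩ := Nat.sq_mul_squarefree c.natAbs
  have hc0 : c ≠ 0 := by
    rintro rfl
    exact hc ⟨0, by simp⟩
  have hn0 : c.natAbs ≠ 0 := Int.natAbs_ne_zero.2 hc0
  have hs0 : s ≠ 0 := hs.ne_zero
  have hf0 : f ≠ 0 := by
    rintro rfl
    simp at hsf
    exact hn0 hsf.symm
  have h8 : 8 ∣ Q := (Dvd.intro _ rfl).trans hcQ
  have h2 : 2 ∣ Q := (by norm_num : 2 ∣ 8).trans h8
  have hfQ : f ∣ Q := by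
    refine Dvd.dvd.trans ?_ hcQ
    rw [← hsf]
    exact Dvd.intro (8 * f * s) (by ring)
  -- the sign
  obtain ⟨ε, hε, hcε⟩ : ∃ ε : ℤ, (ε = 1 ∨ ε = -1) ∧ c = ε * (f : ℤ) ^ 2 * s := by
    rcases Int.natAbs_eq c with h | h
    · refine ⟨1, Or.inl rfl, ?_⟩
      rw [h, ← hsf]; push_cast; ring
    · refine ⟨-1, Or.inr rfl, ?_⟩
      rw [h, ← hsf]; push_cast; ring
  have hJ : ∀ a : ℕ, a.Coprime Q → J(c | a) = J(ε | a) * J(s | a) := by
    intro a ha
    have h1 : J((f : ℤ) ^ 2 | a) = 1 :=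
      jacobiSym.sq_one' (gcd_of_coprime ha (by simpa using hfQ))
    rw [hcε, jacobiSym.mul_left, jacobiSym.mul_left, h1, mul_one]
  by_cases hq : ∃ q : ℕ, q.Prime ∧ q ≠ 2 ∧ q ∣ s
  · obtain ⟨q, hqp, hq2, s', rfl⟩ := hq
    have : Fact q.Prime := ⟨hqp⟩
    obtain ⟨ν, hν⟩ := FiniteField.exists_nonsquare (F := ZMod q)
      (by rwa [ZMod.ringChar_zmod_n])
    set Q1 := ordCompl[q] Q with hQ1
    have hcop : Nat.Coprime Q1 q := (Nat.coprime_ordCompl hqp hQ).symm
    obtain ⟨r, hr1, hrν⟩ := Nat.chineseRemainder hcop 1 ν.val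
    have hqs' : Nat.Coprime q s' := by
      rw [Nat.squarefree_mul_iff] at hs
      exact hs.1
    have hprod : ordProj[q] Q * Q1 = Q := Nat.ordProj_mul_ordCompl_eq_self Q q
    have hdvdQ1 : ∀ t : ℕ, t ∣ Q → Nat.Coprime t q → t ∣ Q1 := by
      intro t ht htq
      rw [← hprod] at ht
      exact Nat.Coprime.dvd_of_dvd_mul_left (Nat.Coprime.pow_right _ htq) ht
    have h8q : Nat.Coprime 8 q := by
      have : Nat.Coprime 2 q := (Nat.coprime_primes Nat.prime_two hqp).2 (Ne.symm hq2)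
      exact Nat.Coprime.pow_left 3 this
    have h8s' : 8 * s' ∣ Q1 := by
      apply hdvdQ1
      · refine Dvd.dvd.trans ?_ hcQ
        rw [← hsf]
        exact Dvd.intro (f ^ 2 * q) (by ring)
      · exact Nat.Coprime.mul_left h8q hqs'.symm
    have hr8 : r % 8 = 1 := hr1.of_dvd ((Dvd.intro _ rfl : 8 ∣ 8 * s').trans h8s')
    have hrodd : Odd r := by
      rw [Nat.odd_iff]; omega
    have hνr : ((r : ℕ) : ZMod q) = ν := by
      have := (ZMod.natCast_eq_natCast_iff r ν.val q).2 hrν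
      rw [this, ZMod.natCast_zmod_val]
    have hν0 : ν ≠ 0 := by
      rintro rfl
      exact hν ⟨0, by simp⟩
    have hrq : Nat.Coprime r q := by
      rw [Nat.coprime_comm, Nat.Prime.coprime_iff_not_dvd hqp]
      intro hd
      apply hν0
      rw [← hνr]
      exact (ZMod.natCast_eq_zero_iff r q).2 hd
    have hrQ1 : Nat.Coprime r Q1 := by
      have := hr1.gcd_eq
      rw [Nat.Coprime, this]
      simp
    have hrQ : Nat.Coprime r Q := by
      rw [← hprod]
      exact Nat.Coprime.mul_right (Nat.Coprime.pow_right _ hrq) hrQ1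
    refine ⟨r, hrQ, ?_⟩
    rw [hJ r hrQ]
    have e1 : J(ε | r) = 1 := by
      rcases hε with rfl | rfl
      · exact jacobiSym.one_left r
      · rw [jacobiSym.at_neg_one hrodd, ZMod.χ₄_nat_one_mod_four (by omega)]
    have e2 : J((s' : ℤ) | r) = 1 := by
      rw [jacobiSym.mod_right' s' hrodd]
      have hs'0 : s' ≠ 0 := by
        rintro rfl
        simp at hs0
      have : r % (4 * s') = 1 := by
        have h4 : 4 * s' ∣ Q1 := (Nat.mul_dvd_mul_right (by norm_num) _).trans h8s'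
        have h5 : r % (4 * s') = 1 % (4 * s') := hr1.of_dvd h4
        rw [h5]
        exact Nat.mod_eq_of_lt (by omega)
      rw [this]
      exact jacobiSym.one_right _
    have e3 : J((q : ℤ) | r) = -1 := by
      have hqodd : Odd q := hqp.odd_of_ne_two hq2
      rw [← jacobiSym.quadratic_reciprocity_one_mod_four (by omega : r % 4 = 1) hqodd,
        ← jacobiSym.legendreSym.to_jacobiSym, legendreSym.eq_neg_one_iff]
      rw [Int.cast_natCast, hνr]
      exact hν
    rw [e1, Nat.cast_mul, jacobiSym.mul_left, e2, e3]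
    norm_num
  · push Not at hq
    -- `s = 1` or `s = 2`
    have hs12 : s = 1 ∨ s = 2 := by
      by_contra hcon
      push Not at hcon
      -- every prime factor is two
      have hpow : ∀ p, p.Prime → p ∣ s → p = 2 := by
        intro p hp hps
        by_contra h
        exact hq p hp h hps
      have hk : s = 2 ^ s.primeFactorsList.length :=
        Nat.eq_prime_pow_of_unique_prime_dvd hs0 (fun {p} hp hps => hpow p hp hps)
      generalize s.primeFactorsList.length = k at hk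
      rcases k with _ | _ | k
      · exact hcon.1 (by simpa using hk)
      · exact hcon.2 (by simpa using hk)
      · have h4 : 2 * 2 ∣ s := by
          rw [hk]
          exact Dvd.intro (2 ^ k) (by ring)
        have := hs 2 h4
        simp at this
    have hQ2 : Nat.Coprime 2 (ordCompl[2] Q) := Nat.coprime_ordCompl Nat.prime_two hQ
    set Q2 := ordCompl[2] Q with hQ2def
    have hprod : ordProj[2] Q * Q2 = Q := Nat.ordProj_mul_ordCompl_eq_self Q 2
    have h8 : Nat.Coprime 8 Q2 := Nat.Coprime.pow_left 3 hQ2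
    have key : ∀ t : ℕ, Odd t → ∃ a : ℕ, a.Coprime Q ∧ a % 8 = t % 8 := by
      intro t ht
      obtain ⟨a, ha1, ha2⟩ := Nat.chineseRemainder h8 t 1
      refine ⟨a, ?_, ha1⟩
      have h8' : a % 8 = t % 8 := ha1
      have hodd : a % 2 = 1 := by
        rw [Nat.odd_iff] at ht; omega
      have hc2 : Nat.Coprime a 2 := by
        rw [Nat.coprime_two_right]
        exact Nat.odd_iff.2 hodd
      have hcQ2 : Nat.Coprime a Q2 := by
        have := ha2.gcd_eq
        rw [Nat.Coprime, this]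
        simp
      rw [← hprod]
      exact Nat.Coprime.mul_right (Nat.Coprime.pow_right _ hc2) hcQ2
    rcases hs12 with rfl | rfl
    · rcases hε with rfl | rfl
      · exfalso
        apply hc
        refine ⟨f, ?_⟩
        rw [hcε]; push_cast; ring
      · obtain ⟨a, haQ, ha8⟩ := key 3 (by decide)
        have hodd : Odd a := by rw [Nat.odd_iff]; omega
        refine ⟨a, haQ, ?_⟩
        rw [hJ a haQ, jacobiSym.at_neg_one hodd, ZMod.χ₄_nat_three_mod_four (by omega)]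
        simp
    · obtain ⟨a, haQ, ha8⟩ := key 5 (by decide)
      have hodd : Odd a := by rw [Nat.odd_iff]; omega
      refine ⟨a, haQ, ?_⟩
      have e2 : J(((2 : ℕ) : ℤ) | a) = -1 := by
        rw [Nat.cast_ofNat, jacobiSym.at_two hodd, ZMod.χ₈_nat_eq_if_mod_eight]
        rw [if_neg (by omega), if_neg (by omega)]
      rw [hJ a haQ, e2]
      rcases hε with rfl | rfl
      · rw [jacobiSym.one_left]; norm_num
      · rw [jacobiSym.at_neg_one hodd, ZMod.χ₄_nat_one_mod_four (by omega)]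
        norm_num

end DirAux

open DirAux in
/-- a modulus with prescribed symbols -/
theorem exists_mod (b d : ℤ) (hb : ¬ IsSquare b) (hbd : ¬ IsSquare (b * d)) (hb0 : b ≠ 0)
    (hd0 : d ≠ 0) :
    ∃ a : ℕ, a.Coprime (8 * b.natAbs * d.natAbs) ∧ J(b | a) = -1 ∧ J(d | a) = 1 := by
  set Q := 8 * b.natAbs * d.natAbs with hQdef
  have hbn : b.natAbs ≠ 0 := Int.natAbs_ne_zero.2 hb0
  have hdn : d.natAbs ≠ 0 := Int.natAbs_ne_zero.2 hd0
  have hQ : Q ≠ 0 := by positivity
  have hbQ : 8 * b.natAbs ∣ Q := Dvd.intro _ rfl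
  have hbdQ : 8 * (b * d).natAbs ∣ Q := by
    rw [Int.natAbs_mul, ← mul_assoc]
  have hbQ' : b.natAbs ∣ Q := Dvd.intro (8 * d.natAbs) (by rw [hQdef]; ring)
  have hdQ' : d.natAbs ∣ Q := Dvd.intro (8 * b.natAbs) (by rw [hQdef]; ring)
  have h2 : 2 ∣ Q := Dvd.intro (4 * b.natAbs * d.natAbs) (by rw [hQdef]; ring)
  have hne : ∀ a : ℕ, a.Coprime Q → a ≠ 0 := by
    rintro a ha rfl
    have := odd_of_coprime ha h2
    simp at this
  obtain ⟨u, huQ, hu⟩ := exists_neg b hb Q hQ hbQ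
  obtain ⟨w, hwQ, hw⟩ := exists_neg (b * d) hbd Q hQ hbdQ
  rcases jacobiSym.eq_one_or_neg_one (gcd_of_coprime huQ hdQ') with h1 | h1
  · exact ⟨u, huQ, hu, h1⟩
  · rw [jacobiSym.mul_left] at hw
    rcases jacobiSym.eq_one_or_neg_one (gcd_of_coprime hwQ hbQ') with h3 | h3
    · rw [h3, one_mul] at hw
      refine ⟨u * w, Nat.Coprime.mul_left huQ hwQ, ?_, ?_⟩
      · rw [jacobiSym.mul_right' b (hne u huQ) (hne w hwQ), hu, h3]; norm_num
      · rw [jacobiSym.mul_right' d (hne u huQ) (hne w hwQ), h1, hw]; norm_num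
    · rw [h3] at hw
      exact ⟨w, hwQ, h3, by linarith⟩

open DirAux in
/-- E9 -/
theorem exists_prime_split (b d : ℤ) (hb : ¬ IsSquare b) (hd : ¬ IsSquare d)
    (hbd : ¬ IsSquare (b * d)) (N : ℕ) :
    ∃ p : ℕ, p.Prime ∧ N < p ∧ IsSquare (d : ZMod p) ∧ ¬ IsSquare (b : ZMod p) := by
  have hb0 : b ≠ 0 := by
    rintro rfl
    exact hb ⟨0, by simp⟩
  have hd0 : d ≠ 0 := by
    rintro rfl
    exact hd ⟨0, by simp⟩
  obtain ⟨a, haQ, hab, had⟩ := exists_mod b d hb hbd hb0 hd0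
  have hbn : b.natAbs ≠ 0 := Int.natAbs_ne_zero.2 hb0
  have hdn : d.natAbs ≠ 0 := Int.natAbs_ne_zero.2 hd0
  have hQ : 8 * b.natAbs * d.natAbs ≠ 0 := by positivity
  have h2 : 2 ∣ 8 * b.natAbs * d.natAbs := Dvd.intro (4 * b.natAbs * d.natAbs) (by ring)
  have haodd : Odd a := odd_of_coprime haQ h2
  obtain ⟨p, hpN, hp, hpa⟩ := Nat.forall_exists_prime_gt_and_modEq N hQ haQ
  have : Fact p.Prime := ⟨hp⟩
  have hpodd : Odd p := by
    have h3 : p % 2 = a % 2 := hpa.of_dvd h2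
    rw [Nat.odd_iff] at haodd ⊢
    omega
  have hJb : J(b | p) = -1 := by
    rw [per (Dvd.intro _ rfl) hpodd haodd hpa, hab]
  have hJd : J(d | p) = 1 := by
    rw [per (Dvd.intro b.natAbs (by ring)) hpodd haodd hpa, had]
  refine ⟨p, hp, hpN, ZMod.isSquare_of_jacobiSym_eq_one hJd, ?_⟩
  rw [← jacobiSym.legendreSym.to_jacobiSym, legendreSym.eq_neg_one_iff] at hJb
  exact hJb

end X15
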