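import Pool.Agent.Lib.MP_87c685_nt_X15.Defs

open NumberField WeierstrassCurve

namespace X15

/-- valuation of a prime dividing the squarefree part -/
lemma NormMul_val {q : ℕ} (hq : q.Prime) {c m : ℕ} (hc : c ≠ 0) (hm : Squarefree m)
    (hqm : q ∣ m) : padicValNat q (c ^ 2 * m) = 2 * padicValNat q c + 1 := by
  have : Fact q.Prime := ⟨hq⟩
  have hm0 : m ≠ 0 := hm.ne_zero
  have h1 : padicValNat q m = 1 := by
    have h2 : 1 ≤ padicValNat q m := one_le_padicValNat_of_dvd hm0 hqm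
    have h3 : ¬ 2 ≤ padicValNat q m := by
      intro h4
      have h5 : q ^ 2 ∣ m := (padicValNat_dvd_iff_le hm0).2 h4
      have h6 := hm q (by rwa [← pow_two])
      exact hq.one_lt.ne' (Nat.isUnit_iff.1 h6)
    omega
  rw [padicValNat.mul (pow_ne_zero 2 hc) hm0, padicValNat.pow, h1]

/-- E7 -/
theorem exists_norm_mul (d : ℤ) (hd : Squarefree d) (hneg : d < 0) (p : ℕ) (hpp : p.Prime)
    (hp : p ≠ 2) (hpd : ¬ (p : ℤ) ∣ d) (k : ℕ) (hk : k % 2 = 1) (a w : ℤ)
    (h : a ^ 2 - d * w ^ 2 = 4 * (p : ℤ) ^ (2 * k)) (hpa : ¬ (p : ℤ) ∣ a) :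
    ∃ m : ℤ, CondM d m ∧ ∃ X Y : ℚ, (p : ℚ) * m = X ^ 2 - d * Y ^ 2 := by
  set P : ℤ := (p : ℤ) ^ k with hP
  have hPP : (p : ℤ) ^ (2 * k) = P ^ 2 := by rw [hP, ← pow_mul, mul_comm]
  rw [hPP] at h
  have hp0 : (0 : ℤ) < p := by exact_mod_cast hpp.pos
  have hP0 : 0 < P := by positivity
  have hk0 : k ≠ 0 := by omega
  have hpP : (p : ℤ) ∣ P := dvd_pow_self _ hk0
  have hw2 : 0 ≤ -d * w ^ 2 := by
    have := sq_nonneg w
    nlinarith
  have ha1 : a < 2 * P := by
    by_contra hge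
    push Not at hge
    have h1 : a = 2 * P := by nlinarith
    exact hpa (h1 ▸ Dvd.dvd.mul_left hpP 2)
  have ha2 : -(2 * P) < a := by
    by_contra hge
    push Not at hge
    have h1 : a = -(2 * P) := by nlinarith
    exact hpa (h1 ▸ (dvd_neg.2 (Dvd.dvd.mul_left hpP 2)))
  obtain ⟨t, ht⟩ : ∃ t : ℕ, (t : ℤ) = 2 * P + a := ⟨(2 * P + a).toNat, Int.toNat_of_nonneg (by linarith)⟩
  obtain ⟨u, hu⟩ : ∃ u : ℕ, (u : ℤ) = 4 * P - t := ⟨(4 * P - t).toNat, Int.toNat_of_nonneg (by linarith)⟩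
  obtain ⟨n, hn⟩ : ∃ n : ℕ, (n : ℤ) = -d := ⟨(-d).toNat, Int.toNat_of_nonneg (by linarith)⟩
  have ht0 : 0 < t := by
    have : (0 : ℤ) < t := by linarith
    exact_mod_cast this
  have hu0 : 0 < u := by
    have : (0 : ℤ) < u := by linarith
    exact_mod_cast this
  have hn0 : 0 < n := by
    have : (0 : ℤ) < n := by linarith
    exact_mod_cast this
  set W : ℕ := w.natAbs with hW
  have hWw : (W : ℤ) ^ 2 = w ^ 2 := by rw [hW, Int.natCast_natAbs, sq_abs]
  have hmainZ : (t : ℤ) * u = n * (W : ℤ) ^ 2 := by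
    rw [hWw, hn, hu, ht]
    linear_combination -h
  have hmain : t * u = n * W ^ 2 := by exact_mod_cast hmainZ
  have hW0 : W ≠ 0 := by
    intro h0
    rw [h0] at hmain
    have : 0 < t * u := Nat.mul_pos ht0 hu0
    simp at hmain
    omega
  obtain ⟨m, c, hmc, hmsq⟩ := Nat.sq_mul_squarefree t
  have hc0 : c ≠ 0 := by
    rintro rfl
    simp at hmc
    omega
  have hm0 : m ≠ 0 := hmsq.ne_zero
  have hpt : ¬ p ∣ t := by
    intro hdv
    have h1 : (p : ℤ) ∣ (t : ℤ) := by exact_mod_cast hdv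
    rw [ht] at h1
    exact hpa ((Int.dvd_add_right (Dvd.dvd.mul_left hpP 2)).1 h1)
  refine ⟨(m : ℤ), ⟨by positivity, ?_, ?_, ?_⟩, ?_⟩
  · exact Int.squarefree_natCast.2 hmsq
  · intro q hq hq2 hqm
    have hqm' : q ∣ m := by exact_mod_cast hqm
    by_contra hqd
    have hFq : Fact q.Prime := ⟨hq⟩
    have hqn : ¬ q ∣ n := by
      intro h1
      apply hqd
      have h2 : (q : ℤ) ∣ (n : ℤ) := by exact_mod_cast h1
      rw [hn] at h2
      exact (dvd_neg).1 h2
    have h1 : padicValNat q t = 2 * padicValNat q c + 1 := by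
      rw [← hmc]
      exact NormMul_val hq hc0 hmsq hqm'
    have h2 : padicValNat q t + padicValNat q u = 2 * padicValNat q W := by
      rw [← padicValNat.mul ht0.ne' hu0.ne', hmain, padicValNat.mul hn0.ne' (pow_ne_zero 2 hW0),
        padicValNat.pow, padicValNat.eq_zero_of_not_dvd hqn, zero_add]
    have h3 : q ∣ u := by
      apply dvd_of_one_le_padicValNat
      omega
    have h4 : q ∣ t := by
      apply dvd_of_one_le_padicValNat
      omega
    have h5 : (q : ℤ) ∣ 4 * P := by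
      have h6 : (4 * P : ℤ) = t + u := by rw [hu]; ring
      rw [h6]
      exact dvd_add (by exact_mod_cast h4) (by exact_mod_cast h3)
    have h7 : q ∣ 4 * p ^ k := by
      rw [hP] at h5
      exact_mod_cast h5
    rcases (Nat.Prime.dvd_mul hq).1 h7 with h8 | h8
    · have h9 : q ∣ 2 ^ 2 := h8
      exact hq2 ((Nat.prime_dvd_prime_iff_eq hq Nat.prime_two).1 (hq.dvd_of_dvd_pow h9))
    · have h9 : q = p := (Nat.prime_dvd_prime_iff_eq hq hpp).1 (hq.dvd_of_dvd_pow h8)
      rw [h9] at h4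
      exact hpt h4
  · intro h2m hd4
    have h2m' : 2 ∣ m := by exact_mod_cast h2m
    have hF2 : Fact (Nat.Prime 2) := ⟨Nat.prime_two⟩
    have hPodd : P % 2 = 1 := by
      have h1 : Odd (p ^ k) := (hpp.odd_of_ne_two hp).pow
      have h2 : p ^ k % 2 = 1 := Nat.odd_iff.1 h1
      rw [hP]
      exact_mod_cast congrArg (fun x : ℕ => (x : ℤ)) h2
    have hn4 : n % 4 = 3 := by omega
    have h2n : ¬ 2 ∣ n := by omega
    have h1 : padicValNat 2 t = 2 * padicValNat 2 c + 1 := by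
      rw [← hmc]
      exact NormMul_val Nat.prime_two hc0 hmsq h2m'
    have h2 : padicValNat 2 t + padicValNat 2 u = 2 * padicValNat 2 W := by
      rw [← padicValNat.mul ht0.ne' hu0.ne', hmain, padicValNat.mul hn0.ne' (pow_ne_zero 2 hW0),
        padicValNat.pow, padicValNat.eq_zero_of_not_dvd h2n, zero_add]
    have h2t : 2 ∣ t := by
      apply dvd_of_one_le_padicValNat
      omega
    obtain ⟨t1, ht1⟩ := h2t
    have h2u : 2 ∣ u := by omega
    obtain ⟨u1, hu1⟩ := h2u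
    have ht10 : t1 ≠ 0 := by rintro rfl; omega
    have hu10 : u1 ≠ 0 := by rintro rfl; omega
    have hsum : (t1 : ℤ) + u1 = 2 * P := by
      have h3 : (t : ℤ) = 2 * t1 := by exact_mod_cast ht1
      have h4 : (u : ℤ) = 2 * u1 := by exact_mod_cast hu1
      linarith
    have ht1v : padicValNat 2 t = padicValNat 2 t1 + 1 := by
      rw [ht1, padicValNat.mul two_ne_zero ht10, padicValNat.self (by norm_num)]
      omega
    have hu1v : padicValNat 2 u = padicValNat 2 u1 + 1 := by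
      rw [hu1, padicValNat.mul two_ne_zero hu10, padicValNat.self (by norm_num)]
      omega
    rcases Nat.even_or_odd t1 with he | ho
    · -- `t1` even
      have hv1 : 1 ≤ padicValNat 2 t1 := one_le_padicValNat_of_dvd ht10 he.two_dvd
      have h4 : 2 ^ 2 ∣ t1 := (padicValNat_dvd_iff_le ht10).2 (by omega)
      obtain ⟨t2, ht2⟩ := h4
      have hu2 : u1 % 4 = 2 := by
        have : (t1 : ℤ) = 4 * t2 := by
          have := congrArg (fun x : ℕ => (x : ℤ)) ht2
          push_cast at this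
          linarith
        omega
      have hv2 : padicValNat 2 u1 = 1 := by
        have h5 : 1 ≤ padicValNat 2 u1 := one_le_padicValNat_of_dvd hu10 (by omega)
        have h6 : ¬ 2 ≤ padicValNat 2 u1 := by
          intro h7
          have h8 : 2 ^ 2 ∣ u1 := (padicValNat_dvd_iff_le hu10).2 h7
          omega
        omega
      omega
    · -- `t1` odd
      have h2W : 2 ∣ W := by
        have h3 : 2 ∣ n * W ^ 2 := by
          rw [← hmain, ht1]
          exact ⟨t1 * u, by ring⟩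
        rcases (Nat.Prime.dvd_mul Nat.prime_two).1 h3 with h4 | h4
        · exact absurd h4 h2n
        · exact Nat.prime_two.dvd_of_dvd_pow h4
      obtain ⟨W1, hW1⟩ := h2W
      have h5 : t1 * u1 = n * W1 ^ 2 := by
        have h6 : 4 * (t1 * u1) = 4 * (n * W1 ^ 2) := by
          calc 4 * (t1 * u1) = (2 * t1) * (2 * u1) := by ring
            _ = n * W ^ 2 := by rw [← ht1, ← hu1, hmain]
            _ = 4 * (n * W1 ^ 2) := by rw [hW1]; ring
        omega
      have ho1 : t1 % 2 = 1 := Nat.odd_iff.1 ho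
      have hsum4 : (t1 + u1) % 4 = 2 := by omega
      have h7 : t1 * u1 % 4 = 1 := by
        have h8 : t1 % 4 = 1 ∨ t1 % 4 = 3 := by omega
        rcases h8 with h8 | h8
        · have h9 : u1 % 4 = 1 := by omega
          rw [Nat.mul_mod, h8, h9]
        · have h9 : u1 % 4 = 3 := by omega
          rw [Nat.mul_mod, h8, h9]
      have h10 : n * W1 ^ 2 % 4 = 1 := by rw [← h5]; exact h7
      have h11 : W1 % 4 = 0 ∨ W1 % 4 = 1 ∨ W1 % 4 = 2 ∨ W1 % 4 = 3 := by omega
      rcases h11 with h | h | h | h <;>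
        · rw [Nat.mul_mod, Nat.pow_mod, h, hn4] at h10
          omega
  · -- the norm equation
    obtain ⟨j, hj⟩ : ∃ j, k = 2 * j + 1 := ⟨k / 2, by omega⟩
    have h1 : 4 * P * t = (t : ℤ) ^ 2 - d * w ^ 2 := by
      rw [ht]
      linear_combination -h
    have h2 : P = (p : ℤ) * ((p : ℤ) ^ j) ^ 2 := by
      rw [hP, hj]
      ring
    have h3 : (t : ℤ) = (c : ℤ) ^ 2 * m := by
      rw [← hmc]
      push_cast
      ring
    have h4 : 4 * ((p : ℤ) * ((p : ℤ) ^ j) ^ 2) * ((c : ℤ) ^ 2 * m) = (t : ℤ) ^ 2 - d * w ^ 2 := by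
      rw [← h2, ← h3]
      exact h1
    have h5 : 4 * ((p : ℚ) * ((p : ℚ) ^ j) ^ 2) * ((c : ℚ) ^ 2 * m) = (t : ℚ) ^ 2 - d * w ^ 2 := by
      exact_mod_cast h4
    have hpQ : (p : ℚ) ≠ 0 := by exact_mod_cast hpp.ne_zero
    have hcQ : (c : ℚ) ≠ 0 := by exact_mod_cast hc0
    refine ⟨t / (2 * p ^ j * c), w / (2 * p ^ j * c), ?_⟩
    have h6 : (2 * (p : ℚ) ^ j * c) ≠ 0 := by positivity
    rw [div_pow, div_pow, mul_div_assoc', ← sub_div, ← h5, Int.cast_natCast,
      eq_div_iff (pow_ne_zero 2 h6)]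
    ring

end X15
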