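import Pool.Agent.Lib.MP_87c685_nt_X15.Grp
import Pool.Agent.Lib.MP_87c685_nt_X15.Conj

open NumberField WeierstrassCurve

namespace X15

/-- `2` is not a multiple of an odd prime: no element `r + e s`, `e = 1` or `-1`, is divisible
by `p`. -/
theorem np_not_dvd (K : Type*) [Field K] [NumberField K] (h2 : Module.finrank ℚ K = 2)
    (d : ℤ) (hd : Squarefree d) (hneg : d < 0) (s : K) (hs : s ^ 2 = (d : K))
    (p : ℕ) [hpp : Fact p.Prime] (hp : p ≠ 2) (r e : ℤ) (he : e = 1 ∨ e = -1) (g : 𝓞 K)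
    (hg : (r : K) + (e : K) * s = (p : K) * (g : K)) : False := by
  obtain ⟨a, w, h1, -, -⟩ := norm_form K h2 d hd hneg s hs g
  have h3 : (((2 * r : ℤ) : ℚ) : K) + (((2 * e : ℤ) : ℚ) : K) * s =
      (((p * a : ℤ) : ℚ) : K) + (((p * w : ℤ) : ℚ) : K) * s := by
    push_cast
    linear_combination 2 * hg + (p : K) * h1
  obtain ⟨-, h4⟩ := conj_uniq K d hneg s hs h3
  have h5 : 2 * e = p * w := by exact_mod_cast h4
  have h6 : (p : ℤ) ∣ 2 := by
    rcases he with rfl | rfl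
    · exact ⟨w, by linarith⟩
    · exact ⟨-w, by linarith⟩
  have h7 : p ∣ 2 := by exact_mod_cast h6
  exact hp ((Nat.prime_dvd_prime_iff_eq hpp.out Nat.prime_two).mp h7)

/-- E6 -/
theorem exists_norm_pow (K : Type*) [Field K] [NumberField K] (h2 : Module.finrank ℚ K = 2)
    (d : ℤ) (hd : Squarefree d) (hneg : d < 0) (s : K) (hs : s ^ 2 = (d : K))
    (hcl : ∀ c : ClassGroup (𝓞 K), orderOf c ≠ 4) (p : ℕ) [Fact p.Prime]
    (hp : p ≠ 2) (hpd : ¬ (p : ℤ) ∣ d) (hsq : IsSquare (d : ZMod p)) :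
    ∃ k : ℕ, k % 2 = 1 ∧ ∃ a w : ℤ, a ^ 2 - d * w ^ 2 = 4 * (p : ℤ) ^ (2 * k) ∧
      ¬ (p : ℤ) ∣ a := by
  have hpp : p.Prime := Fact.out
  obtain ⟨c, hc⟩ := hsq
  obtain ⟨k, hk, hprin⟩ := exists_odd_principal K hcl
  -- the integer r
  obtain ⟨r, hr⟩ : ∃ r : ℤ, (r : ZMod p) = c := ZMod.intCast_surjective c
  obtain ⟨m, hm⟩ : (p : ℤ) ∣ r ^ 2 - d := by
    rw [← ZMod.intCast_zmod_eq_zero_iff_dvd]
    push_cast
    rw [hr, hc]
    ring
  have hpr : ¬ (p : ℤ) ∣ 2 * r := by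
    intro h
    have hpz : Prime (p : ℤ) := Nat.prime_iff_prime_int.mp hpp
    rcases hpz.dvd_or_dvd h with h | h
    · have h7 : p ∣ 2 := by exact_mod_cast h
      exact hp ((Nat.prime_dvd_prime_iff_eq hpp Nat.prime_two).mp h7)
    · apply hpd
      have h8 : (p : ℤ) ∣ r ^ 2 := dvd_pow h two_ne_zero
      have h9 : d = r ^ 2 - (p : ℤ) * m := by linarith
      rw [h9]
      exact dvd_sub h8 (dvd_mul_right _ _)
  obtain ⟨u, v, huv⟩ : IsCoprime (2 * r) (p : ℤ) := by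
    have hpz : Prime (p : ℤ) := Nat.prime_iff_prime_int.mp hpp
    exact ((hpz.coprime_iff_not_dvd).mpr hpr).symm
  -- the element S
  have hsint : IsIntegral ℤ s := by
    refine ⟨Polynomial.X ^ 2 - Polynomial.C d, Polynomial.monic_X_pow_sub_C d two_ne_zero, ?_⟩
    rw [Polynomial.eval₂_sub, Polynomial.eval₂_X_pow, Polynomial.eval₂_C, hs]
    simp
  let S : 𝓞 K := ⟨s, hsint⟩
  have hS : algebraMap (𝓞 K) K S = s := rfl
  have hinj : Function.Injective (algebraMap (𝓞 K) K) := FaithfulSMul.algebraMap_injective _ _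
  have hSS : S ^ 2 = (d : 𝓞 K) := by
    apply hinj
    rw [map_pow, map_intCast, hS, hs]
  set P : Ideal (𝓞 K) := Ideal.span {(p : 𝓞 K), (r : 𝓞 K) - S} with hP
  set P' : Ideal (𝓞 K) := Ideal.span {(p : 𝓞 K), (r : 𝓞 K) + S} with hP'
  have hpP : (p : 𝓞 K) ∈ P := Ideal.subset_span (by simp)
  have hrP : (r : 𝓞 K) - S ∈ P := Ideal.subset_span (by simp)
  have hrP' : (r : 𝓞 K) + S ∈ P' := Ideal.subset_span (by simp)
  have hrm : ((r : 𝓞 K) - S) * ((r : 𝓞 K) + S) = (p : 𝓞 K) * (m : 𝓞 K) := by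
    have e1 : ((r ^ 2 - d : ℤ) : 𝓞 K) = ((p * m : ℤ) : 𝓞 K) := by rw [hm]
    push_cast at e1
    linear_combination e1 - hSS
  have hPP : P * P' = Ideal.span {(p : 𝓞 K)} := by
    apply le_antisymm
    · rw [hP, hP', Ideal.span_pair_mul_span_pair, Ideal.span_le]
      intro x hx
      simp only [Set.mem_insert_iff, Set.mem_singleton_iff] at hx
      rw [SetLike.mem_coe, Ideal.mem_span_singleton]
      rcases hx with rfl | rfl | rfl | rfl
      · exact dvd_mul_right _ _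
      · exact dvd_mul_right _ _
      · exact dvd_mul_left _ _
      · rw [hrm]
        exact dvd_mul_right _ _
    · rw [Ideal.span_singleton_le_iff_mem]
      have e1 : (p : 𝓞 K) = (u : 𝓞 K) * ((p : 𝓞 K) * ((r : 𝓞 K) + S) +
          ((r : 𝓞 K) - S) * (p : 𝓞 K)) + (v : 𝓞 K) * ((p : 𝓞 K) * (p : 𝓞 K)) := by
        have e2 : ((u * (2 * r) + v * p : ℤ) : 𝓞 K) = 1 := by rw [huv]; simp
        push_cast at e2
        linear_combination (-(p : 𝓞 K)) * e2
      rw [e1]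
      have hpP' : (p : 𝓞 K) ∈ P' := Ideal.subset_span (by simp)
      exact Ideal.add_mem _ (Ideal.mul_mem_left _ _ (Ideal.add_mem _ (Ideal.mul_mem_mul hpP hrP')
        (Ideal.mul_mem_mul hrP hpP'))) (Ideal.mul_mem_left _ _ (Ideal.mul_mem_mul hpP hpP'))
  -- norms
  have hrank : Module.finrank ℤ (𝓞 K) = 2 := by rw [RingOfIntegers.rank, h2]
  have hNp : Ideal.absNorm (Ideal.span {(p : 𝓞 K)}) = p ^ 2 := by
    rw [Ideal.absNorm_span_singleton]
    have e1 : Algebra.norm ℤ (p : 𝓞 K) = (p : ℤ) ^ 2 := by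
      have := Algebra.norm_algebraMap (R := ℤ) (S := 𝓞 K) (p : ℤ)
      rw [hrank] at this
      simpa using this
    rw [e1]
    simp [Int.natAbs_pow]
  have hNN : Ideal.absNorm P * Ideal.absNorm P' = p ^ 2 := by
    rw [← map_mul, hPP, hNp]
  have hN1 : Ideal.absNorm P ≠ 1 := by
    intro h
    rw [Ideal.absNorm_eq_one_iff] at h
    rw [h, Ideal.top_mul] at hPP
    rw [hPP, Ideal.mem_span_singleton] at hrP'
    obtain ⟨g, hg⟩ := hrP'
    refine np_not_dvd K h2 d hd hneg s hs p hp r 1 (Or.inl rfl) g ?_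
    have := congrArg (algebraMap (𝓞 K) K) hg
    rw [map_add, map_mul, map_intCast, map_natCast, hS] at this
    have e9 : (r : K) + ((1 : ℤ) : K) * s = (r : K) + s := by push_cast; ring
    rw [e9]
    exact this
  have hN2 : Ideal.absNorm P' ≠ 1 := by
    intro h
    rw [Ideal.absNorm_eq_one_iff] at h
    rw [h, Ideal.mul_top] at hPP
    rw [hPP, Ideal.mem_span_singleton] at hrP
    obtain ⟨g, hg⟩ := hrP
    refine np_not_dvd K h2 d hd hneg s hs p hp r (-1) (Or.inr rfl) g ?_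
    have := congrArg (algebraMap (𝓞 K) K) hg
    rw [map_sub, map_mul, map_intCast, map_natCast, hS] at this
    have e9 : (r : K) + ((-1 : ℤ) : K) * s = (r : K) - s := by push_cast; ring
    rw [e9]
    exact this
  have hNP : Ideal.absNorm P = p := by
    have h1 : Ideal.absNorm P ∣ p ^ 2 := ⟨_, hNN.symm⟩
    obtain ⟨i, hi, hi'⟩ := (Nat.dvd_prime_pow hpp).mp h1
    interval_cases i
    · rw [pow_zero] at hi'
      exact absurd hi' hN1
    · simpa using hi'
    · exfalso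
      apply hN2
      rw [hi'] at hNN
      have h3 : p ^ 2 * Ideal.absNorm P' = p ^ 2 * 1 := by rw [hNN, mul_one]
      exact Nat.eq_of_mul_eq_mul_left (pow_pos hpp.pos 2) h3
  have hPprime : P.IsPrime := Ideal.isPrime_of_irreducible_absNorm (by rw [hNP]; exact hpp)
  have hPbot : P ≠ ⊥ := by
    intro h
    rw [h, Ideal.absNorm_bot] at hNP
    exact hpp.ne_zero hNP.symm
  -- the generator
  obtain ⟨π, hπ⟩ := (Submodule.isPrincipal_iff _).mp (hprin P hPbot)
  replace hπ : P ^ (2 * k) = Ideal.span {π} := hπ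
  obtain ⟨a, w, h3, h4, -⟩ := norm_form K h2 d hd hneg s hs π
  have h5 : (Ideal.absNorm (Ideal.span {π}) : ℤ) = (p : ℤ) ^ (2 * k) := by
    rw [← hπ, map_pow, hNP]
    push_cast
    rfl
  rw [h5] at h4
  refine ⟨k, hk, a, w, h4, ?_⟩
  rintro ⟨a', ha'⟩
  have hk0 : 2 * k ≠ 0 := by omega
  have hπP : π ∈ P := by
    have : π ∈ P ^ (2 * k) := by rw [hπ]; exact Ideal.mem_span_singleton_self π
    exact Ideal.pow_le_self hk0 this
  let π' : 𝓞 K := (a : 𝓞 K) - π
  have hπ'P : π' ∈ P := by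
    refine Ideal.sub_mem _ ?_ hπP
    rw [ha']
    push_cast
    exact Ideal.mul_mem_right _ _ hpP
  have hmul : π * π' = (p : 𝓞 K) ^ (2 * k) := by
    apply hinj
    have e0 : algebraMap (𝓞 K) K π' = (a : K) - (π : K) := by
      simp only [π']
      rw [map_sub, map_intCast]
    rw [map_mul, map_pow, map_natCast, e0]
    change (π : K) * ((a : K) - (π : K)) = (p : K) ^ (2 * k)
    have e1 : ((a ^ 2 - d * w ^ 2 : ℤ) : K) = ((4 * (p : ℤ) ^ (2 * k) : ℤ) : K) := by rw [h4]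
    push_cast at e1
    have e2 : (4 : K) * ((π : K) * ((a : K) - (π : K))) = 4 * (p : K) ^ (2 * k) := by
      linear_combination e1 + ((a : K) - 2 * (π : K) - (w : K) * s) * h3 - (w : K) ^ 2 * hs
    have h40 : (4 : K) ≠ 0 := by norm_num
    exact mul_left_cancel₀ h40 e2
  have hspan : Ideal.span {π'} = P' ^ (2 * k) := by
    have e1 : P ^ (2 * k) * Ideal.span {π'} = P ^ (2 * k) * P' ^ (2 * k) := by
      rw [← mul_pow, hPP, hπ, Ideal.span_singleton_mul_span_singleton, hmul,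
        Ideal.span_singleton_pow]
    exact mul_left_cancel₀ (pow_ne_zero _ hPbot) e1
  have hP'le : P' ≤ P := by
    apply hPprime.le_of_pow_le (n := 2 * k)
    rw [← hspan, Ideal.span_singleton_le_iff_mem]
    exact hπ'P
  apply hPprime.ne_top
  rw [Ideal.eq_top_iff_one]
  have e2 : ((u * (2 * r) + v * p : ℤ) : 𝓞 K) = 1 := by rw [huv]; simp
  rw [← e2]
  have e3 : ((u * (2 * r) + v * p : ℤ) : 𝓞 K) = (u : 𝓞 K) * (((r : 𝓞 K) - S) + ((r : 𝓞 K) + S)) +
      (v : 𝓞 K) * (p : 𝓞 K) := by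
    push_cast
    ring
  rw [e3]
  exact Ideal.add_mem _ (Ideal.mul_mem_left _ _ (Ideal.add_mem _ hrP (hP'le hrP')))
    (Ideal.mul_mem_left _ _ hpP)

end X15
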