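import Pool.Agent.Lib.MP_87c685_nt_X15.PadicSq

open NumberField WeierstrassCurve

namespace X15

theorem nr_val (q : ℕ) [Fact q.Prime] (d : ℤ) (hqd : (q : ℤ) ∣ d) (hd : Squarefree d) :
    ((d : ℤ) : ℚ_[q]).valuation = 1 := by
  rw [Padic.valuation_intCast]
  have hq : q.Prime := Fact.out
  have hd0 : d ≠ 0 := hd.ne_zero
  have h1 : 1 ≤ padicValInt q d := by
    by_contra hlt
    have h0 : padicValInt q d = 0 := by omega
    have h2 := (padicValInt_dvd_iff (p := q) 1 d).1 (by simpa using hqd)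
    rcases h2 with h2 | h2
    · exact hd0 h2
    · omega
  have h2 : padicValInt q d < 2 := by
    by_contra hge
    have h3 : ((q : ℤ)) ^ 2 ∣ d := (padicValInt_dvd_iff (p := q) 2 d).2 (Or.inr (by omega))
    rw [pow_two] at h3
    have h4 := hd _ h3
    rw [Int.isUnit_iff] at h4
    have := hq.one_lt
    omega
  have h3 : padicValInt q d = 1 := by omega
  rw [h3]
  rfl

/-- E10: norms at ramified places -/
theorem norm_ram (q : ℕ) [Fact q.Prime] (hq : q ≠ 2) (d : ℤ) (hqd : (q : ℤ) ∣ d)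
    (hd : Squarefree d) (r X Y : ℚ) (hr : r ≠ 0) (h : r = X ^ 2 - d * Y ^ 2) :
    Sq q r ∨ Sq q (-d * r) := by
  have hd0 : d ≠ 0 := hd.ne_zero
  have hval := nr_val q d hqd hd
  have hD0 : ((d : ℤ) : ℚ_[q]) ≠ 0 := by exact_mod_cast hd0
  have hr' : (r : ℚ_[q]) = (X : ℚ_[q]) ^ 2 - (d : ℚ_[q]) * (Y : ℚ_[q]) ^ 2 := by
    rw [h]
    push_cast
    ring
  have hr0 : (r : ℚ_[q]) ≠ 0 := by exact_mod_cast hr
  generalize (X : ℚ_[q]) = x at hr'
  generalize (Y : ℚ_[q]) = y at hr'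
  rcases lt_trichotomy ‖(d : ℚ_[q]) * y ^ 2‖ ‖x ^ 2‖ with h1 | h1 | h1
  · left
    have hx0 : x ≠ 0 := by
      rintro rfl
      rw [zero_pow two_ne_zero, norm_zero] at h1
      exact absurd h1 (not_lt.2 (norm_nonneg _))
    have hx2 : x ^ 2 ≠ 0 := pow_ne_zero 2 hx0
    have hz : ‖-((d : ℚ_[q]) * y ^ 2) / x ^ 2‖ < 1 := by
      rw [norm_div, norm_neg, div_lt_one (norm_pos_iff.2 hx2)]
      exact h1
    have h2 := isSquare_one_add hq _ hz
    unfold Sq
    have h3 : (r : ℚ_[q]) = x ^ 2 * (1 + -((d : ℚ_[q]) * y ^ 2) / x ^ 2) := by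
      rw [hr']
      field_simp
      ring
    rw [h3]
    exact (IsSquare.sq x).mul h2
  · exfalso
    have hx0 : x ≠ 0 := by
      rintro rfl
      have h2 : (d : ℚ_[q]) * y ^ 2 = 0 := by
        rw [← norm_eq_zero, h1]
        simp
      rw [h2] at hr'
      apply hr0
      rw [hr']
      ring
    have hy0 : y ≠ 0 := by
      rintro rfl
      have h2 : x ^ 2 = 0 := by
        rw [← norm_eq_zero, ← h1]
        simp
      exact hx0 (pow_eq_zero_iff (two_ne_zero)|>.1 h2)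
    have hx2 : x ^ 2 ≠ 0 := pow_ne_zero 2 hx0
    have hy2 : (d : ℚ_[q]) * y ^ 2 ≠ 0 := mul_ne_zero hD0 (pow_ne_zero 2 hy0)
    rw [Padic.norm_eq_zpow_neg_valuation hx2, Padic.norm_eq_zpow_neg_valuation hy2] at h1
    have hq1 : (1 : ℝ) < q := by exact_mod_cast (Fact.out : q.Prime).one_lt
    have h3 := zpow_right_injective₀ (by linarith) (by linarith : (q : ℝ) ≠ 1).symm.symm h1
    rw [Padic.valuation_mul hD0 (pow_ne_zero 2 hy0), hval, Padic.valuation_pow,
      Padic.valuation_pow] at h3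
    omega
  · right
    have hy0 : (d : ℚ_[q]) * y ^ 2 ≠ 0 := by
      intro h0
      rw [h0, norm_zero] at h1
      exact absurd h1 (not_lt.2 (norm_nonneg _))
    have hy1 : y ≠ 0 := by
      rintro rfl
      simp at hy0
    have hz : ‖-(x ^ 2) / ((d : ℚ_[q]) * y ^ 2)‖ < 1 := by
      rw [norm_div, norm_neg, div_lt_one (norm_pos_iff.2 hy0)]
      exact h1
    have h2 := isSquare_one_add hq _ hz
    unfold Sq
    have h3 : ((-(d : ℚ) * r : ℚ) : ℚ_[q]) =
        ((d : ℚ_[q]) * y) ^ 2 * (1 + -(x ^ 2) / ((d : ℚ_[q]) * y ^ 2)) := by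
      push_cast
      rw [hr']
      field_simp
      ring
    rw [h3]
    exact (IsSquare.sq _).mul h2

end X15
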