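import Pool.Agent.Lib.MP_87c685_nt_X15.Defs

open NumberField WeierstrassCurve

namespace X15

open Finset NumberTheorySymbols

theorem rp_prod (a : ℤ) (S : Finset ℕ) (h : ∀ q ∈ S, q ≠ 0) :
    jacobiSym a (∏ q ∈ S, q) = ∏ q ∈ S, jacobiSym a q := by
  classical
  induction S using Finset.induction_on with
  | empty => simp
  | insert q S hq ih =>
    have h1 : q ≠ 0 := h q (mem_insert_self q S)
    have h2 : ∏ q ∈ S, q ≠ 0 := prod_ne_zero_iff.2 fun r hr => h r (mem_insert_of_mem hr)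
    have : NeZero q := ⟨h1⟩
    have : NeZero (∏ q ∈ S, q) := ⟨h2⟩
    rw [prod_insert hq, prod_insert hq, jacobiSym.mul_right,
      ih fun r hr => h r (mem_insert_of_mem hr)]

theorem rp_primeFactors (a : ℤ) {N : ℕ} (hN : Squarefree N) :
    jacobiSym a N = ∏ q ∈ N.primeFactors, jacobiSym a q := by
  conv_lhs => rw [← Nat.prod_primeFactors_of_squarefree hN]
  exact rp_prod a _ fun q hq => (Nat.prime_of_mem_primeFactors hq).ne_zero

theorem rp_one (a : ℤ) {N : ℕ} (hN : Squarefree N)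
    (h : ∀ q : ℕ, q.Prime → q ∣ N → jacobiSym a q = 1) : jacobiSym a N = 1 := by
  rw [rp_primeFactors a hN]
  exact prod_eq_one fun q hq => h q (Nat.prime_of_mem_primeFactors hq)
    (Nat.dvd_of_mem_primeFactors hq)

theorem rp_of_square {q : ℕ} (hq : q.Prime) {a : ℤ} (h0 : ¬ (q : ℤ) ∣ a)
    (h : IsSquare (a : ZMod q)) : jacobiSym a q = 1 := by
  have : Fact q.Prime := ⟨hq⟩
  rw [← jacobiSym.legendreSym.to_jacobiSym]
  refine (legendreSym.eq_one_iff q ?_).2 h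
  rw [Ne, ZMod.intCast_zmod_eq_zero_iff_dvd]
  exact h0

theorem rp_rec1 (b : ℤ) (hb : b % 4 = 1) (N : ℕ) (hN : Odd N) :
    jacobiSym b N = jacobiSym (N : ℤ) b.natAbs := by
  rcases Int.natAbs_eq b with h | h
  · have h4 : b.natAbs % 4 = 1 := by omega
    conv_lhs => rw [h]
    exact jacobiSym.quadratic_reciprocity_one_mod_four h4 hN
  · have h4 : b.natAbs % 4 = 3 := by omega
    conv_lhs => rw [h]
    rw [jacobiSym.neg _ hN]
    have hN2 : N % 2 = 1 := Nat.odd_iff.mp hN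
    have hN4 : N % 4 = 1 ∨ N % 4 = 3 := by omega
    have hodd : Odd b.natAbs := by rw [Nat.odd_iff]; omega
    rcases hN4 with h1 | h3
    · rw [ZMod.χ₄_nat_one_mod_four h1, one_mul]
      rw [jacobiSym.quadratic_reciprocity_one_mod_four h1 hodd]
    · rw [ZMod.χ₄_nat_three_mod_four h3, neg_mul, one_mul,
        jacobiSym.quadratic_reciprocity_three_mod_four h4 h3, neg_neg]

/-- The case of a common factor: if `g b'` is `1` modulo `4`, then `(-b' | g) = (g | |b'|)`. -/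
theorem rp_rec2 (b' : ℤ) (g : ℕ) (h : (g * b') % 4 = 1) :
    jacobiSym (-b') g = jacobiSym (g : ℤ) b'.natAbs := by
  have hg2 : g % 2 = 1 := by
    rcases Nat.even_or_odd g with he | ho
    · obtain ⟨k, rfl⟩ := he
      exfalso
      have : (((k + k : ℕ) : ℤ) * b') = 2 * (k * b') := by push_cast; ring
      rw [this] at h; omega
    · exact Nat.odd_iff.mp ho
  have hgo : Odd g := Nat.odd_iff.mpr hg2
  have hg4 : (g : ℤ) % 4 = 1 ∨ (g : ℤ) % 4 = 3 := by omega
  have hb4 : b' % 4 = (g : ℤ) % 4 := by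
    rw [Int.mul_emod] at h
    have h1 : b' % 4 = 0 ∨ b' % 4 = 1 ∨ b' % 4 = 2 ∨ b' % 4 = 3 := by omega
    rcases hg4 with h0 | h0 <;> rcases h1 with h1 | h1 | h1 | h1 <;>
      rw [h0, h1] at h <;> first | (exfalso; revert h; decide) | rw [h0, h1]
  rcases hg4 with h0 | h0
  · rw [h0] at hb4
    have hg1 : g % 4 = 1 := by omega
    rw [jacobiSym.neg _ hgo, ZMod.χ₄_nat_one_mod_four hg1, one_mul, rp_rec1 b' hb4 g hgo]
  · rw [h0] at hb4
    have hb5 : (-b') % 4 = 1 := by omega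
    rw [rp_rec1 (-b') hb5 g hgo, Int.natAbs_neg]

/-- The main reciprocity step. -/
theorem rp_rec3 (b' : ℤ) (g p m : ℕ) (t : ℤ) (h : (g * b') % 4 = 1) (hpm : Odd (p * m))
    (ht : jacobiSym t (g * b').natAbs = 1)
    (h1 : jacobiSym (t * (p * m) * g) b'.natAbs = 1)
    (h2 : jacobiSym (g * b') m = 1)
    (h3 : jacobiSym (-b' * (t * (p * m))) g = 1)
    (hb0 : b' ≠ 0) (hg0 : g ≠ 0) (hp0 : p ≠ 0) (hm0 : m ≠ 0) :
    jacobiSym (g * b') p = 1 := by
  have : NeZero b'.natAbs := ⟨by simpa using hb0⟩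
  have : NeZero g := ⟨hg0⟩
  have : NeZero p := ⟨hp0⟩
  have : NeZero m := ⟨hm0⟩
  have e0 : jacobiSym (g * b') (p * m) = jacobiSym (g * b') p := by
    rw [jacobiSym.mul_right, h2, mul_one]
  have e1 : jacobiSym (g * b') (p * m) = jacobiSym ((p * m : ℕ) : ℤ) (g * b').natAbs :=
    rp_rec1 _ h _ hpm
  have e2 : ((g : ℤ) * b').natAbs = g * b'.natAbs := by
    rw [Int.natAbs_mul, Int.natAbs_natCast]
  rw [e2, jacobiSym.mul_right _ g b'.natAbs] at e1
  rw [e2, jacobiSym.mul_right] at ht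
  rw [jacobiSym.mul_left, jacobiSym.mul_left] at h1
  rw [jacobiSym.mul_left, jacobiSym.mul_left, rp_rec2 b' g h] at h3
  push_cast at e1
  rw [← e0, e1]
  have hall : (jacobiSym t g * jacobiSym t b'.natAbs) *
      (jacobiSym t b'.natAbs * jacobiSym (↑p * ↑m) b'.natAbs * jacobiSym (↑g) b'.natAbs) *
      (jacobiSym (↑g) b'.natAbs * (jacobiSym t g * jacobiSym (↑p * ↑m) g)) = 1 := by
    rw [ht, h1, h3]; norm_num
  have hn1 : jacobiSym t b'.natAbs ≠ 0 := by
    intro h0; rw [h0] at ht; simp at ht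
  have hn2 : jacobiSym t g ≠ 0 := by
    intro h0; rw [h0] at ht; simp at ht
  have hn3 : jacobiSym (g : ℤ) b'.natAbs ≠ 0 := by
    intro h0; rw [h0] at h3; simp at h3
  have sq : ∀ a : ℤ, ∀ k : ℕ, jacobiSym a k ≠ 0 → jacobiSym a k * jacobiSym a k = 1 := by
    intro a k hk
    rcases jacobiSym.trichotomy a k with h | h | h
    · exact absurd h hk
    · rw [h]; norm_num
    · rw [h]; norm_num
  have q1 := sq _ _ hn1
  have q2 := sq _ _ hn2
  have q3 := sq _ _ hn3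
  calc jacobiSym (↑p * ↑m) g * jacobiSym (↑p * ↑m) b'.natAbs
      = (jacobiSym t g * jacobiSym t g) * (jacobiSym t b'.natAbs * jacobiSym t b'.natAbs) *
        (jacobiSym (↑g) b'.natAbs * jacobiSym (↑g) b'.natAbs) *
        (jacobiSym (↑p * ↑m) g * jacobiSym (↑p * ↑m) b'.natAbs) := by rw [q1, q2, q3]; ring
    _ = _ := by rw [← hall]; ring

/-- The form with `m = t g m'`, `b = g b'`. -/
theorem rp_core (b' : ℤ) (g m' t p : ℕ) (hp : p.Prime) (hp2 : p ≠ 2)
    (hb : Squarefree ((g : ℤ) * b')) (hm : Squarefree (t * g * m'))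
    (hb4 : (g * b') % 4 = 1) (hm'o : Odd m') (hto : t = 1 ∨ (t = 2 ∧ (g * b') % 8 = 1))
    (hgcd : ∀ q : ℕ, q.Prime → (q : ℤ) ∣ g * b' → q ∣ t * g * m' → q ∣ g)
    (hpb : ¬ (p : ℤ) ∣ g * b') (hpm : ¬ p ∣ t * g * m')
    (h1 : ∀ q : ℕ, q.Prime → (q : ℤ) ∣ g * b' → ¬ q ∣ t * g * m' →
      IsSquare ((p * (t * g * m') : ℕ) : ZMod q))
    (h2 : ∀ q : ℕ, q.Prime → q ≠ 2 → q ∣ t * g * m' → ¬ (q : ℤ) ∣ g * b' →
      IsSquare (((g * b' : ℤ)) : ZMod q))
    (h3 : ∀ q : ℕ, q.Prime → (q : ℤ) ∣ g * b' → q ∣ t * g * m' →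
      IsSquare ((-((g * b') / q) * (p * (t * g * m') / q : ℕ) : ℤ) : ZMod q)) :
    IsSquare (((g * b' : ℤ)) : ZMod p) := by
  have hgb0 : (g : ℤ) * b' ≠ 0 := hb.ne_zero
  have hg0 : g ≠ 0 := by rintro rfl; simp at hgb0
  have hb0 : b' ≠ 0 := by rintro rfl; simp at hgb0
  have hm0 : t * g * m' ≠ 0 := hm.ne_zero
  have hm'0 : m' ≠ 0 := by rintro rfl; simp at hm0
  have ht0 : t ≠ 0 := by rintro rfl; simp at hm0
  have hbn : Squarefree (g * b'.natAbs) := by
    have := Int.squarefree_natAbs.2 hb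
    rwa [Int.natAbs_mul, Int.natAbs_natCast] at this
  have hsb' : Squarefree b'.natAbs := hbn.squarefree_of_dvd (dvd_mul_left _ _)
  have hsg : Squarefree g := hbn.squarefree_of_dvd (dvd_mul_right _ _)
  have hsm' : Squarefree m' := hm.squarefree_of_dvd (dvd_mul_left _ _)
  have hcop1 : Nat.Coprime g b'.natAbs := Nat.coprime_of_squarefree_mul hbn
  have hcop2 : Nat.Coprime (t * g) m' := Nat.coprime_of_squarefree_mul hm
  have hpp := hp
  have hpo : Odd p := hp.odd_of_ne_two hp2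
  have hodd : ∀ q : ℕ, (q : ℤ) ∣ g * b' → q ≠ 2 := by
    rintro q hq rfl
    have : (2 : ℤ) ∣ g * b' := hq
    omega
  have ndv : ∀ q : ℕ, q.Prime → ∀ a c : ℕ, Nat.Coprime a c → q ∣ a → ¬ q ∣ c := by
    intro q hq a c hac h1 h2
    have := Nat.dvd_gcd h1 h2
    rw [hac] at this
    exact hq.one_lt.ne' (Nat.dvd_one.1 this)
  have R := rp_rec3 b' g p m' (t : ℤ) hb4 (hpo.mul hm'o) ?_ ?_ ?_ ?_ hb0 hg0 hp.ne_zero hm'0
  · have : Fact p.Prime := ⟨hp⟩
    rw [← jacobiSym.legendreSym.to_jacobiSym] at R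
    refine (legendreSym.eq_one_iff p ?_).1 R
    rw [Ne, ZMod.intCast_zmod_eq_zero_iff_dvd]
    exact hpb
  · rcases hto with rfl | ⟨rfl, h8⟩
    · simp
    · have ho : Odd ((g : ℤ) * b').natAbs := by rw [Nat.odd_iff]; omega
      have : ((2 : ℕ) : ℤ) = 2 := rfl
      rw [this, jacobiSym.at_two ho, ZMod.χ₈_nat_eq_if_mod_eight]
      have h10 : ((g : ℤ) * b').natAbs % 8 = 1 ∨ ((g : ℤ) * b').natAbs % 8 = 7 := by omega
      rcases h10 with h | h <;> simp [h] <;> omega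
  · refine rp_one _ hsb' fun q hq hqb => ?_
    have hqb1 : (q : ℤ) ∣ b' := Int.natCast_dvd.2 hqb
    have hqb2 : (q : ℤ) ∣ g * b' := hqb1.mul_left _
    have hqg : ¬ q ∣ g := ndv q hq _ _ hcop1.symm hqb
    have hqm : ¬ q ∣ t * g * m' := fun h => hqg (hgcd q hq hqb2 h)
    have hqp : ¬ q ∣ p := by
      intro h
      rw [Nat.prime_dvd_prime_iff_eq hq hp] at h
      exact hpb (h ▸ hqb2)
    have e : ((t : ℤ) * (p * m') * g) = ((p * (t * g * m') : ℕ) : ℤ) := by push_cast; ring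
    rw [e]
    refine rp_of_square hq ?_ (by exact_mod_cast h1 q hq hqb2 hqm)
    intro h
    have h' : q ∣ p * (t * g * m') := by exact_mod_cast h
    rcases (Nat.Prime.dvd_mul hq).1 h' with h | h
    · exact hqp h
    · exact hqm h
  · refine rp_one _ hsm' fun q hq hqm => ?_
    have hqm2 : q ∣ t * g * m' := hqm.mul_left _
    have hq2 : q ≠ 2 := by
      rintro rfl
      exact (Nat.not_even_iff_odd.2 hm'o) (even_iff_two_dvd.2 hqm)
    have hqtg : ¬ q ∣ t * g := ndv q hq _ _ hcop2.symm hqm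
    have hqb : ¬ (q : ℤ) ∣ g * b' := by
      intro h
      exact hqtg ((hgcd q hq h hqm2).mul_left _)
    exact rp_of_square hq hqb (h2 q hq hq2 hqm2 hqb)
  · refine rp_one _ hsg fun q hq hqg => ?_
    obtain ⟨g', rfl⟩ := hqg
    have hqb : (q : ℤ) ∣ ((q * g' : ℕ) : ℤ) * b' := by
      push_cast; exact ⟨g' * b', by ring⟩
    have hqm : q ∣ t * (q * g') * m' := ⟨t * g' * m', by ring⟩
    have hq0 : (q : ℤ) ≠ 0 := by exact_mod_cast hq.ne_zero
    have hs := h3 q hq hqb hqm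
    have e1 : (((q * g' : ℕ) : ℤ) * b') / q = g' * b' := by
      push_cast
      rw [show (q : ℤ) * g' * b' = q * (g' * b') by ring, Int.mul_ediv_cancel_left _ hq0]
    have e2 : p * (t * (q * g') * m') / q = p * (t * g' * m') := by
      rw [show p * (t * (q * g') * m') = q * (p * (t * g' * m')) by ring,
        Nat.mul_div_cancel_left _ hq.pos]
    rw [e1, e2] at hs
    have hqg' : ¬ q ∣ g' := by
      intro h
      obtain ⟨r, rfl⟩ := h
      have := hsg q ⟨r, by ring⟩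
      exact hq.one_lt.ne' (Nat.isUnit_iff.1 this)
    have hqb' : ¬ (q : ℤ) ∣ b' := by
      intro h
      have h' : q ∣ b'.natAbs := Int.natCast_dvd.1 h
      exact ndv q hq _ _ hcop1 (dvd_mul_right q g') h'
    have hqt : ¬ q ∣ t := by
      intro h
      rcases hto with rfl | ⟨rfl, -⟩
      · exact hq.one_lt.ne' (Nat.dvd_one.1 h)
      · exact hodd q hqb ((Nat.prime_dvd_prime_iff_eq hq Nat.prime_two).1 h)
    have hqm' : ¬ q ∣ m' := ndv q hq _ _ hcop2 ⟨t * g', by ring⟩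
    have hqp : ¬ q ∣ p := by
      intro h
      rw [Nat.prime_dvd_prime_iff_eq hq hp] at h
      subst h
      exact hpm hqm
    have hprime : Prime (q : ℤ) := Nat.prime_iff_prime_int.1 hq
    have nz : ∀ a : ℕ, ¬ q ∣ a → ¬ (q : ℤ) ∣ a := fun a h h' => h (by exact_mod_cast h')
    have hnd : ¬ (q : ℤ) ∣ -b' * (t * (p * m')) := by
      intro h
      rcases hprime.dvd_or_dvd h with h | h
      · exact hqb' ((dvd_neg).1 h)
      · rcases hprime.dvd_or_dvd h with h | h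
        · exact nz t hqt h
        · rcases hprime.dvd_or_dvd h with h | h
          · exact nz p hqp h
          · exact nz m' hqm' h
    have e3 : ((-(g' * b') * ((p * (t * g' * m') : ℕ) : ℤ)) : ℤ) =
        (-b' * (t * (p * m'))) * (g' ^ 2) := by push_cast; ring
    have hall : jacobiSym ((-b' * (t * (p * m'))) * (g' ^ 2)) q = 1 := by
      refine rp_of_square hq ?_ ?_
      · intro h
        rcases hprime.dvd_or_dvd h with h | h
        · exact hnd h
        · exact nz g' hqg' (hprime.dvd_of_dvd_pow h)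
      · rw [← e3]; exact hs
    rw [jacobiSym.mul_left, jacobiSym.sq_one' (by
      have : IsCoprime ((g' : ℕ) : ℤ) (q : ℤ) := by
        rw [Nat.isCoprime_iff_coprime]
        exact ((Nat.Prime.coprime_iff_not_dvd hq).2 hqg').symm
      exact Int.isCoprime_iff_gcd_eq_one.1 this), mul_one] at hall
    exact hall

/-- E8: consequence of reciprocity -/
theorem recip (b : ℤ) (m p : ℕ) (hp : p.Prime) (hp2 : p ≠ 2) (hb : Squarefree b)
    (hm : Squarefree m) (hb4 : b % 4 = 1) (h8 : 2 ∣ m → b % 8 = 1) (hpb : ¬ (p : ℤ) ∣ b)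
    (hpm : ¬ p ∣ m)
    (h1 : ∀ q : ℕ, q.Prime → (q : ℤ) ∣ b → ¬ q ∣ m → IsSquare ((p * m : ℕ) : ZMod q))
    (h2 : ∀ q : ℕ, q.Prime → q ≠ 2 → q ∣ m → ¬ (q : ℤ) ∣ b → IsSquare (b : ZMod q))
    (h3 : ∀ q : ℕ, q.Prime → (q : ℤ) ∣ b → q ∣ m →
      IsSquare ((-(b / q) * (p * m / q : ℕ) : ℤ) : ZMod q)) :
    IsSquare (b : ZMod p) := by
  -- the power of two
  obtain ⟨t, mo, rfl, hmo, ht⟩ : ∃ t mo : ℕ, m = t * mo ∧ Odd mo ∧ (t = 1 ∨ (t = 2 ∧ b % 8 = 1)) := by
    rcases Nat.even_or_odd m with he | ho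
    · obtain ⟨k, hk⟩ := even_iff_two_dvd.1 he
      refine ⟨2, k, hk, ?_, Or.inr ⟨rfl, h8 (even_iff_two_dvd.1 he)⟩⟩
      by_contra hne
      rw [Nat.not_odd_iff_even] at hne
      obtain ⟨l, hl⟩ := even_iff_two_dvd.1 hne
      have := hm 2 ⟨l, by rw [hk, hl]; ring⟩
      exact absurd (Nat.isUnit_iff.1 this) (by norm_num)
    · exact ⟨1, m, by rw [one_mul], ho, Or.inl rfl⟩
  obtain ⟨b', hb'⟩ : ((Nat.gcd b.natAbs mo : ℕ) : ℤ) ∣ b :=
    Int.natCast_dvd.2 (Nat.gcd_dvd_left _ _)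
  obtain ⟨m', hm'⟩ : Nat.gcd b.natAbs mo ∣ mo := Nat.gcd_dvd_right _ _
  generalize hg : Nat.gcd b.natAbs mo = g at hb' hm'
  have hgcd : ∀ q : ℕ, q.Prime → (q : ℤ) ∣ b → q ∣ t * mo → q ∣ g := by
    intro q hq hqb hqm
    rw [← hg]
    refine Nat.dvd_gcd (Int.natCast_dvd.1 hqb) ?_
    rcases (Nat.Prime.dvd_mul hq).1 hqm with h | h
    · exfalso
      rcases ht with rfl | ⟨rfl, -⟩
      · exact hq.one_lt.ne' (Nat.dvd_one.1 h)
      · have : q = 2 := (Nat.prime_dvd_prime_iff_eq hq Nat.prime_two).1 h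
        subst this
        have : (2 : ℤ) ∣ b := hqb
        omega
    · exact h
  subst hb' hm'
  have hm'o : Odd m' := (Nat.odd_mul.1 hmo).2
  have e : t * (g * m') = t * g * m' := by ring
  rw [e] at hm hpm
  simp only [e] at hgcd h1 h2 h3
  exact rp_core b' g m' t p hp hp2 hb hm hb4 hm'o ht hgcd hpb hpm h1 h2 h3

end X15
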