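import Pool.Agent.Lib.MP_87c685_nt_X15.PadicSq
import Pool.Agent.Lib.MP_87c685_nt_X15.NormPow
import Pool.Agent.Lib.MP_87c685_nt_X15.NormMul
import Pool.Agent.Lib.MP_87c685_nt_X15.Recip
import Pool.Agent.Lib.MP_87c685_nt_X15.Dir
import Pool.Agent.Lib.MP_87c685_nt_X15.NormRam

open NumberField WeierstrassCurve

namespace X15

/-- an integer exactly divisible by `q` is not a `q`-adic square -/
theorem bt_odd (q : ℕ) [hq : Fact q.Prime] (r : ℤ) (h : (q : ℤ) ∣ r)
    (h2 : ¬ ((q : ℤ) * q) ∣ r) : ¬ Sq q (r : ℚ) := by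
  intro hS
  have h1 := even_valuation _ hS
  rw [Rat.cast_intCast, Padic.valuation_intCast] at h1
  have hr0 : r ≠ 0 := fun h0 => h2 (h0 ▸ dvd_zero _)
  have hv : padicValInt q r = 1 := by
    apply le_antisymm
    · by_contra hc
      push Not at hc
      apply h2
      have := (padicValInt_dvd_iff 2 r).2 (Or.inr hc)
      rwa [pow_two] at this
    · have := (padicValInt_dvd_iff 1 r).1 (by simpa using h)
      rcases this with h | h
      · exact absurd h hr0
      · exact h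
  rw [hv] at h1
  norm_num at h1

/-- two squarefree integers whose product is a square -/
theorem bt_sq (b d : ℤ) (hb : Squarefree b) (hd : Squarefree d) (h : IsSquare (b * d)) :
    b = d := by
  obtain ⟨f, hf⟩ := h
  have hb0 : b ≠ 0 := hb.ne_zero
  have hd0 : d ≠ 0 := hd.ne_zero
  have h1 : b ∣ f := by
    rw [← hb.dvd_pow_iff_dvd (two_ne_zero), pow_two, ← hf]
    exact dvd_mul_right _ _
  have h2 : d ∣ f := by
    rw [← hd.dvd_pow_iff_dvd (two_ne_zero), pow_two, ← hf]
    exact dvd_mul_left _ _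
  have h3 : b ∣ d := by
    have : b * b ∣ b * d := by
      rw [hf]
      exact mul_dvd_mul h1 h1
    exact (mul_dvd_mul_iff_left hb0).1 this
  have h4 : d ∣ b := by
    have : d * d ∣ b * d := by
      rw [hf]
      exact mul_dvd_mul h2 h2
    exact (mul_dvd_mul_iff_right hd0).1 this
  rcases Int.associated_iff.1 (associated_of_dvd_dvd h3 h4) with h5 | h5
  · exact h5
  · exfalso
    rw [h5] at hf
    have h6 : 0 < d * d := mul_self_pos.2 hd0
    nlinarith [mul_self_nonneg f]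

theorem bt_one (b : ℤ) (hb : Squarefree b) (h : IsSquare b) : b = 1 := by
  have := bt_sq b 1 hb squarefree_one (by simpa using h)
  exact this

/-- the main case -/
theorem bt_main (K : Type*) [Field K] [NumberField K] (h2 : Module.finrank ℚ K = 2)
    (d : ℤ) (hd : Squarefree d) (hneg : d < 0) (s : K) (hs : s ^ 2 = (d : K))
    (hcl : ∀ c : ClassGroup (𝓞 K), orderOf c ≠ 4) (b : ℤ) (hb : CondB d b)
    (hb4 : b % 4 = 1) (hb8 : d % 4 ≠ 1 → b % 8 = 1) :
    b = 1 ∨ b = d := by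
  by_contra hcon
  push Not at hcon
  obtain ⟨hb1, hbd⟩ := hcon
  have hb0 : b ≠ 0 := hb.sqf.ne_zero
  have hd0 : d ≠ 0 := hd.ne_zero
  have n1 : ¬ IsSquare b := fun h => hb1 (bt_one b hb.sqf h)
  have n2 : ¬ IsSquare d := fun h => by
    have := h.nonneg
    omega
  have n3 : ¬ IsSquare (b * d) := fun h => hbd (bt_sq b d hb.sqf hd h)
  obtain ⟨p, hpp, hpN, hpd, hpb⟩ := exists_prime_split b d n1 n2 n3 (2 * b * d).natAbs
  have : Fact p.Prime := ⟨hpp⟩
  have hbig : ∀ z : ℤ, z ≠ 0 → z ∣ 2 * b * d → ¬ (p : ℤ) ∣ z := by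
    intro z hz hzd hpz
    have e1 : (p : ℤ) ∣ 2 * b * d := hpz.trans hzd
    have e2 : p ∣ (2 * b * d).natAbs := Int.natCast_dvd.1 e1
    have e3 : (2 * b * d).natAbs ≠ 0 := by
      rw [Int.natAbs_ne_zero]
      positivity
    exact absurd (Nat.le_of_dvd (Nat.pos_of_ne_zero e3) e2) (by omega)
  have hp2 : p ≠ 2 := by
    intro h
    refine hbig 2 two_ne_zero ⟨b * d, by ring⟩ ?_
    rw [h]
    norm_num
  have hpb' : ¬ (p : ℤ) ∣ b := hbig b hb0 ⟨2 * d, by ring⟩
  have hpd' : ¬ (p : ℤ) ∣ d := hbig d hd0 ⟨2 * b, by ring⟩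
  obtain ⟨k, hk, a, w, haw, hpa⟩ := exists_norm_pow K h2 d hd hneg s hs hcl p hp2 hpd' hpd
  obtain ⟨m, hm, X, Y, hXY⟩ := exists_norm_mul d hd hneg p hpp hp2 hpd' k hk a w haw hpa
  have hmn : ((m.natAbs : ℕ) : ℤ) = m := Int.natAbs_of_nonneg hm.pos.le
  have hm0 : m ≠ 0 := hm.pos.ne'
  have hpm : ¬ (p : ℤ) ∣ m := fun h => hpd' (hm.dvd p hpp hp2 h)
  have hp0 : (p : ℤ) ≠ 0 := by exact_mod_cast hpp.ne_zero
  have hr0 : (((p : ℤ) * m : ℤ) : ℚ) ≠ 0 := by
    exact_mod_cast mul_ne_zero hp0 hm0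
  have hXY' : (((p : ℤ) * m : ℤ) : ℚ) = X ^ 2 - d * Y ^ 2 := by
    push_cast
    exact hXY
  -- a prime divisor of `b` is odd
  have hqb : ∀ q : ℕ, q.Prime → (q : ℤ) ∣ b → q ≠ 2 := by
    intro q _ hqb h
    rw [h] at hqb
    obtain ⟨c, hc⟩ := hqb
    push_cast at hc
    omega
  have hsqf : ∀ (q : ℕ) (z : ℤ), q.Prime → Squarefree z → ¬ ((q : ℤ) * q) ∣ z := by
    intro q z hq hz h
    have := hz _ h
    rw [Int.isUnit_iff] at this
    have := hq.two_le
    omega
  -- exact divisibility of a product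
  have hprod : ∀ (q : ℕ) (z w : ℤ), q.Prime → Squarefree z → ¬ (q : ℤ) ∣ w →
      ¬ ((q : ℤ) * q) ∣ z * w := by
    intro q z w hq hz hw h
    apply hsqf q z hq hz
    have hc : IsCoprime ((q : ℤ) * q) w := by
      have : IsCoprime (q : ℤ) w :=
        ((Nat.prime_iff_prime_int.1 hq).coprime_iff_not_dvd).2 hw
      exact this.mul_left this
    exact hc.dvd_of_dvd_mul_right h
  have hqmul : ∀ (q : ℕ) (z w : ℤ), q.Prime → (q : ℤ) ∣ z * w → (q : ℤ) ∣ z ∨ (q : ℤ) ∣ w := by
    intro q z w hq h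
    exact (Nat.prime_iff_prime_int.1 hq).dvd_or_dvd h
  have hqp : ∀ q : ℕ, q.Prime → q ≠ p → ¬ (q : ℤ) ∣ (p : ℤ) := by
    intro q hq hne h
    have := (Nat.prime_dvd_prime_iff_eq hq hpp).1 (Int.natCast_dvd_natCast.1 h)
    exact hne this
  apply hpb
  refine recip b m.natAbs p hpp hp2 hb.sqf (Int.squarefree_natAbs.2 hm.sqf) hb4 ?_ hpb' ?_
    ?_ ?_ ?_
  · intro h
    apply hb8
    apply hm.two
    have := Int.natCast_dvd_natCast.2 h
    rw [hmn] at this
    exact_mod_cast this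
  · intro h
    apply hpm
    have := Int.natCast_dvd_natCast.2 h
    rwa [hmn] at this
  · intro q hq hqb' hqm
    have : Fact q.Prime := ⟨hq⟩
    have hq2 := hqb q hq hqb'
    have hqd : (q : ℤ) ∣ d := hb.dvd q hq hq2 hqb'
    have hqne : q ≠ p := by
      rintro rfl
      exact hpb' hqb'
    have hqm' : ¬ (q : ℤ) ∣ m := by
      intro h
      apply hqm
      rw [← hmn] at h
      exact Int.natCast_dvd_natCast.1 h
    have hqpm : ¬ (q : ℤ) ∣ (p : ℤ) * m := by
      intro h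
      rcases hqmul q _ _ hq h with h | h
      · exact hqp q hq hqne h
      · exact hqm' h
    have hsq : Sq q (((p : ℤ) * m : ℤ) : ℚ) := by
      rcases norm_ram q hq2 d hqd hd _ X Y hr0 hXY' with h | h
      · exact h
      · exfalso
        refine bt_odd q (-d * ((p : ℤ) * m)) ?_ ?_ (by push_cast at h ⊢; exact h)
        · exact Dvd.dvd.mul_right ((dvd_neg).2 hqd) _
        · rw [neg_mul, dvd_neg]
          exact hprod q d _ hq hd hqpm
    have := (sq_int_iff hq2 _ hqpm).1 hsq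
    have e : (((p * m.natAbs : ℕ) : ℤ) : ZMod q) = (((p : ℤ) * m : ℤ) : ZMod q) := by
      rw [Nat.cast_mul, hmn]
    rw [← e] at this
    exact_mod_cast this
  · intro q hq hq2 hqm hqb'
    have : Fact q.Prime := ⟨hq⟩
    have hqm' : (q : ℤ) ∣ m := by
      rw [← hmn]
      exact Int.natCast_dvd_natCast.2 hqm
    have hqd : (q : ℤ) ∣ d := hm.dvd q hq hq2 hqm'
    rcases hb.loc q hq2 hqd with h | h
    · exact (sq_int_iff hq2 _ hqb').1 h
    · exfalso
      refine bt_odd q (d * b) ?_ ?_ (by push_cast; rw [mul_comm]; exact h)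
      · exact Dvd.dvd.mul_right hqd _
      · exact hprod q d _ hq hd hqb'
  · intro q hq hqb' hqm
    have : Fact q.Prime := ⟨hq⟩
    have hq2 := hqb q hq hqb'
    have hqd : (q : ℤ) ∣ d := hb.dvd q hq hq2 hqb'
    have hqne : q ≠ p := by
      rintro rfl
      exact hpb' hqb'
    have hqm' : (q : ℤ) ∣ m := by
      rw [← hmn]
      exact Int.natCast_dvd_natCast.2 hqm
    have hq0 : (q : ℤ) ≠ 0 := by exact_mod_cast hq.ne_zero
    have h1 : Sq q ((b : ℚ) * d) := by
      rcases hb.loc q hq2 hqd with h | h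
      · exact absurd h (bt_odd q b hqb' (hsqf q b hq hb.sqf))
      · exact h
    have h2' : Sq q (-(d : ℚ) * (((p : ℤ) * m : ℤ) : ℚ)) := by
      rcases norm_ram q hq2 d hqd hd _ X Y hr0 hXY' with h | h
      · refine absurd h (bt_odd q _ (Dvd.dvd.mul_left hqm' _) ?_)
        rw [mul_comm (p : ℤ) m]
        exact hprod q m _ hq hm.sqf (hqp q hq hqne)
      · exact h
    obtain ⟨b', hb'⟩ := hqb'
    obtain ⟨m', hm'⟩ := hqm'
    have hb'q : ¬ (q : ℤ) ∣ b' := by
      intro h
      apply hsqf q b hq hb.sqf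
      rw [hb']
      exact mul_dvd_mul_left _ h
    have hm'q : ¬ (q : ℤ) ∣ m' := by
      intro h
      apply hsqf q m hq hm.sqf
      rw [hm']
      exact mul_dvd_mul_left _ h
    have h3 := h1.mul h2'
    have e3 : (b : ℚ) * d * (-(d : ℚ) * (((p : ℤ) * m : ℤ) : ℚ)) =
        ((-b' * (p * m') : ℤ) : ℚ) * ((q : ℚ) * d) ^ 2 := by
      rw [hb', hm']
      push_cast
      ring
    have hqd0 : (q : ℚ) * d ≠ 0 := by
      have : ((q : ℤ) : ℚ) * ((d : ℤ) : ℚ) ≠ 0 := by
        exact_mod_cast mul_ne_zero hq0 hd0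
      exact_mod_cast this
    rw [e3, sq_mul_sq_iff _ _ hqd0] at h3
    have hnd : ¬ (q : ℤ) ∣ -b' * (p * m') := by
      intro h
      rcases hqmul q _ _ hq h with h | h
      · exact hb'q ((dvd_neg).1 h)
      · rcases hqmul q _ _ hq h with h | h
        · exact hqp q hq hqne h
        · exact hm'q h
    have h4 := (sq_int_iff hq2 _ hnd).1 h3
    have e4 : b / (q : ℤ) = b' := by
      rw [hb', Int.mul_ediv_cancel_left _ hq0]
    have e5 : ((p * m.natAbs / q : ℕ) : ℤ) = p * m' := by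
      rw [Int.natCast_div, Nat.cast_mul, hmn, hm']
      rw [show (p : ℤ) * (q * m') = q * (p * m') by ring, Int.mul_ediv_cancel_left _ hq0]
    rw [e4, e5]
    exact h4

/-- E11: `S2` is trivial -/
theorem b_trivial (K : Type*) [Field K] [NumberField K] (h2 : Module.finrank ℚ K = 2)
    (d : ℤ) (hd : Squarefree d) (hneg : d < 0) (s : K) (hs : s ^ 2 = (d : K))
    (hcl : ∀ c : ClassGroup (𝓞 K), orderOf c ≠ 4) (b : ℤ) (hb : CondB d b) :
    b = 1 ∨ b = d := by
  by_cases hd4 : d % 4 = 1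
  · exact bt_main K h2 d hd hneg s hs hcl b hb (hb.one hd4) (fun h => absurd hd4 h)
  have hd0 : d ≠ 0 := hd.ne_zero
  have hb0 : b ≠ 0 := hb.sqf.ne_zero
  have hodd : ∀ z : ℤ, Squarefree z → Sq 2 z → z % 8 = 1 := by
    intro z hz hS
    have hz2 : z % 2 = 1 := by
      by_contra hc
      have hz2 : (2 : ℤ) ∣ z := by omega
      refine bt_odd 2 z (by exact_mod_cast hz2) ?_ hS
      intro h
      have := hz _ h
      rw [Int.isUnit_iff] at this
      omega
    exact (sq_two_iff z hz2).1 hS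
  rcases hb.two hd4 with h | h
  · have h8 := hodd b hb.sqf h
    exact bt_main K h2 d hd hneg s hs hcl b hb (by omega) (fun _ => h8)
  · obtain ⟨g, b1, d1, hg, hcop, hb1, hd1⟩ : ∃ g b1 d1 : ℤ, g ≠ 0 ∧ IsCoprime b1 d1 ∧
        b = b1 * g ∧ d = d1 * g := by
      obtain ⟨b1, d1, hc, hg1, hg2⟩ := Int.exists_gcd_one (Int.gcd_pos_of_ne_zero_left d hb0)
      refine ⟨_, b1, d1, ?_, Int.isCoprime_iff_gcd_eq_one.2 hc, hg1, hg2⟩
      exact_mod_cast (Int.gcd_pos_of_ne_zero_left d hb0).ne'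
    have hgq : (g : ℚ) ≠ 0 := by exact_mod_cast hg
    have hsq' : Squarefree (b1 * d1) := by
      rw [squarefree_mul_iff]
      refine ⟨hcop.isRelPrime, ?_, ?_⟩
      · exact hb.sqf.squarefree_of_dvd ⟨g, hb1⟩
      · exact hd.squarefree_of_dvd ⟨g, hd1⟩
    have hS2 : Sq 2 (((b1 * d1 : ℤ) : ℚ)) := by
      rw [← sq_mul_sq_iff _ _ hgq]
      have : ((b1 * d1 : ℤ) : ℚ) * (g : ℚ) ^ 2 = b * d := by
        rw [hb1, hd1]
        push_cast
        ring
      rw [this]
      exact h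
    have h8 := hodd _ hsq' hS2
    have hcb : CondB d (b1 * d1) := by
      refine ⟨hsq', ?_, fun h => absurd h hd4, ?_, fun _ => Or.inl hS2⟩
      · intro q hq hq2 hqd
        rcases (Nat.prime_iff_prime_int.1 hq).dvd_or_dvd hqd with h | h
        · exact hb.dvd q hq hq2 (hb1 ▸ Dvd.dvd.mul_right h _)
        · exact hd1 ▸ Dvd.dvd.mul_right h _
      · intro q _ hq2 hqd
        rcases hb.loc q hq2 hqd with h | h
        · right
          rw [← sq_mul_sq_iff _ _ hgq]
          have : ((b1 * d1 : ℤ) : ℚ) * d * (g : ℚ) ^ 2 = b * (d : ℚ) ^ 2 := by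
            rw [hb1]
            nth_rewrite 2 [hd1]
            nth_rewrite 1 [hd1]
            push_cast
            ring
          rw [this]
          exact h.mul (Sq.sq _)
        · left
          rw [← sq_mul_sq_iff _ _ hgq]
          have : ((b1 * d1 : ℤ) : ℚ) * (g : ℚ) ^ 2 = b * d := by
            rw [hb1, hd1]
            push_cast
            ring
          rw [this]
          exact h
    rcases bt_main K h2 d hd hneg s hs hcl _ hcb (by omega) (fun _ => h8) with h9 | h9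
    · right
      apply bt_sq b d hb.sqf hd
      refine ⟨g, ?_⟩
      rw [hb1, hd1]
      linear_combination (g * g) * h9
    · left
      apply bt_one b hb.sqf
      refine ⟨g, ?_⟩
      have : d * b = d * (g * g) := by
        nth_rewrite 1 [hd1]
        rw [hb1]
        linear_combination (g * g) * h9
      exact mul_left_cancel₀ hd0 this

end X15
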