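import Mathlib

/-!
Project X15 (MP_87c685_nt): `X_0(15)(K)` is finite for explicit imaginary quadratic fields `K`.
-/

open NumberField WeierstrassCurve

namespace X15

/-- The curve `y^2 = x (x + 9 d) (x - 16 d)`. -/
def E (F : Type*) [Field F] (d : F) : WeierstrassCurve F := ⟨0, -7 * d, 0, -144 * d ^ 2, 0⟩

/-- `r` is a square in `ℚ_p`. -/
def Sq (p : ℕ) [Fact p.Prime] (r : ℚ) : Prop := IsSquare (r : ℚ_[p])

theorem Sq.mul {p : ℕ} [Fact p.Prime] {a b : ℚ} (ha : Sq p a) (hb : Sq p b) : Sq p (a * b) := by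
  unfold Sq at *
  push_cast
  exact IsSquare.mul ha hb

theorem Sq.of_mul {p : ℕ} [Fact p.Prime] {a b : ℚ} (ha0 : a ≠ 0) (ha : Sq p a)
    (hab : Sq p (a * b)) : Sq p b := by
  unfold Sq at *
  push_cast at hab
  have h0 : (a : ℚ_[p]) ≠ 0 := by exact_mod_cast ha0
  have h1 : (b : ℚ_[p]) = ((a : ℚ_[p]) * (b : ℚ_[p])) * (a : ℚ_[p])⁻¹ := by field_simp
  rw [h1]
  exact IsSquare.mul hab (IsSquare.inv ha)

theorem Sq.sq {p : ℕ} [Fact p.Prime] (a : ℚ) : Sq p (a ^ 2) := by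
  unfold Sq
  push_cast
  exact IsSquare.sq _

theorem sq_mul_sq_iff {p : ℕ} [Fact p.Prime] (a z : ℚ) (hz : z ≠ 0) :
    Sq p (a * z ^ 2) ↔ Sq p a := by
  constructor
  · intro h
    rw [mul_comm] at h
    exact Sq.of_mul (pow_ne_zero 2 hz) (Sq.sq z) h
  · intro h
    exact h.mul (Sq.sq z)

/-- the conditions on the class of `x + 9 d` -/
structure CondB (d b : ℤ) : Prop where
  sqf : Squarefree b
  dvd : ∀ q : ℕ, q.Prime → q ≠ 2 → (q : ℤ) ∣ b → (q : ℤ) ∣ d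
  one : d % 4 = 1 → b % 4 = 1
  loc : ∀ (q : ℕ) [Fact q.Prime], q ≠ 2 → (q : ℤ) ∣ d → Sq q b ∨ Sq q (b * d)
  two : d % 4 ≠ 1 → Sq 2 b ∨ Sq 2 (b * d)

/-- the conditions on the class of `x - 16 d` -/
structure CondM (d m : ℤ) : Prop where
  pos : 0 < m
  sqf : Squarefree m
  dvd : ∀ q : ℕ, q.Prime → q ≠ 2 → (q : ℤ) ∣ m → (q : ℤ) ∣ d
  two : (2 : ℤ) ∣ m → d % 4 ≠ 1

end X15
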