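import Pool.Agent.Lib.MP_87c685_nt_X15.Conj

open NumberField WeierstrassCurve

namespace X15

private theorem exd_root (K : Type*) [Field K] [NumberField K]
    (h2 : Module.finrank ℚ K = 2) : ∃ (t : K) (r : ℚ), t ^ 2 = (r : K) ∧
      ∀ q : ℚ, t ≠ (q : K) := by
  have hx : ∃ x : K, x ∉ (algebraMap ℚ K).range := by
    by_contra h
    push Not at h
    have h1 : (⊥ : Subalgebra ℚ K) = ⊤ := by
      rw [eq_top_iff]
      intro x _
      exact Algebra.mem_bot.2 (h x)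
    have h3 := Subalgebra.bot_eq_top_iff_finrank_eq_one.1 h1
    omega
  obtain ⟨x, hx⟩ := hx
  have hint : IsIntegral ℚ x := Algebra.IsIntegral.isIntegral x
  have hd : (minpoly ℚ x).natDegree ∣ 2 := by
    have := minpoly.degree_dvd hint
    rwa [h2] at this
  have hd1 : (minpoly ℚ x).natDegree ≠ 1 := fun h => hx (minpoly.natDegree_eq_one_iff.1 h)
  have hd2 : (minpoly ℚ x).natDegree = 2 := by
    have := (Nat.dvd_prime Nat.prime_two).1 hd
    tauto
  have hm := minpoly.aeval ℚ x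
  rw [Polynomial.aeval_eq_sum_range, hd2] at hm
  have hc : (minpoly ℚ x).coeff 2 = 1 := by
    have := minpoly.monic hint
    rw [Polynomial.Monic, Polynomial.leadingCoeff, hd2] at this
    exact this
  simp only [Finset.sum_range_succ, Finset.range_zero, Finset.sum_empty, zero_add, pow_zero,
    pow_one, hc, one_smul] at hm
  set b := (minpoly ℚ x).coeff 0 with hb
  set a := (minpoly ℚ x).coeff 1 with ha
  have hm' : (b : K) + (a : K) * x + x ^ 2 = 0 := by
    have e1 : b • (1 : K) = (b : K) := by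
      rw [Algebra.smul_def, mul_one]; rfl
    have e2 : a • x = (a : K) * x := by
      rw [Algebra.smul_def]; rfl
    rw [e1, e2] at hm
    exact hm
  refine ⟨x + ((a / 2 : ℚ) : K), a ^ 2 / 4 - b, ?_, ?_⟩
  · push_cast
    have : x ^ 2 = -(b : K) - (a : K) * x := by linear_combination hm'
    ring_nf
    rw [this]
    ring
  · intro q hq
    apply hx
    refine ⟨q - a / 2, ?_⟩
    have : x = (q : K) - ((a / 2 : ℚ) : K) := by rw [← hq]; ring
    rw [this]
    simp [map_sub, map_div₀]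

private theorem exd_sqf (K : Type*) [Field K] [NumberField K]
    (h2 : Module.finrank ℚ K = 2) : ∃ (d : ℤ) (s : K), Squarefree d ∧ s ^ 2 = (d : K) ∧
      ∀ q : ℚ, s ≠ (q : K) := by
  obtain ⟨t, r, ht, hq⟩ := exd_root K h2
  have hr0 : r ≠ 0 := by
    rintro rfl
    have : t = 0 := by
      have : t ^ 2 = 0 := by rw [ht]; simp
      exact pow_eq_zero_iff (two_ne_zero) |>.1 this
    exact hq 0 (by rw [this]; simp)
  obtain ⟨a, b, hab, ha⟩ := Nat.sq_mul_squarefree (r.num.natAbs * r.den)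
  have hN : r.num.natAbs * r.den ≠ 0 := by
    refine Nat.mul_ne_zero ?_ r.den_nz
    rw [Int.natAbs_ne_zero]
    exact Rat.num_ne_zero.2 hr0
  have hb0 : b ≠ 0 := by
    rintro rfl
    apply hN
    rw [← hab]; simp
  have hsgn : ∃ d : ℤ, Squarefree d ∧ (r.num * r.den : ℤ) = d * (b : ℤ) ^ 2 := by
    have habz : ((r.num.natAbs : ℤ)) * (r.den : ℤ) = (b : ℤ) ^ 2 * (a : ℤ) := by
      exact_mod_cast hab.symm
    rcases Int.natAbs_eq r.num with h | h
    · refine ⟨(a : ℤ), Int.squarefree_natCast.2 ha, ?_⟩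
      rw [h, habz]; ring
    · refine ⟨-(a : ℤ), ?_, ?_⟩
      · rw [← Int.squarefree_natAbs, Int.natAbs_neg, Int.natAbs_natCast]
        exact ha
      · rw [h]
        have : -(r.num.natAbs : ℤ) * (r.den : ℤ) = -((r.num.natAbs : ℤ) * (r.den : ℤ)) := by ring
        rw [this, habz]; ring
  obtain ⟨d, hd, hdb⟩ := hsgn
  have hden : (r.den : K) ≠ 0 := by exact_mod_cast r.den_nz
  have hbK : (b : K) ≠ 0 := by exact_mod_cast hb0
  have hrK : (r : K) * (r.den : K) ^ 2 = (d : K) * (b : K) ^ 2 := by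
    have h1 : r * (r.den : ℚ) ^ 2 = (d : ℚ) * (b : ℚ) ^ 2 := by
      have h3 : r * (r.den : ℚ) = (r.num : ℚ) := Rat.mul_den_eq_num r
      have h4 : (r.num : ℚ) * (r.den : ℚ) = (d : ℚ) * (b : ℚ) ^ 2 := by exact_mod_cast hdb
      calc r * (r.den : ℚ) ^ 2 = (r * (r.den : ℚ)) * (r.den : ℚ) := by ring
        _ = _ := by rw [h3, h4]
    exact_mod_cast congrArg (fun y : ℚ => (y : K)) h1
  refine ⟨d, t * (r.den : K) / (b : K), hd, ?_, ?_⟩
  · field_simp
    rw [ht]
    linear_combination hrK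
  · intro q hq'
    apply hq (q * b / r.den)
    rw [div_eq_iff hbK] at hq'
    push_cast
    rw [eq_div_iff hden]
    exact hq'

private theorem exd_span (K : Type*) [Field K] [NumberField K]
    (h2 : Module.finrank ℚ K = 2) (s : K) (hs : ∀ q : ℚ, s ≠ (q : K)) (y : K) :
    ∃ a b : ℚ, y = (a : K) + (b : K) * s := by
  have hli : LinearIndependent ℚ ![(1 : K), s] := by
    rw [LinearIndependent.pair_iff]
    intro u v huv
    have huv' : (u : K) + (v : K) * s = 0 := by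
      have e1 : u • (1 : K) = (u : K) := by rw [Algebra.smul_def, mul_one]; rfl
      have e2 : v • s = (v : K) * s := by rw [Algebra.smul_def]; rfl
      rw [e1, e2] at huv
      exact huv
    by_cases hv : v = 0
    · subst hv
      refine ⟨?_, rfl⟩
      simpa using huv'
    · exfalso
      have hvK : (v : K) ≠ 0 := by exact_mod_cast hv
      apply hs (-u / v)
      push_cast
      rw [eq_div_iff hvK]
      linear_combination huv'
  have htop := hli.span_eq_top_of_card_eq_finrank (by rw [h2]; simp)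
  have hy : y ∈ Submodule.span ℚ (Set.range ![(1 : K), s]) := by rw [htop]; trivial
  simp only [Matrix.range_cons, Matrix.range_empty, Set.union_empty, Set.singleton_union] at hy
  obtain ⟨a, b, hab⟩ := Submodule.mem_span_pair.1 hy
  refine ⟨a, b, ?_⟩
  rw [← hab]
  have e1 : a • (1 : K) = (a : K) := by rw [Algebra.smul_def, mul_one]; rfl
  have e2 : b • s = (b : K) * s := by rw [Algebra.smul_def]; rfl
  rw [e1, e2]

private theorem exd_neg (K : Type*) [Field K] [NumberField K] [IsTotallyComplex K]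
    (h2 : Module.finrank ℚ K = 2) (d : ℤ) (s : K) (hs2 : s ^ 2 = (d : K))
    (hs : ∀ q : ℚ, s ≠ (q : K)) : d < 0 := by
  by_contra hd
  push Not at hd
  obtain ⟨φ⟩ : Nonempty (K →+* ℂ) := inferInstance
  have hφs : (starRingEnd ℂ) (φ s) = φ s := by
    have h3 : (φ s) ^ 2 = ((d : ℝ) : ℂ) := by
      rw [← map_pow, hs2]; simp
    have h4 : (φ s) ^ 2 = ((Real.sqrt d : ℝ) : ℂ) ^ 2 := by
      rw [h3, ← Complex.ofReal_pow, Real.sq_sqrt (by exact_mod_cast hd)]
    rcases sq_eq_sq_iff_eq_or_eq_neg.1 h4 with h | h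
    · rw [h, Complex.conj_ofReal]
    · rw [h, map_neg, Complex.conj_ofReal]
  have hreal : ComplexEmbedding.IsReal φ := by
    rw [ComplexEmbedding.isReal_iff]
    ext y
    obtain ⟨a, b, rfl⟩ := exd_span K h2 s hs y
    rw [ComplexEmbedding.conjugate_coe_eq]
    simp only [map_add, map_mul, map_ratCast, hφs]
  have h5 : (InfinitePlace.mk φ).IsReal := ⟨φ, hreal, rfl⟩
  have h6 : (InfinitePlace.mk φ).IsComplex := IsTotallyComplex.isComplex _
  exact (InfinitePlace.not_isReal_iff_isComplex.2 h6) h5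

private theorem exd_lin (K : Type*) [Field K] [NumberField K] (s : K)
    (hs : ∀ q : ℚ, s ≠ (q : K)) (a b a' b' : ℤ)
    (h : (a : K) + (b : K) * s = (a' : K) + (b' : K) * s) : a = a' ∧ b = b' := by
  by_cases hb : b = b'
  · subst hb
    refine ⟨?_, rfl⟩
    have : (a : K) = (a' : K) := by linear_combination h
    exact_mod_cast this
  · exfalso
    have hb0 : ((b - b' : ℤ) : K) ≠ 0 := by
      have : b - b' ≠ 0 := sub_ne_zero.2 hb
      exact_mod_cast this
    apply hs ((a' - a : ℤ) / (b - b' : ℤ) : ℚ)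
    push_cast at hb0 ⊢
    rw [eq_div_iff hb0]
    linear_combination h

private theorem exd_three (K : Type*) [Field K] [NumberField K]
    (h2 : Module.finrank ℚ K = 2) (d : ℤ) (s : K) (hd : Squarefree d) (hneg : d < 0)
    (hs2 : s ^ 2 = (d : K)) (hs : ∀ q : ℚ, s ≠ (q : K)) (hd3 : d % 3 = 2) :
    (Ideal.span {(3 : 𝓞 K)}).IsPrime := by
  have h30 : (3 : 𝓞 K) ≠ 0 := by
    intro h
    have : ((3 : 𝓞 K) : K) = 0 := by rw [h]; simp
    simp at this
  have hint : IsIntegral ℤ s := by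
    refine IsIntegral.of_pow (n := 2) (by norm_num) ?_
    rw [hs2]
    exact isIntegral_algebraMap (R := ℤ) (A := K) (x := d)
  set S : 𝓞 K := ⟨s, hint⟩ with hS
  have key : ∀ α : 𝓞 K, 3 ∣ Ideal.absNorm (Ideal.span {α}) → (3 : 𝓞 K) ∣ α := by
    intro α hα
    obtain ⟨a, w, h4, h5, -⟩ := norm_form K h2 d hd hneg s hs2 α
    obtain ⟨k, hk⟩ := hα
    have h6 : a ^ 2 - d * w ^ 2 = 3 * (4 * (k : ℤ)) := by
      rw [h5, hk]; push_cast; ring
    have h7 : (3 : ℤ) ∣ a ∧ (3 : ℤ) ∣ w := by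
      obtain ⟨e, he⟩ : ∃ e, d = 3 * e + 2 := ⟨d / 3, by omega⟩
      have h8 : (a ^ 2 + w ^ 2) % 3 = 0 := by
        have : a ^ 2 + w ^ 2 = 3 * (4 * (k : ℤ) + e * w ^ 2 + w ^ 2) := by
          rw [he] at h6
          linear_combination h6
        rw [this]
        omega
      have ha : a % 3 = 0 ∨ a % 3 = 1 ∨ a % 3 = 2 := by omega
      have hw : w % 3 = 0 ∨ w % 3 = 1 ∨ w % 3 = 2 := by omega
      rcases ha with ha | ha | ha <;> rcases hw with hw | hw | hw <;>
        simp [pow_two, Int.add_emod, Int.mul_emod, ha, hw] at h8 <;> omega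
    obtain ⟨⟨a', ha'⟩, ⟨w', hw'⟩⟩ := h7
    refine ⟨α - ((a' : 𝓞 K) + (w' : 𝓞 K) * S), ?_⟩
    apply RingOfIntegers.ext
    have h9 : (S : K) = s := rfl
    simp only [map_mul, map_sub, map_add, map_intCast, map_ofNat]
    have h10 : (algebraMap (𝓞 K) K) S = s := rfl
    rw [h10]
    have h11 : 2 * (algebraMap (𝓞 K) K) α = (a : K) + (w : K) * s := h4
    rw [ha', hw'] at h11
    push_cast at h11
    linear_combination (-1 : K) * h11
  rw [Ideal.span_singleton_prime h30]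
  refine ⟨h30, ?_, ?_⟩
  · intro hu
    obtain ⟨u, hu⟩ := isUnit_iff_exists_inv.1 hu
    obtain ⟨a, w, h4, -, -⟩ := norm_form K h2 d hd hneg s hs2 u
    have h5 : (3 : K) * (u : K) = 1 := by
      have := congrArg (algebraMap (𝓞 K) K) hu
      rw [map_mul, map_ofNat, map_one] at this
      exact this
    have h6 : ((3 * a : ℤ) : K) + ((3 * w : ℤ) : K) * s = ((2 : ℤ) : K) + ((0 : ℤ) : K) * s := by
      push_cast
      linear_combination (-3 : K) * h4 + 2 * h5
    have := exd_lin K s hs _ _ _ _ h6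
    omega
  · intro α β hαβ
    obtain ⟨γ, hγ⟩ := hαβ
    have h4 : Ideal.absNorm (Ideal.span {α}) * Ideal.absNorm (Ideal.span {β}) =
        Ideal.absNorm (Ideal.span {(3 : 𝓞 K)}) * Ideal.absNorm (Ideal.span {γ}) := by
      rw [← map_mul, ← map_mul, Ideal.span_singleton_mul_span_singleton,
        Ideal.span_singleton_mul_span_singleton, hγ]
    have h5 : 3 ∣ Ideal.absNorm (Ideal.span {(3 : 𝓞 K)}) := by
      obtain ⟨a, w, h6, h7, -⟩ := norm_form K h2 d hd hneg s hs2 3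
      have h8 : (a : K) + (w : K) * s = ((6 : ℤ) : K) + ((0 : ℤ) : K) * s := by
        rw [← h6]
        simp only [map_ofNat]
        push_cast
        ring
      obtain ⟨ha, hw⟩ := exd_lin K s hs _ _ _ _ h8
      rw [ha, hw] at h7
      refine ⟨3, ?_⟩
      have : (4 : ℤ) * (Ideal.absNorm (Ideal.span {(3 : 𝓞 K)}) : ℤ) = 36 := by
        rw [← h7]; ring
      omega
    have h6 : 3 ∣ Ideal.absNorm (Ideal.span {α}) * Ideal.absNorm (Ideal.span {β}) := by
      rw [h4]; exact Dvd.dvd.mul_right h5 _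
    rcases (Nat.Prime.dvd_mul Nat.prime_three).1 h6 with h | h
    · exact Or.inl (key α h)
    · exact Or.inr (key β h)

private theorem exd_five (K : Type*) [Field K] [NumberField K]
    (h2 : Module.finrank ℚ K = 2) (d : ℤ) (s : K) (hd : Squarefree d) (hneg : d < 0)
    (hs2 : s ^ 2 = (d : K)) (hs : ∀ q : ℚ, s ≠ (q : K)) (r : ℤ) (hr : (5 : ℤ) ∣ r ^ 2 - d)
    (hr5 : ¬ (5 : ℤ) ∣ 2 * r) (h5 : ∃! P : Ideal (𝓞 K), P.IsPrime ∧ (5 : 𝓞 K) ∈ P) :
    False := by
  have hint : IsIntegral ℤ s := by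
    refine IsIntegral.of_pow (n := 2) (by norm_num) ?_
    rw [hs2]
    exact isIntegral_algebraMap (R := ℤ) (A := K) (x := d)
  set S : 𝓞 K := ⟨s, hint⟩ with hS
  have hSK : (algebraMap (𝓞 K) K) S = s := rfl
  have hSS : S ^ 2 = (d : 𝓞 K) := by
    apply RingOfIntegers.ext
    simp only [map_pow, map_intCast]
    rw [hSK]
    exact hs2
  obtain ⟨m, hm⟩ := hr
  have hprop : ∀ e : ℤ, e ^ 2 = 1 →
      (Ideal.span {(5 : 𝓞 K), (r : 𝓞 K) - (e : 𝓞 K) * S}) ≠ ⊤ := by
    intro e he htop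
    have h1 : (1 : 𝓞 K) ∈ Ideal.span {(5 : 𝓞 K), (r : 𝓞 K) - (e : 𝓞 K) * S} := by
      rw [htop]; trivial
    obtain ⟨u, v, huv⟩ := Ideal.mem_span_pair.1 h1
    have h3 : (r : 𝓞 K) + (e : 𝓞 K) * S =
        5 * (u * ((r : 𝓞 K) + (e : 𝓞 K) * S) + v * (m : 𝓞 K)) := by
      have hm' : (r : 𝓞 K) ^ 2 - (d : 𝓞 K) = 5 * (m : 𝓞 K) := by
        exact_mod_cast congrArg (fun y : ℤ => (y : 𝓞 K)) hm
      have he' : (e : 𝓞 K) ^ 2 = 1 := by exact_mod_cast congrArg (fun y : ℤ => (y : 𝓞 K)) he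
      linear_combination (-((r : 𝓞 K) + (e : 𝓞 K) * S)) * huv + v * hm' +
        (- v * (e : 𝓞 K) ^ 2) * hSS + (- v * (d : 𝓞 K)) * he'
    obtain ⟨a, w, h4, -, -⟩ := norm_form K h2 d hd hneg s hs2
      (u * ((r : 𝓞 K) + (e : 𝓞 K) * S) + v * (m : 𝓞 K))
    have h5' : (r : K) + (e : K) * s =
        5 * (algebraMap (𝓞 K) K (u * ((r : 𝓞 K) + (e : 𝓞 K) * S) + v * (m : 𝓞 K))) := by
      have := congrArg (algebraMap (𝓞 K) K) h3
      simp only [map_mul, map_add, map_intCast, map_ofNat] at this ⊢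
      rw [hSK] at this ⊢
      exact this
    have h6 : ((2 * r : ℤ) : K) + ((2 * e : ℤ) : K) * s =
        ((5 * a : ℤ) : K) + ((5 * w : ℤ) : K) * s := by
      push_cast
      have h7 : 2 * (algebraMap (𝓞 K) K (u * ((r : 𝓞 K) + (e : 𝓞 K) * S) + v * (m : 𝓞 K))) =
        (a : K) + (w : K) * s := h4
      linear_combination 2 * h5' + 5 * h7
    obtain ⟨h8, -⟩ := exd_lin K s hs _ _ _ _ h6
    exact hr5 ⟨a, h8⟩
  obtain ⟨M1, hM1, hJ1⟩ := Ideal.exists_le_maximal _ (hprop 1 (by norm_num))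
  obtain ⟨M2, hM2, hJ2⟩ := Ideal.exists_le_maximal _ (hprop (-1) (by norm_num))
  have a1 : (5 : 𝓞 K) ∈ M1 := hJ1 (Ideal.subset_span (by simp))
  have a2 : (5 : 𝓞 K) ∈ M2 := hJ2 (Ideal.subset_span (by simp))
  have b1 : (r : 𝓞 K) - ((1 : ℤ) : 𝓞 K) * S ∈ M1 := hJ1 (Ideal.subset_span (by simp))
  have b2 : (r : 𝓞 K) - ((-1 : ℤ) : 𝓞 K) * S ∈ M2 := hJ2 (Ideal.subset_span (by simp))
  have heq : M1 = M2 := h5.unique ⟨hM1.isPrime, a1⟩ ⟨hM2.isPrime, a2⟩
  rw [← heq] at b2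
  have c1 : ((2 * r : ℤ) : 𝓞 K) ∈ M1 := by
    have := M1.add_mem b1 b2
    have e : (r : 𝓞 K) - ((1 : ℤ) : 𝓞 K) * S + ((r : 𝓞 K) - ((-1 : ℤ) : 𝓞 K) * S) =
        ((2 * r : ℤ) : 𝓞 K) := by push_cast; ring
    rwa [e] at this
  have hco : IsCoprime (2 * r) (5 : ℤ) := by
    refine (Int.isCoprime_iff_gcd_eq_one.2 ?_)
    have : Int.gcd 5 (2 * r) = 1 := by
      rw [← Int.isCoprime_iff_gcd_eq_one]
      exact (Prime.coprime_iff_not_dvd (Int.prime_iff_natAbs_prime.2 (by norm_num))).2 hr5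
    rw [Int.gcd_comm]; exact this
  obtain ⟨x, y, hxy⟩ := hco
  have c2 : (1 : 𝓞 K) ∈ M1 := by
    have e : (1 : 𝓞 K) = (x : 𝓞 K) * ((2 * r : ℤ) : 𝓞 K) + (y : 𝓞 K) * 5 := by
      have := congrArg (fun z : ℤ => (z : 𝓞 K)) hxy
      push_cast at this ⊢
      exact this.symm
    rw [e]
    exact M1.add_mem (M1.mul_mem_left _ c1) (M1.mul_mem_left _ a1)
  exact hM1.ne_top ((Ideal.eq_top_iff_one _).2 c2)

/-- F4 -/
theorem exists_d (K : Type*) [Field K] [NumberField K] [IsTotallyComplex K]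
    (h2 : Module.finrank ℚ K = 2) (h3 : ¬ (Ideal.span {(3 : 𝓞 K)}).IsPrime)
    (h5 : ∃! P : Ideal (𝓞 K), P.IsPrime ∧ (5 : 𝓞 K) ∈ P) :
    ∃ (d : ℤ) (s : K), Squarefree d ∧ d < 0 ∧ s ^ 2 = (d : K) ∧ d % 3 ≠ 2 ∧
      (d % 5 ≠ 1 ∧ d % 5 ≠ 4) := by
  obtain ⟨d, s, hd, hs2, hs⟩ := exd_sqf K h2
  have hneg := exd_neg K h2 d s hs2 hs
  refine ⟨d, s, hd, hneg, hs2, ?_, ?_, ?_⟩
  · exact fun h => h3 (exd_three K h2 d s hd hneg hs2 hs h)
  · intro h
    exact exd_five K h2 d s hd hneg hs2 hs 1 (by omega) (by omega) h5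
  · intro h
    exact exd_five K h2 d s hd hneg hs2 hs 2 (by omega) (by omega) h5

end X15
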