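import Pool.Agent.Lib.MP_87c685_nt_X15.Grp
import Pool.Agent.Lib.MP_87c685_nt_X15.Conj
import Pool.Agent.Lib.MP_87c685_nt_X15.SqId
import Pool.Agent.Lib.MP_87c685_nt_X15.Ram

open NumberField WeierstrassCurve

namespace X15

/-- dividing a principal ideal by a principal ideal -/
theorem mt_prin {R : Type*} [CommRing R] [IsDedekindDomain R] (u : R) (hu : u ≠ 0)
    (A : Ideal R) (v : R) (h : Ideal.span {u} * A = Ideal.span {v}) :
    ∃ c, A = Ideal.span {c} := by
  have hv1 : v ∈ Ideal.span {v} := Ideal.mem_span_singleton_self v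
  rw [← h] at hv1
  obtain ⟨c, -, hc⟩ := Ideal.mem_span_singleton_mul.1 hv1
  refine ⟨c, ?_⟩
  have e : Ideal.span {u} * A = Ideal.span {u} * Ideal.span {c} := by
    rw [h, Ideal.span_singleton_mul_span_singleton, hc]
  exact (Ideal.span_singleton_mul_right_inj hu).1 e

/-- integers: `m t ^ 2 = 4` with `m` squarefree -/
theorem mt_four (m t : ℤ) (hm : Squarefree m) (hpos : 0 < m) (h : m * t ^ 2 = 4) : m = 1 := by
  have h1 : t ^ 2 ≤ 4 := by nlinarith [sq_nonneg t]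
  have h2 : t ≤ 2 := by nlinarith
  have h3 : -2 ≤ t := by nlinarith
  interval_cases t
  · omega
  · have : m = 2 * 2 := by omega
    exfalso
    have h5 := hm 2 (by rw [this])
    exact absurd (Int.isUnit_iff.1 h5) (by norm_num)
  · omega
  · have : m = 2 * 2 := by omega
    exfalso
    have h5 := hm 2 (by rw [this])
    exact absurd (Int.isUnit_iff.1 h5) (by norm_num)
  · omega

theorem mt_sq_pos (t : ℤ) (h : t ≠ 0) : 1 ≤ t ^ 2 := by
  have : 0 < t ^ 2 := by positivity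
  omega

/-- the elementary end -/
theorem mt_arith (d : ℤ) (hd : Squarefree d) (hneg : d < 0) (hd1 : d ≠ -1) (m : ℤ)
    (hm : CondM d m) (a w : ℤ) (h : a ^ 2 - d * w ^ 2 = 4 * m)
    (h4 : d % 4 ≠ 1 → (2 : ℤ) ∣ a ∧ (2 : ℤ) ∣ w) : m = 1 ∨ m = -d := by
  have hpos := hm.pos
  have hsqf := hm.sqf
  by_cases hmd : m ∣ d
  · obtain ⟨e, he⟩ := hmd
    have hma2 : m ∣ a ^ 2 := ⟨4 + e * w ^ 2, by rw [he] at h; linarith⟩
    have hma : m ∣ a := (hsqf.dvd_pow_iff_dvd (by norm_num)).1 hma2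
    obtain ⟨a2, ha2⟩ := hma
    obtain ⟨f, hf⟩ : ∃ f, f = -e := ⟨_, rfl⟩
    have hef : e = -f := by omega
    subst hef
    have hfpos : 0 < f := by nlinarith
    have h1 : m * a2 ^ 2 + f * w ^ 2 = 4 := by
      have : m * (m * a2 ^ 2 + f * w ^ 2) = m * 4 := by
        rw [ha2, he] at h
        linarith
      exact mul_left_cancel₀ hpos.ne' this
    have hfsq : Squarefree f := hd.squarefree_of_dvd ⟨-m, by rw [he]; ring⟩
    by_cases ha0 : a2 = 0
    · right
      have : f = 1 := mt_four f w hfsq hfpos (by rw [ha0] at h1; linarith)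
      rw [he, this]; ring
    by_cases hw0 : w = 0
    · left
      exact mt_four m a2 hsqf hpos (by rw [hw0] at h1; linarith)
    have hA := mt_sq_pos a2 ha0
    have hW := mt_sq_pos w hw0
    have hmf : m + f ≤ 4 := by nlinarith
    by_cases h41 : d % 4 = 1
    · have hm3 : m ≤ 3 := by omega
      have hf3 : f ≤ 3 := by omega
      interval_cases m <;> interval_cases f <;> omega
    · exfalso
      obtain ⟨-, w1, hw1⟩ := h4 h41
      have hw10 : w1 ≠ 0 := by rintro rfl; exact hw0 (by rw [hw1]; ring)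
      have := mt_sq_pos w1 hw10
      rw [hw1] at h1
      nlinarith
  · -- then `2 ∣ m` and `d` is odd
    exfalso
    have h2m : (2 : ℤ) ∣ m := by
      by_contra hcon
      apply hmd
      apply ram_dvd m d hsqf
      intro q hq hqm
      apply hm.dvd q hq _ hqm
      rintro rfl
      exact hcon (by exact_mod_cast hqm)
    have h2d : ¬ (2 : ℤ) ∣ d := by
      intro hcon
      apply hmd
      apply ram_dvd m d hsqf
      intro q hq hqm
      by_cases hq2 : q = 2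
      · subst hq2; exact_mod_cast hcon
      · exact hm.dvd q hq hq2 hqm
    have hd4 := hm.two h2m
    obtain ⟨m', hm'⟩ := h2m
    obtain ⟨⟨a1, ha1⟩, w1, hw1⟩ := h4 hd4
    have hm'sq : Squarefree m' := hsqf.squarefree_of_dvd ⟨2, by rw [hm']; ring⟩
    have hm'pos : 0 < m' := by omega
    have hm'odd : ¬ (2 : ℤ) ∣ m' := by
      rintro ⟨c, hc⟩
      have h5 := hsqf 2 ⟨c, by rw [hm', hc]; ring⟩
      exact absurd (Int.isUnit_iff.1 h5) (by norm_num)
    have hm'd : m' ∣ d := by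
      apply ram_dvd m' d hm'sq
      intro q hq hqm
      apply hm.dvd q hq _ (hqm.trans ⟨2, by rw [hm']; ring⟩)
      rintro rfl
      exact hm'odd (by exact_mod_cast hqm)
    obtain ⟨e, he⟩ := hm'd
    have h1 : a1 ^ 2 - d * w1 ^ 2 = 2 * m' := by
      rw [ha1, hw1, hm'] at h
      linarith
    have hma2 : m' ∣ a1 ^ 2 := ⟨2 + e * w1 ^ 2, by rw [he] at h1; linarith⟩
    have hma : m' ∣ a1 := (hm'sq.dvd_pow_iff_dvd (by norm_num)).1 hma2
    obtain ⟨a2, ha2⟩ := hma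
    obtain ⟨f, hf⟩ : ∃ f, f = -e := ⟨_, rfl⟩
    have hef : e = -f := by omega
    subst hef
    have hfpos : 0 < f := by nlinarith
    have hfodd : ¬ (2 : ℤ) ∣ f := fun hc => h2d (hc.trans ⟨-m', by rw [he]; ring⟩)
    have h3 : m' * a2 ^ 2 + f * w1 ^ 2 = 2 := by
      have : m' * (m' * a2 ^ 2 + f * w1 ^ 2) = m' * 2 := by
        rw [ha2, he] at h1
        linarith
      exact mul_left_cancel₀ hm'pos.ne' this
    have key : ∀ g t : ℤ, 0 < g → ¬ (2 : ℤ) ∣ g → g * t ^ 2 = 2 → False := by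
      intro g t hg hg2 hgt
      have ht2 : t ^ 2 ≤ 2 := by nlinarith [sq_nonneg t]
      have ht : t ≤ 1 := by nlinarith
      have ht' : -1 ≤ t := by nlinarith
      interval_cases t <;> omega
    by_cases ha0 : a2 = 0
    · exact key f w1 hfpos hfodd (by rw [ha0] at h3; linarith)
    by_cases hw0 : w1 = 0
    · exact key m' a2 hm'pos hm'odd (by rw [hw0] at h3; linarith)
    have hA := mt_sq_pos a2 ha0
    have hW := mt_sq_pos w1 hw0
    have hmf : m' + f ≤ 2 := by nlinarith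
    have e1 : m' = 1 := by omega
    have e2 : f = 1 := by omega
    apply hd1
    rw [he, e1, e2]; ring

/-- clearing denominators -/
theorem mt_clear (d m : ℤ) (X Y z : ℚ) (hz : z ≠ 0) (h : m * z ^ 2 = X ^ 2 - d * Y ^ 2) :
    ∃ (x y : ℤ) (c : ℕ), c ≠ 0 ∧ m * (c : ℤ) ^ 2 = x ^ 2 - d * y ^ 2 := by
  refine ⟨X.num * Y.den * z.den, Y.num * X.den * z.den, (z.num * X.den * Y.den).natAbs, ?_, ?_⟩
  · rw [Int.natAbs_ne_zero]
    have h1 : z.num ≠ 0 := Rat.num_ne_zero.2 hz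
    have h2 : (X.den : ℤ) ≠ 0 := by exact_mod_cast X.den_ne_zero
    have h3 : (Y.den : ℤ) ≠ 0 := by exact_mod_cast Y.den_ne_zero
    exact mul_ne_zero (mul_ne_zero h1 h2) h3
  · rw [Int.natCast_natAbs, sq_abs]
    have hx : (X.den : ℚ) ≠ 0 := by exact_mod_cast X.den_ne_zero
    have hy : (Y.den : ℚ) ≠ 0 := by exact_mod_cast Y.den_ne_zero
    have hzd : (z.den : ℚ) ≠ 0 := by exact_mod_cast z.den_ne_zero
    have eX : (X.num : ℚ) = X * X.den := (Rat.mul_den_eq_num X).symm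
    have eY : (Y.num : ℚ) = Y * Y.den := (Rat.mul_den_eq_num Y).symm
    have eZ : (z.num : ℚ) = z * z.den := (Rat.mul_den_eq_num z).symm
    have : (m : ℚ) * ((z.num : ℚ) * X.den * Y.den) ^ 2
        = ((X.num : ℚ) * Y.den * z.den) ^ 2 - d * ((Y.num : ℚ) * X.den * z.den) ^ 2 := by
      rw [eX, eY, eZ]
      linear_combination ((X.den : ℚ) * Y.den * z.den) ^ 2 * h
    exact_mod_cast this

/-- E5: `S3` is trivial -/
theorem m_trivial (K : Type*) [Field K] [NumberField K] (h2 : Module.finrank ℚ K = 2)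
    (d : ℤ) (hd : Squarefree d) (hneg : d < 0) (s : K) (hs : s ^ 2 = (d : K))
    (hd1 : d ≠ -1) (hcl : ∀ c : ClassGroup (𝓞 K), orderOf c ≠ 4)
    (m : ℤ) (hm : CondM d m) (X Y z : ℚ) (hz : z ≠ 0) (h : m * z ^ 2 = X ^ 2 - d * Y ^ 2) :
    m = 1 ∨ m = -d := by
  have hpos := hm.pos
  obtain ⟨x, y, c, hc, hxy⟩ := mt_clear d m X Y z hz h
  obtain ⟨M, hM, hMn⟩ := exists_ram_ideal K h2 d hd hneg s hs m hm
  obtain ⟨k, hk, hprin⟩ := exists_odd_principal K hcl
  -- the integral square root of `d`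
  have hint : IsIntegral ℤ s := by
    refine IsIntegral.of_pow (n := 2) (by norm_num) ?_
    rw [hs]
    exact isIntegral_algebraMap (R := ℤ) (A := K) (x := d)
  obtain ⟨S, hS⟩ : ∃ S : 𝓞 K, (S : K) = s := ⟨⟨s, hint⟩, rfl⟩
  obtain ⟨τ, hτ⟩ : ∃ τ : 𝓞 K, τ = (x : 𝓞 K) + (y : 𝓞 K) * S := ⟨_, rfl⟩
  have hτK : (τ : K) = (x : K) + (y : K) * s := by
    rw [hτ, ← hS]; push_cast; rfl
  obtain ⟨a, w, h2t, hnt, -⟩ := norm_form K h2 d hd hneg s hs τ
  have haw : ((2 * x : ℚ)) = (a : ℚ) ∧ ((2 * y : ℚ)) = (w : ℚ) := by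
    apply conj_uniq K d hneg s hs
    rw [hτK] at h2t
    push_cast
    linear_combination h2t
  have ha : a = 2 * x := by
    have := haw.1
    exact_mod_cast this.symm
  have hw : w = 2 * y := by
    have := haw.2
    exact_mod_cast this.symm
  have hN : (Ideal.absNorm (Ideal.span {τ}) : ℤ) = m * (c : ℤ) ^ 2 := by
    rw [ha, hw] at hnt
    linarith
  have hc' : (0 : ℤ) < (c : ℤ) := by exact_mod_cast Nat.pos_of_ne_zero hc
  have hτ0 : τ ≠ 0 := by
    rintro h0
    rw [h0, Ideal.span_singleton_eq_bot.2 rfl, Ideal.absNorm_bot] at hN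
    have : 0 < m * (c : ℤ) ^ 2 := by positivity
    rw [← hN] at this
    simp at this
  have hm0 : (m : 𝓞 K) ≠ 0 := by exact_mod_cast hpos.ne'
  have hM0 : M ≠ ⊥ := by
    rintro h0
    rw [h0] at hM
    have h5 : Ideal.span {(m : 𝓞 K)} = ⊥ := by
      rw [← hM]
      exact Ideal.bot_pow (by norm_num)
    exact hm0 (Ideal.span_singleton_eq_bot.1 h5)
  have hI0 : Ideal.span {τ} * M ≠ ⊥ := by
    intro h0
    rcases Ideal.mul_eq_bot.1 h0 with h0 | h0
    · exact hτ0 (Ideal.span_singleton_eq_bot.1 h0)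
    · exact hM0 h0
  have hIn : Ideal.absNorm (Ideal.span {τ} * M) = (m.natAbs * c) ^ 2 := by
    rw [map_mul, hMn]
    have hmabs : (m.natAbs : ℤ) = m := Int.natAbs_of_nonneg hpos.le
    have : ((Ideal.absNorm (Ideal.span {τ}) * m.natAbs : ℕ) : ℤ)
        = (((m.natAbs * c) ^ 2 : ℕ) : ℤ) := by
      push_cast
      rw [hN, ← Int.natCast_natAbs, hmabs]
      ring
    exact_mod_cast this
  obtain ⟨J, hJ0, u, v, hu, hv, huv⟩ :=
    exists_sq_of_absNorm K h2 d hd hneg s hs (Ideal.span {τ} * M) hI0 _ hIn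
  obtain ⟨g, hg⟩ := (Submodule.isPrincipal_iff _).1 (hprin J hJ0)
  -- raise to the power `k`
  have e1 : Ideal.span {(u * τ) ^ k} * M ^ k = Ideal.span {v ^ k * g} := by
    have e2 : (Ideal.span {u} * (Ideal.span {τ} * M)) ^ k = (Ideal.span {v} * J ^ 2) ^ k := by
      rw [huv]
    rw [← mul_assoc, Ideal.span_singleton_mul_span_singleton, mul_pow, mul_pow,
      Ideal.span_singleton_pow, Ideal.span_singleton_pow, ← pow_mul] at e2
    rw [e2]
    have : J ^ (2 * k) = Ideal.span {g} := hg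
    rw [this, Ideal.span_singleton_mul_span_singleton]
  obtain ⟨γ1, hγ1⟩ := mt_prin ((u * τ) ^ k) (pow_ne_zero _ (mul_ne_zero hu hτ0)) _ _ e1
  obtain ⟨j, hj⟩ : ∃ j, k = 2 * j + 1 := ⟨k / 2, by omega⟩
  have e3 : Ideal.span {(m : 𝓞 K) ^ j} * M = Ideal.span {γ1} := by
    rw [← hγ1, hj, pow_add, pow_mul, hM, Ideal.span_singleton_pow, pow_one]
  obtain ⟨γ, hγ⟩ := mt_prin ((m : 𝓞 K) ^ j) (pow_ne_zero _ hm0) _ _ e3
  obtain ⟨a', w', -, hn', h4'⟩ := norm_form K h2 d hd hneg s hs γ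
  rw [← hγ, hMn, Int.natAbs_of_nonneg hpos.le] at hn'
  exact mt_arith d hd hneg hd1 m hm a' w' hn' h4'

end X15
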