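import Pool.Agent.Lib.MP_87c685_nt_X15.FinTors
import Pool.Agent.Lib.MP_87c685_nt_X15.Curve
import Pool.Agent.Lib.MP_87c685_nt_X15.Halve
import Pool.Agent.Lib.MP_87c685_nt_X15.Prod
import Pool.Agent.Lib.MP_87c685_nt_X15.Classes
import Pool.Agent.Lib.MP_87c685_nt_X15.MTriv
import Pool.Agent.Lib.MP_87c685_nt_X15.BTriv

open NumberField WeierstrassCurve

namespace X15

theorem fed_isSquare {F : Type*} [Field F] (c a b : F) (hc : c ≠ 0) (hb : b = c ^ 2 * a)
    (h : IsSquare b) : IsSquare a := by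
  obtain ⟨r, hr⟩ := h
  refine ⟨r / c, ?_⟩
  have h1 : c ^ 2 * a = r * r := by rw [← hb, hr]
  field_simp
  linear_combination h1

/-- adding a point of order two to a point which is not of order two -/
theorem fed_add (D : ℚ) (hD : D ≠ 0) (x y : ℚ) (h : (E ℚ D).toAffine.Nonsingular x y)
    (hy : y ≠ 0) (e : ℚ) (he : (E ℚ D).toAffine.Nonsingular e 0) :
    ∃ x3 y3 : ℚ, ∃ h3 : (E ℚ D).toAffine.Nonsingular x3 y3, y3 ≠ 0 ∧
      Affine.Point.some x y h + Affine.Point.some e 0 he = Affine.Point.some x3 y3 h3 := by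
  have hT : Affine.Point.some e 0 he + Affine.Point.some e 0 he = 0 :=
    (add_self_eq_zero_iff D hD e 0 he).2 rfl
  have hPP : Affine.Point.some x y h + Affine.Point.some x y h ≠ 0 := by
    intro h0
    exact hy ((add_self_eq_zero_iff D hD x y h).1 h0)
  have key : (Affine.Point.some x y h + Affine.Point.some e 0 he) +
      (Affine.Point.some x y h + Affine.Point.some e 0 he) ≠ 0 := by
    intro h0
    apply hPP
    have : (Affine.Point.some x y h + Affine.Point.some e 0 he) +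
      (Affine.Point.some x y h + Affine.Point.some e 0 he) =
      (Affine.Point.some x y h + Affine.Point.some x y h) +
      (Affine.Point.some e 0 he + Affine.Point.some e 0 he) := by abel
    rw [this, hT, add_zero] at h0
    exact h0
  generalize hR : Affine.Point.some x y h + Affine.Point.some e 0 he = R at key
  cases R with
  | zero =>
    exact absurd (add_zero (0 : (E ℚ D).toAffine.Point)) key
  | some x3 y3 h3 =>
    refine ⟨x3, y3, h3, ?_, rfl⟩
    intro hy3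
    exact key ((add_self_eq_zero_iff D hD x3 y3 h3).2 hy3)

/-- the case `b = 1` -/
theorem fed_claim (K : Type*) [Field K] [NumberField K] (h2 : Module.finrank ℚ K = 2)
    (d : ℤ) (hd : Squarefree d) (hneg : d < 0) (s : K) (hs : s ^ 2 = (d : K))
    (h3 : d % 3 ≠ 2) (h5 : d % 5 ≠ 1 ∧ d % 5 ≠ 4)
    (hcl : ∀ c : ClassGroup (𝓞 K), orderOf c ≠ 4) (x y : ℚ)
    (h : (E ℚ (d : ℚ)).toAffine.Nonsingular x y) (hy : y ≠ 0) (z : ℚ) (hz : z ≠ 0)
    (hxz : x + 9 * (d : ℚ) = z ^ 2) :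
    ∃ T : (E ℚ (d : ℚ)).toAffine.Point, T + T = 0 ∧
      ∃ Q : (E ℚ (d : ℚ)).toAffine.Point, Affine.Point.some x y h + T = Q + Q := by
  have hD : (d : ℚ) ≠ 0 := by exact_mod_cast hneg.ne
  have heq := (nonsingular_iff (d : ℚ) x y hD).1 h
  obtain ⟨_, m, _, w, _, hm, _, hw, _, hxw⟩ := exists_classes d hd hneg h3 h5 x y hy heq
  have hm0 : (m : ℚ) ≠ 0 := by exact_mod_cast hm.pos.ne'
  set u : ℚ := y / (z * m * w) with hu
  have hu0 : u ≠ 0 := div_ne_zero hy (mul_ne_zero (mul_ne_zero hz hm0) hw)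
  have hxu : x = m * u ^ 2 := by
    rw [hxz, hxw] at heq
    rw [hu, div_pow, heq]
    field_simp
  have hd1 : d ≠ -1 := by
    rintro rfl
    exact h3 (by norm_num)
  have hnorm : (m : ℚ) * u ^ 2 = z ^ 2 - (d : ℚ) * 3 ^ 2 := by
    rw [← hxu]
    linear_combination hxz
  rcases m_trivial K h2 d hd hneg s hs hd1 hcl m hm z 3 u hu0 hnorm with hm1 | hm1
  · -- all three are squares
    subst hm1
    refine ⟨0, add_zero 0, ?_⟩
    rw [add_zero]
    refine halve (d : ℚ) hD x y h ⟨u, ?_⟩ ⟨z, ?_⟩ ⟨w, ?_⟩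
    · rw [hxu]; push_cast; ring
    · rw [hxz]; ring
    · rw [hxw]; push_cast; ring
  · have hmq : (m : ℚ) = -(d : ℚ) := by rw [hm1]; push_cast; ring
    have he : (E ℚ (d : ℚ)).toAffine.Nonsingular (-9 * (d : ℚ)) 0 := by
      rw [nonsingular_iff (d : ℚ) _ _ hD]
      ring
    refine ⟨Affine.Point.some (-9 * (d : ℚ)) 0 he,
      (add_self_eq_zero_iff (d : ℚ) hD _ _ he).2 rfl, ?_⟩
    obtain ⟨x3, y3, hn3, hy3, hsum⟩ := fed_add (d : ℚ) hD x y h hy _ he
    obtain ⟨q1, _, q3⟩ := prod_isSquare (d : ℚ) hD x y _ _ x3 y3 h he hn3 hsum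
    have heq3 := (nonsingular_iff (d : ℚ) x3 y3 hD).1 hn3
    have hx3 : x3 ≠ 0 := by
      intro h0
      apply hy3
      have : y3 ^ 2 = 0 := by rw [heq3, h0]; ring
      exact pow_eq_zero_iff (two_ne_zero) |>.1 this
    have hx3' : x3 - 16 * (d : ℚ) ≠ 0 := by
      intro h0
      apply hy3
      have : y3 ^ 2 = 0 := by rw [heq3, h0]; ring
      exact pow_eq_zero_iff (two_ne_zero) |>.1 this
    have s1 : IsSquare x3 := by
      refine fed_isSquare (3 * (d : ℚ) * u) x3 _ ?_ ?_ q1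
      · exact mul_ne_zero (mul_ne_zero (by norm_num) hD) hu0
      · rw [hxu, hmq]; ring
    have s3 : IsSquare (x3 - 16 * (d : ℚ)) := by
      refine fed_isSquare (5 * (d : ℚ) * w) _ _ ?_ ?_ q3
      · exact mul_ne_zero (mul_ne_zero (by norm_num) hD) hw
      · rw [hxw, hmq]; ring
    have s2 : IsSquare (x3 + 9 * (d : ℚ)) := by
      obtain ⟨α, hα⟩ := s1
      obtain ⟨β, hβ⟩ := s3
      have hα0 : α ≠ 0 := by
        rintro rfl
        exact hx3 (by rw [hα]; ring)
      have hβ0 : β ≠ 0 := by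
        rintro rfl
        exact hx3' (by rw [hβ]; ring)
      refine ⟨y3 / (α * β), ?_⟩
      field_simp
      linear_combination (-1 : ℚ) * heq3 + (x3 + 9 * (d : ℚ)) * (x3 - 16 * (d : ℚ)) * (-1) * hα +
        (x3 + 9 * (d : ℚ)) * (-1) * (α * α) * hβ
    obtain ⟨Q, hQ⟩ := halve (d : ℚ) hD x3 y3 hn3 s1 s2 s3
    exact ⟨Q, by rw [hsum, hQ]⟩

theorem fed_cover (K : Type*) [Field K] [NumberField K] (h2 : Module.finrank ℚ K = 2)
    (d : ℤ) (hd : Squarefree d) (hneg : d < 0) (s : K) (hs : s ^ 2 = (d : K))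
    (h3 : d % 3 ≠ 2) (h5 : d % 5 ≠ 1 ∧ d % 5 ≠ 4)
    (hcl : ∀ c : ClassGroup (𝓞 K), orderOf c ≠ 4) (P : (E ℚ (d : ℚ)).toAffine.Point) :
    ∃ T ∈ {T : (E ℚ (d : ℚ)).toAffine.Point | T + T = 0},
      ∃ Q : (E ℚ (d : ℚ)).toAffine.Point, P + T = Q + Q := by
  have hD : (d : ℚ) ≠ 0 := by exact_mod_cast hneg.ne
  cases P with
  | zero =>
    exact ⟨0, add_zero 0, 0, rfl⟩
  | some x y h =>
    by_cases hy : y = 0
    · have h0 : Affine.Point.some x y h + Affine.Point.some x y h = 0 :=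
        (add_self_eq_zero_iff (d : ℚ) hD x y h).2 hy
      exact ⟨Affine.Point.some x y h, h0, 0, by rw [h0, add_zero]⟩
    · have heq := (nonsingular_iff (d : ℚ) x y hD).1 h
      obtain ⟨b, m, z, w, hb, _, hz, _, hxz, _⟩ := exists_classes d hd hneg h3 h5 x y hy heq
      rcases b_trivial K h2 d hd hneg s hs hcl b hb with hb1 | hb1
      · have hxz' : x + 9 * (d : ℚ) = z ^ 2 := by rw [hxz, hb1]; push_cast; ring
        obtain ⟨T, hT, Q, hQ⟩ :=
          fed_claim K h2 d hd hneg s hs h3 h5 hcl x y h hy z hz hxz'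
        exact ⟨T, hT, Q, hQ⟩
      · have he : (E ℚ (d : ℚ)).toAffine.Nonsingular (16 * (d : ℚ)) 0 := by
          rw [nonsingular_iff (d : ℚ) _ _ hD]
          ring
        have hT1 : Affine.Point.some (16 * (d : ℚ)) 0 he + Affine.Point.some (16 * (d : ℚ)) 0 he
            = 0 := (add_self_eq_zero_iff (d : ℚ) hD _ _ he).2 rfl
        obtain ⟨x1, y1, hn1, hy1, hsum⟩ := fed_add (d : ℚ) hD x y h hy _ he
        obtain ⟨_, q2, _⟩ := prod_isSquare (d : ℚ) hD x y _ _ x1 y1 h he hn1 hsum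
        have heq1 := (nonsingular_iff (d : ℚ) x1 y1 hD).1 hn1
        have s2 : IsSquare (x1 + 9 * (d : ℚ)) := by
          refine fed_isSquare (5 * (d : ℚ) * z) _ _ ?_ ?_ q2
          · exact mul_ne_zero (mul_ne_zero (by norm_num) hD) hz
          · rw [hxz, hb1]; ring
        obtain ⟨r, hr⟩ := s2
        have hr0 : r ≠ 0 := by
          rintro rfl
          apply hy1
          have : y1 ^ 2 = 0 := by rw [heq1, hr]; ring
          exact pow_eq_zero_iff (two_ne_zero) |>.1 this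
        obtain ⟨T2, hT2, Q, hQ⟩ :=
          fed_claim K h2 d hd hneg s hs h3 h5 hcl x1 y1 hn1 hy1 r hr0 (by rw [hr]; ring)
        refine ⟨Affine.Point.some (16 * (d : ℚ)) 0 he + T2, ?_, Q, ?_⟩
        · change (Affine.Point.some (16 * (d : ℚ)) 0 he + T2) +
            (Affine.Point.some (16 * (d : ℚ)) 0 he + T2) = 0
          have : (Affine.Point.some (16 * (d : ℚ)) 0 he + T2) +
            (Affine.Point.some (16 * (d : ℚ)) 0 he + T2) =
            (Affine.Point.some (16 * (d : ℚ)) 0 he + Affine.Point.some (16 * (d : ℚ)) 0 he) +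
            (T2 + T2) := by abel
          rw [this, hT1, hT2, add_zero]
        · rw [← add_assoc, hsum, hQ]

/-- F1 -/
theorem finite_Ed (K : Type*) [Field K] [NumberField K] (h2 : Module.finrank ℚ K = 2)
    (d : ℤ) (hd : Squarefree d) (hneg : d < 0) (s : K) (hs : s ^ 2 = (d : K))
    (h3 : d % 3 ≠ 2) (h5 : d % 5 ≠ 1 ∧ d % 5 ≠ 4)
    (hcl : ∀ c : ClassGroup (𝓞 K), orderOf c ≠ 4) :
    {P : ℚ × ℚ | P.2 ^ 2 = P.1 * (P.1 + 9 * d) * (P.1 - 16 * d)}.Finite := by
  have hD : (d : ℚ) ≠ 0 := by exact_mod_cast hneg.ne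
  have := E_isElliptic (d : ℚ) hD
  have : Finite (E ℚ (d : ℚ)).toAffine.Point := by
    refine finite_of_torsion_add_two (E ℚ (d : ℚ)) {T | T + T = 0} (crv_ker_finite (d : ℚ) hD)
      ?_ (fed_cover K h2 d hd hneg s hs h3 h5 hcl)
    intro T hT
    rw [isOfFinAddOrder_iff_nsmul_eq_zero]
    exact ⟨2, by norm_num, by rw [two_nsmul]; exact hT⟩
  let g : (E ℚ (d : ℚ)).toAffine.Point → ℚ × ℚ := fun P =>
    match P with
    | .zero => (0, 0)
    | .some x y _ => (x, y)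
  refine Set.Finite.subset (Set.finite_range g) ?_
  rintro ⟨x, y⟩ hxy
  exact ⟨Affine.Point.some x y ((nonsingular_iff (d : ℚ) x y hD).2 hxy), rfl⟩

end X15
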