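import Pool.Agent.Lib.MP_87c685_nt_X15.Curve
import Pool.Agent.Lib.MP_87c685_nt_X15.Conj

open NumberField WeierstrassCurve

namespace X15

/-- the coordinates of a point -/
private noncomputable def fkCoord {F : Type*} [Field F] {W : WeierstrassCurve F} :
    W.toAffine.Point → Option (F × F)
  | .zero => none
  | .some x y _ => some (x, y)

private theorem fkCoord_inj {F : Type*} [Field F] {W : WeierstrassCurve F} :
    Function.Injective (fkCoord (W := W)) := by
  rintro (_ | ⟨x, y, h⟩) (_ | ⟨x', y', h'⟩) he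
  · rfl
  · simp [fkCoord] at he
  · simp [fkCoord] at he
  · simp only [fkCoord, Option.some.injEq, Prod.mk.injEq] at he
    obtain ⟨rfl, rfl⟩ := he
    rfl

private theorem fk_finite {F : Type*} [Field F] {W : WeierstrassCurve F} {S : Set (F × F)}
    (hS : S.Finite) :
    {P : W.toAffine.Point | P = 0 ∨ ∃ x y h, P = Affine.Point.some x y h ∧ (x, y) ∈ S}.Finite := by
  refine Set.Finite.subset ((((hS.image some).insert none)).preimage
    (fkCoord_inj (W := W)).injOn) ?_
  rintro P (rfl | ⟨x, y, h, rfl, hxy⟩)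
  · exact Or.inl rfl
  · exact Or.inr ⟨(x, y), hxy, rfl⟩

private theorem fk_map (K : Type*) [Field K] [CharZero K] [DecidableEq K]
    (W : WeierstrassCurve ℚ) (V : WeierstrassCurve K) (hV : W.map (algebraMap ℚ K) = V)
    (σ : K →ₐ[ℚ] K) :
    ∃ φ : V.toAffine.Point →+ V.toAffine.Point,
      ∀ x y (h : V.toAffine.Nonsingular x y), ∃ h' : V.toAffine.Nonsingular (σ x) (σ y),
        φ (Affine.Point.some x y h) = Affine.Point.some (σ x) (σ y) h' := by
  subst hV
  exact ⟨Affine.Point.map (W' := W) σ, fun x y h => ⟨_, rfl⟩⟩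

private theorem fk_E (K : Type*) [Field K] [CharZero K] :
    (E ℚ 1).map (algebraMap ℚ K) = E K 1 := by
  ext <;> simp [E]

/-- F3 -/
theorem finite_K (K : Type*) [Field K] [NumberField K] (h2 : Module.finrank ℚ K = 2)
    (d : ℤ) (hd : Squarefree d) (hneg : d < 0) (s : K) (hs : s ^ 2 = (d : K))
    (hE : {P : ℚ × ℚ | P.2 ^ 2 = P.1 * (P.1 + 9) * (P.1 - 16)}.Finite)
    (hEd : {P : ℚ × ℚ | P.2 ^ 2 = P.1 * (P.1 + 9 * d) * (P.1 - 16 * d)}.Finite) :
    {P : K × K | P.2 ^ 2 = P.1 * (P.1 + 9) * (P.1 - 16)}.Finite := by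
  classical
  obtain ⟨σ, hσs, hσσ, hab⟩ := exists_conj K h2 d hd hneg s hs
  obtain ⟨φ, hφ⟩ := fk_map K (E ℚ 1) (E K 1) (fk_E K) (σ : K →ₐ[ℚ] K)
  have hd0 : (d : ℚ) ≠ 0 := by exact_mod_cast hneg.ne
  have hdK : (d : K) ≠ 0 := by exact_mod_cast hneg.ne
  have hs0 : s ≠ 0 := by
    rintro rfl
    apply hdK
    rw [← hs]
    ring
  have hfix : ∀ x, σ x = x → ∃ a : ℚ, x = (a : K) := by
    intro x hx
    obtain ⟨a, b, rfl⟩ := hab x
    have h1 : σ ((a : K) + (b : K) * s) = (a : K) - (b : K) * s := by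
      rw [map_add, map_mul, hσs, map_ratCast, map_ratCast]
      ring
    rw [h1] at hx
    have h3 : (b : K) * s = 0 := by linear_combination (-1 / 2 : K) * hx
    refine ⟨a, ?_⟩
    rw [h3, add_zero]
  have hanti : ∀ x, σ x = -x → ∃ b : ℚ, x = (b : K) * s := by
    intro x hx
    obtain ⟨a, b, rfl⟩ := hab x
    have h1 : σ ((a : K) + (b : K) * s) = (a : K) - (b : K) * s := by
      rw [map_add, map_mul, hσs, map_ratCast, map_ratCast]
      ring
    rw [h1] at hx
    have h3 : (a : K) = 0 := by linear_combination (1 / 2 : K) * hx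
    refine ⟨b, ?_⟩
    rw [h3, zero_add]
  have hφφ : ∀ P, φ (φ P) = P := by
    rintro (_ | ⟨x, y, h⟩)
    · rw [← Affine.Point.zero_def, map_zero, map_zero]
    · obtain ⟨h', e1⟩ := hφ x y h
      rw [e1]
      obtain ⟨h'', e2⟩ := hφ _ _ h'
      rw [e2]
      apply fkCoord_inj
      simp only [fkCoord, Option.some.injEq, Prod.mk.injEq]
      exact ⟨hσσ x, hσσ y⟩
  have hA := fk_finite (W := E K 1) (hE.image fun P => ((P.1 : K), (P.2 : K)))
  have hB := fk_finite (W := E K 1)
    (hEd.image fun P => ((P.1 : K) / d, (P.2 : K) / d ^ 2 * s))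
  have hAB := hA.image2 (fun P Q => P + Q) hB
  have hall := finite_preimage_double (1 : K) one_ne_zero _ hAB
  have huniv : (Set.univ : Set (E K 1).toAffine.Point).Finite := by
    refine hall.subset ?_
    intro P _
    refine ⟨P + φ P, ?_, P - φ P, ?_, ?_⟩
    · have hQ : φ (P + φ P) = P + φ P := by rw [map_add, hφφ, add_comm]
      generalize P + φ P = Q at hQ
      rcases Q with _ | ⟨x, y, h⟩
      · exact Or.inl rfl
      · obtain ⟨h', e⟩ := hφ x y h
        rw [e] at hQ
        rw [Affine.Point.some.injEq] at hQ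
        obtain ⟨a, rfl⟩ := hfix x hQ.1
        obtain ⟨b, rfl⟩ := hfix y hQ.2
        refine Or.inr ⟨_, _, h, rfl, (a, b), ?_, rfl⟩
        have h5 := (nonsingular_iff (1 : K) _ _ one_ne_zero).1 h
        have h6 : ((b ^ 2 : ℚ) : K) = ((a * (a + 9) * (a - 16) : ℚ) : K) := by
          push_cast
          linear_combination h5
        exact_mod_cast h6
    · have hR : φ (P - φ P) = -(P - φ P) := by rw [map_sub, hφφ, neg_sub]
      generalize P - φ P = Q at hR
      rcases Q with _ | ⟨x, y, h⟩
      · exact Or.inl rfl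
      · obtain ⟨h', e⟩ := hφ x y h
        rw [e, Affine.Point.neg_some, Affine.Point.some.injEq] at hR
        obtain ⟨a, rfl⟩ := hfix x hR.1
        have hy : σ y = -y := by
          refine hR.2.trans ?_
          simp [Affine.negY, E]
        obtain ⟨b, rfl⟩ := hanti y hy
        refine Or.inr ⟨_, _, h, rfl, (d * a, d ^ 2 * b), ?_, ?_⟩
        · have h5 := (nonsingular_iff (1 : K) _ _ one_ne_zero).1 h
          have h6 : (((d ^ 2 * b) ^ 2 : ℚ) : K)
              = ((d * a * (d * a + 9 * d) * (d * a - 16 * d) : ℚ) : K) := by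
            push_cast
            linear_combination (d : K) ^ 3 * h5 - (d : K) ^ 3 * (b : K) ^ 2 * hs
          exact_mod_cast h6
        · simp only [Prod.mk.injEq]
          push_cast
          constructor <;> field_simp
    · show P + φ P + (P - φ P) = P + P
      abel
  have hfin := huniv.image (fkCoord (W := E K 1))
  refine Set.Finite.subset (hfin.preimage (Option.some_injective _).injOn) ?_
  rintro ⟨x, y⟩ hxy
  have hn : (E K 1).toAffine.Nonsingular x y := by
    rw [nonsingular_iff (1 : K) _ _ one_ne_zero]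
    change y ^ 2 = x * (x + 9) * (x - 16) at hxy
    rw [hxy]
    ring
  exact ⟨Affine.Point.some x y hn, Set.mem_univ _, rfl⟩

end X15
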