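import Pool.Agent.Lib.MP_87c685_nt_X15.Par

open NumberField WeierstrassCurve

namespace X15

private theorem FinTors_northcott {K : Type*} [Field K] [NumberField K] [DecidableEq K]
    (W : WeierstrassCurve K) [W.IsElliptic] :
    Northcott (fun P : W.toAffine.Point => Height.logHeight P.xRep) := by
  refine ⟨fun b => ?_⟩
  have hfin : {x : K | Height.logHeight₁ x ≤ b}.Finite :=
    NumberField.finite_setOfPred_logHeight₁_le K b
  refine Set.Finite.of_finite_fibers (fun P : W.toAffine.Point => P.xRep) ?_ ?_
  · refine ((Set.finite_singleton (![1, 0] : Fin 2 → K)).union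
      (hfin.image fun x => (![x, 1] : Fin 2 → K))).subset ?_
    rintro _ ⟨P, hP, rfl⟩
    cases P with
    | zero => left; simp [WeierstrassCurve.Affine.Point.xRep]
    | some x y h =>
      right
      refine ⟨x, ?_, by simp [WeierstrassCurve.Affine.Point.xRep]⟩
      simp only [Set.mem_ofPred_eq] at hP ⊢
      rw [Height.logHeight₁_eq_logHeight]
      simpa [WeierstrassCurve.Affine.Point.xRep] using hP
  · intro x hx
    obtain ⟨P, hP, rfl⟩ := hx
    refine ((Set.finite_singleton (-P)).insert P).subset ?_
    rintro Q ⟨hQ, hQP⟩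
    rcases WeierstrassCurve.Affine.Point.xRep_eq_xRep_iff.mp hQP with h | h
    · left; exact h
    · right; exact h

/-- A3 -/
theorem finite_of_torsion_add_two {K : Type*} [Field K] [NumberField K] [DecidableEq K]
    (W : WeierstrassCurve K) [W.IsElliptic] (F : Set W.toAffine.Point) (hF : F.Finite)
    (htors : ∀ T ∈ F, IsOfFinAddOrder T)
    (hcov : ∀ P : W.toAffine.Point, ∃ T ∈ F, ∃ Q : W.toAffine.Point, P + T = Q + Q) :
    Finite W.toAffine.Point := by
  classical
  set h : W.toAffine.Point → ℝ := fun P => Height.logHeight P.xRep with hh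
  have hN : Northcott h := FinTors_northcott W
  have hpos : ∀ P, 0 ≤ h P := fun P => Height.logHeight_nonneg _
  obtain ⟨C, hC⟩ := parallelogram (K := K) W
  have hC' : ∀ P Q : W.toAffine.Point, |h (P + Q) + h (P - Q) - 2 * (h P + h Q)| ≤ C := hC
  have hfin : Finite (AddCommGroup.torsion W.toAffine.Point) :=
    AddCommGroup.finite_torsion_of_descent' hC'
  -- bound for the heights of the points of F
  obtain ⟨M, hM⟩ : ∃ M : ℝ, ∀ T ∈ F, h T ≤ M := by
    obtain ⟨M, hM⟩ := (hF.image h).bddAbove
    exact ⟨M, fun T hT => hM (Set.mem_image_of_mem h hT)⟩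
  choose T hT q hq using hcov
  set C3 : ℝ := (2 * M + 2 * C + h 0) / 4 with hC3
  have hstep : ∀ P, h (q P) ≤ h P / 2 + C3 := by
    intro P
    have h1 := hC' P (T P)
    have h2 := hC' (q P) (q P)
    have h3 := hpos (P - T P)
    have h4 := hM _ (hT P)
    rw [sub_self, ← hq P] at h2
    rw [abs_le] at h1 h2
    rw [hC3]
    linarith [h1.1, h1.2, h2.1, h2.2]
  have hall : ∀ P : W.toAffine.Point, P ∈ AddCommGroup.torsion W.toAffine.Point := by
    intro P
    set x : ℕ → W.toAffine.Point := fun n => q^[n] P with hx
    have hx0 : x 0 = P := rfl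
    have hxs : ∀ n, x (n + 1) = q (x n) := fun n => Function.iterate_succ_apply' q n P
    have hbd : ∀ n, h (x n) ≤ max (h P) (2 * C3) := by
      intro n
      induction n with
      | zero => exact le_max_left _ _
      | succ n ih =>
        rw [hxs]
        have h5 := hstep (x n)
        have h6 := le_max_right (h P) (2 * C3)
        linarith
    have htor : ∀ i k, x i - 2 ^ k • x (i + k) ∈ AddCommGroup.torsion W.toAffine.Point := by
      intro i k
      induction k with
      | zero => simp
      | succ k ih =>
        have h7 : x (i + (k + 1)) = q (x (i + k)) := hxs (i + k)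
        have h8 := hq (x (i + k))
        have h9 : x i - 2 ^ (k + 1) • x (i + (k + 1))
            = (x i - 2 ^ k • x (i + k)) - 2 ^ k • T (x (i + k)) := by
          rw [h7, pow_succ, mul_smul, two_smul, ← h8, smul_add]
          abel
        rw [h9]
        exact sub_mem ih (AddSubgroup.nsmul_mem _ (htors _ (hT _)) _)
    -- the orbit is not injective
    obtain ⟨i, k, hk, hik⟩ : ∃ i k : ℕ, 0 < k ∧ x i = x (i + k) := by
      by_contra hne
      push Not at hne
      have hinj : Function.Injective x := by
        intro a b hab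
        rcases lt_trichotomy a b with hlt | heq | hlt
        · exact absurd (by rw [Nat.add_sub_cancel' hlt.le]; exact hab)
            (hne a (b - a) (Nat.sub_pos_of_lt hlt))
        · exact heq
        · exact absurd (by rw [Nat.add_sub_cancel' hlt.le]; exact hab.symm)
            (hne b (a - b) (Nat.sub_pos_of_lt hlt))
      have h10 : (Set.range x).Infinite := Set.infinite_range_of_injective hinj
      refine h10 ((hN.finite_le (max (h P) (2 * C3))).subset ?_)
      rintro _ ⟨n, rfl⟩
      exact hbd n
    have h11 : x i ∈ AddCommGroup.torsion W.toAffine.Point := by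
      have h12 := htor i k
      rw [← hik] at h12
      have h13 : x i - 2 ^ k • x i = -((2 ^ k - 1) • x i) := by
        have h14 : (2 ^ k : ℕ) = (2 ^ k - 1) + 1 := (Nat.sub_add_cancel Nat.one_le_two_pow).symm
        have h15 : (2 ^ k : ℕ) • x i = (2 ^ k - 1) • x i + x i := by
          conv_lhs => rw [h14]
          rw [succ_nsmul]
        rw [h15]
        abel
      rw [h13] at h12
      have h16 : IsOfFinAddOrder ((2 ^ k - 1) • x i) := neg_mem_iff.mp h12
      refine IsOfFinAddOrder.of_nsmul h16 ?_
      have h17 : 2 ≤ 2 ^ k := by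
        calc 2 = 2 ^ 1 := rfl
          _ ≤ 2 ^ k := Nat.pow_le_pow_right (by norm_num) hk
      omega
    have h18 := htor 0 i
    rw [zero_add] at h18
    have h19 : x 0 = (x 0 - 2 ^ i • x i) + 2 ^ i • x i := by abel
    rw [← hx0, h19]
    exact add_mem h18 (AddSubgroup.nsmul_mem _ h11 _)
  exact Set.finite_univ_iff.mp (Set.Finite.subset (Set.toFinite
    (AddCommGroup.torsion W.toAffine.Point : Set W.toAffine.Point)) fun P _ => hall P)

end X15
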