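import Pool.Agent.Lib.MP_87c685_nt_X15.Defs

open NumberField WeierstrassCurve

namespace X15

/-- E1 -/
theorem exists_odd_pow {G : Type*} [CommGroup G] [Finite G] (h : ∀ c : G, orderOf c ≠ 4) :
    ∃ k : ℕ, k % 2 = 1 ∧ ∀ c : G, c ^ (2 * k) = 1 := by
  have hcard : Nat.card G ≠ 0 := Nat.card_pos.ne'
  obtain ⟨a, k, hk, hak⟩ := Nat.exists_eq_two_pow_mul_odd hcard
  refine ⟨k, Nat.odd_iff.mp hk, fun c => ?_⟩
  have ho0 : orderOf c ≠ 0 := (orderOf_pos c).ne'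
  have h4 : ¬ 4 ∣ orderOf c := by
    intro h4
    exact h _ (orderOf_pow_orderOf_div ho0 h4)
  obtain ⟨j, m, hm, hjm⟩ := Nat.exists_eq_two_pow_mul_odd ho0
  have hj : j ≤ 1 := by
    by_contra hj
    have hj2 : 2 ≤ j := by omega
    apply h4
    have : (2 : ℕ) ^ 2 ∣ 2 ^ j := pow_dvd_pow 2 hj2
    rw [hjm]
    exact Dvd.dvd.mul_right this m
  have hmk : m ∣ k := by
    have h1 : m ∣ 2 ^ a * k := by
      rw [← hak]
      refine dvd_trans ?_ (orderOf_dvd_natCard c)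
      rw [hjm]
      exact dvd_mul_left m _
    have hc : Nat.Coprime m (2 ^ a) := by
      apply Nat.Coprime.pow_right
      exact hm.coprime_two_right
    exact hc.dvd_of_dvd_mul_left h1
  apply orderOf_dvd_iff_pow_eq_one.mp
  rw [hjm]
  exact mul_dvd_mul ((pow_dvd_pow 2 hj).trans (by simp)) hmk

theorem exists_odd_principal (K : Type*) [Field K] [NumberField K]
    (h : ∀ c : ClassGroup (𝓞 K), orderOf c ≠ 4) :
    ∃ k : ℕ, k % 2 = 1 ∧ ∀ I : Ideal (𝓞 K), I ≠ ⊥ → (I ^ (2 * k)).IsPrincipal := by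
  obtain ⟨k, hk, hc⟩ := exists_odd_pow h
  refine ⟨k, hk, fun I hI => ?_⟩
  have hI0 : I ∈ nonZeroDivisors (Ideal (𝓞 K)) := mem_nonZeroDivisors_of_ne_zero hI
  have h1 := hc (ClassGroup.mk0 ⟨I, hI0⟩)
  rw [← map_pow, SubmonoidClass.mk_pow, ClassGroup.mk0_eq_one_iff] at h1
  exact h1

end X15
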