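import Pool.Agent.Lib.MP_87c685_nt_X15.Conj

open NumberField WeierstrassCurve

namespace X15

/-- an integral element of the form `a + b s` which is fixed by the conjugation is an integer -/
theorem idconj_fixed (K : Type*) [Field K] [NumberField K] (s : K)
    (σ : K ≃ₐ[ℚ] K) (hσ : σ s = -s) (hab : ∀ x : K, ∃ a b : ℚ, x = (a : K) + (b : K) * s)
    (z : 𝓞 K) (hz : σ (z : K) = z) : ∃ n : ℤ, z = (n : 𝓞 K) := by
  obtain ⟨a, b, h⟩ := hab (z : K)
  have h1 : σ (z : K) = (a : K) - (b : K) * s := by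
    rw [h, map_add, map_mul, hσ, map_ratCast, map_ratCast]
    ring
  have h2 : (b : K) * s = 0 := by
    have h3 : (a : K) - (b : K) * s = (a : K) + (b : K) * s := by rw [← h1, hz, ← h]
    have h4 : (2 : K) * ((b : K) * s) = 0 := by linear_combination -h3
    exact (mul_eq_zero.1 h4).resolve_left two_ne_zero
  have h5 : (z : K) = (a : K) := by rw [h, h2, add_zero]
  have h6 : IsIntegral ℤ (algebraMap ℚ K a) := by
    have h7 : algebraMap ℚ K a = (z : K) := by rw [h5]; simp
    rw [h7]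
    exact z.isIntegral_coe
  have h8 : IsIntegral ℤ a := (isIntegral_algebraMap_iff (algebraMap ℚ K).injective).1 h6
  obtain ⟨n, hn⟩ := IsIntegrallyClosed.isIntegral_iff.1 h8
  refine ⟨n, ?_⟩
  apply RingOfIntegers.ext
  rw [h5, ← hn]
  simp

/-- the absolute norm of a conjugate ideal -/
theorem idconj_absNorm {R S : Type*} [CommRing R] [CommRing S] [IsDedekindDomain R]
    [IsDedekindDomain S] [Module.Free ℤ R] [Module.Free ℤ S] [Module.Finite ℤ R]
    [Module.Finite ℤ S] (f : R ≃+* S) (I : Ideal R) :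
    Ideal.absNorm (I.map (f : R →+* S)) = Ideal.absNorm I := by
  rw [Ideal.absNorm_apply, Ideal.absNorm_apply, Submodule.cardQuot_apply,
    Submodule.cardQuot_apply]
  exact (Nat.card_congr (Ideal.quotientEquiv I (I.map (f : R →+* S)) f rfl).toEquiv).symm

/-- E2 -/
theorem ideal_mul_conj (K : Type*) [Field K] [NumberField K] (h2 : Module.finrank ℚ K = 2)
    (d : ℤ) (hd : Squarefree d) (hneg : d < 0) (s : K) (hs : s ^ 2 = (d : K))
    (σ : K ≃ₐ[ℚ] K) (hσ : σ s = -s) (I : Ideal (𝓞 K)) :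
    I * I.map (RingOfIntegers.mapRingEquiv σ.toRingEquiv).toRingHom =
      Ideal.span {((Ideal.absNorm I : ℕ) : 𝓞 K)} := by
  obtain ⟨τ, hτ, -, hab⟩ := exists_conj K h2 d hd hneg s hs
  have hs0 : s ≠ 0 := by
    rintro rfl
    have h3 : (d : K) = 0 := by rw [← hs]; ring
    have h4 : d = 0 := by exact_mod_cast h3
    omega
  set f : 𝓞 K ≃+* 𝓞 K := RingOfIntegers.mapRingEquiv σ.toRingEquiv with hf
  have hfc : ∀ x : 𝓞 K, (f x : K) = σ (x : K) := fun x => rfl
  have hσσ : ∀ x : K, σ (σ x) = x := by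
    intro x
    obtain ⟨a, b, h⟩ := hab x
    rw [h, map_add, map_mul, hσ, map_add, map_mul, map_ratCast, map_ratCast, map_neg, hσ,
      map_ratCast, map_ratCast, neg_neg]
  have hff : ∀ x : 𝓞 K, f (f x) = x := by
    intro x
    apply RingOfIntegers.ext
    rw [hfc, hfc, hσσ]
  have hfix : ∀ z : 𝓞 K, f z = z → ∃ n : ℤ, z = (n : 𝓞 K) := by
    intro z hz
    apply idconj_fixed K s σ hσ hab z
    rw [← hfc, hz]
  change I * I.map (f : 𝓞 K →+* 𝓞 K) = _
  by_cases hI : I = ⊥
  · rw [hI]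
    simp
  set J := I * I.map (f : 𝓞 K →+* 𝓞 K) with hJ
  have hmem : ∀ x ∈ I, ∀ y ∈ I, x * f y ∈ J := fun x hx y hy =>
    Ideal.mul_mem_mul hx (Ideal.mem_map_of_mem _ hy)
  -- the generator
  obtain ⟨g, hg⟩ := IsPrincipalIdealRing.principal (Ideal.comap (algebraMap ℤ (𝓞 K)) J)
  have hgJ : (g : 𝓞 K) ∈ J := by
    have h3 : g ∈ Ideal.comap (algebraMap ℤ (𝓞 K)) J := by
      rw [hg]
      exact Submodule.mem_span_singleton_self g
    rw [Ideal.mem_comap] at h3
    simpa using h3
  have hdvd : ∀ n : ℤ, (n : 𝓞 K) ∈ J → g ∣ n := by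
    intro n hn
    have h3 : n ∈ Ideal.comap (algebraMap ℤ (𝓞 K)) J := by
      rw [Ideal.mem_comap]
      simpa using hn
    rw [hg] at h3
    exact Ideal.mem_span_singleton.1 h3
  obtain ⟨x0, hx0, hx00⟩ := Submodule.exists_mem_ne_zero_of_ne_bot hI
  have hN : ∀ x ∈ I, ∃ n : ℤ, x * f x = ((g * n : ℤ) : 𝓞 K) := by
    intro x hx
    obtain ⟨n, hn⟩ := hfix (x * f x) (by rw [map_mul, hff, mul_comm])
    obtain ⟨m, hm⟩ := hdvd n (by rw [← hn]; exact hmem x hx x hx)
    exact ⟨m, by rw [hn, hm]⟩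
  have hT : ∀ x ∈ I, ∀ y ∈ I, ∃ n : ℤ, x * f y + f x * y = ((g * n : ℤ) : 𝓞 K) := by
    intro x hx y hy
    obtain ⟨n, hn⟩ := hfix (x * f y + f x * y) (by
      rw [map_add, map_mul, map_mul, hff, hff]
      ring)
    obtain ⟨m, hm⟩ := hdvd n (by
      rw [← hn]
      apply Ideal.add_mem _ (hmem x hx y hy)
      rw [mul_comm]
      exact hmem y hy x hx)
    exact ⟨m, by rw [hn, hm]⟩
  have hg0 : g ≠ 0 := by
    rintro rfl
    obtain ⟨n, hn⟩ := hN x0 hx0
    rw [zero_mul, Int.cast_zero] at hn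
    rcases mul_eq_zero.1 hn with h | h
    · exact hx00 h
    · exact hx00 ((map_eq_zero_iff f f.injective).1 h)
  have hgK : ((g : ℤ) : K) ≠ 0 := by exact_mod_cast hg0
  -- the product is generated by `g`
  have hJg : J = Ideal.span {(g : 𝓞 K)} := by
    apply le_antisymm
    · rw [hJ, Ideal.mul_le]
      intro x hx y' hy'
      obtain ⟨y, hy, rfl⟩ := (Ideal.mem_map_iff_of_surjective (f : 𝓞 K →+* 𝓞 K)
        f.surjective).1 hy'
      change x * f y ∈ _
      obtain ⟨t, ht⟩ := hT x hx y hy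
      obtain ⟨n, hn⟩ := hN x hx
      obtain ⟨m, hm⟩ := hN y hy
      have hu : IsIntegral ℤ (((x * f y : 𝓞 K) : K) / ((g : ℤ) : K)) := by
        refine ⟨Polynomial.X ^ 2 - Polynomial.C t * Polynomial.X + Polynomial.C (n * m), ?_, ?_⟩
        · monicity!
        · have e1 : ((x * f y : 𝓞 K) : K) + ((f x * y : 𝓞 K) : K) = ((g : ℤ) : K) * (t : K) := by
            have := congrArg (fun z : 𝓞 K => (z : K)) ht
            simpa using this
          have e2 : ((x * f y : 𝓞 K) : K) * ((f x * y : 𝓞 K) : K) =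
              ((g : ℤ) : K) * (n : K) * (((g : ℤ) : K) * (m : K)) := by
            have h3 := congrArg (fun z : 𝓞 K => (z : K)) hn
            have h4 := congrArg (fun z : 𝓞 K => (z : K)) hm
            simp at h3 h4
            push_cast
            linear_combination ((y : K) * (f y : K)) * h3 + ((g : ℤ) : K) * (n : K) * h4
          set u : K := ((x * f y : 𝓞 K) : K) with hu'
          set v : K := ((f x * y : 𝓞 K) : K) with hv'
          rw [Polynomial.eval₂_add, Polynomial.eval₂_sub, Polynomial.eval₂_mul,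
            Polynomial.eval₂_pow, Polynomial.eval₂_X, Polynomial.eval₂_C, Polynomial.eval₂_C,
            eq_intCast, eq_intCast]
          push_cast
          field_simp
          have e3 : v = ((g : ℤ) : K) * (t : K) - u := by linear_combination e1
          rw [e3] at e2
          linear_combination -e2
      rw [Ideal.mem_span_singleton]
      obtain ⟨v, hv⟩ := (IsIntegralClosure.isIntegral_iff (A := 𝓞 K) (R := ℤ) (B := K)).1 hu
      refine ⟨v, ?_⟩
      apply RingOfIntegers.ext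
      have e4 : ((((g : ℤ) : 𝓞 K) * v : 𝓞 K) : K) = ((g : ℤ) : K) * algebraMap (𝓞 K) K v := by
        simp
      rw [e4, hv]
      field_simp
    · rw [Ideal.span_le]
      rintro _ rfl
      exact hgJ
  -- the norm
  have hgn : Ideal.span {(g : 𝓞 K)} = Ideal.span {((g.natAbs : ℕ) : 𝓞 K)} := by
    rcases Int.natAbs_eq g with h | h
    · conv_lhs => rw [h]
      simp
    · conv_lhs => rw [h]
      rw [Int.cast_neg, Ideal.span_singleton_neg]
      simp
  have hnorm : Ideal.absNorm J = Ideal.absNorm I * Ideal.absNorm I := by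
    rw [hJ, map_mul, idconj_absNorm]
  have hr : Module.finrank ℤ (𝓞 K) = 2 := by rw [RingOfIntegers.rank, h2]
  rw [hJg, hgn, Ideal.absNorm_span_natCast, hr, sq] at hnorm
  have h9 : g.natAbs = Ideal.absNorm I := Nat.mul_self_inj.1 hnorm
  rw [hJg, hgn, h9]

end X15
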