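import Pool.Agent.Lib.MP_87c685_nt_X15.FinEd
import Pool.Agent.Lib.MP_87c685_nt_X15.FinE1
import Pool.Agent.Lib.MP_87c685_nt_X15.FinK
import Pool.Agent.Lib.MP_87c685_nt_X15.ExD

open NumberField WeierstrassCurve

namespace X15

/-- `X_0(15)(K)` injects into `{0} ∪ E_1(K)`. -/
theorem main_aux (K : Type*) [Field K] [CharZero K]
    (hK : {P : K × K | P.2 ^ 2 = P.1 * (P.1 + 9) * (P.1 - 16)}.Finite) :
    Finite (WeierstrassCurve.Affine.Point (⟨1, 1, 1, -10, -10⟩ : WeierstrassCurve K)) := by
  have hfin : Finite {P : K × K | P.2 ^ 2 = P.1 * (P.1 + 9) * (P.1 - 16)} := hK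
  let f : WeierstrassCurve.Affine.Point (⟨1, 1, 1, -10, -10⟩ : WeierstrassCurve K) →
      Option {P : K × K | P.2 ^ 2 = P.1 * (P.1 + 9) * (P.1 - 16)} := fun P =>
    match P with
    | .zero => none
    | .some x y h => some ⟨(4 * x + 4, 8 * y + 4 * x + 4), by
        have he := h.1
        rw [Affine.equation_iff] at he
        simp only [Set.mem_ofPred_eq]
        linear_combination 64 * he⟩
  refine Finite.of_injective f ?_
  intro P Q hPQ
  cases P with
  | zero =>
    cases Q with
    | zero => rfl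
    | some x' y' h' => simp [f] at hPQ
  | some x y h =>
    cases Q with
    | zero => simp [f] at hPQ
    | some x' y' h' =>
      simp only [f, Option.some.injEq, Subtype.mk.injEq, Prod.mk.injEq] at hPQ
      obtain ⟨h1, h2⟩ := hPQ
      have hx : x = x' := by
        have h4 : (4 : K) ≠ 0 := by norm_num
        apply mul_left_cancel₀ h4
        linear_combination h1
      have hy : y = y' := by
        have h8 : (8 : K) ≠ 0 := by norm_num
        apply mul_left_cancel₀ h8
        rw [hx] at h2
        linear_combination h2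
      subst hx
      subst hy
      rfl

/-- Main theorem -/
theorem main (K : Type*) [Field K] [NumberField K] [IsTotallyComplex K]
    (h2 : Module.finrank ℚ K = 2) (h3 : ¬ (Ideal.span {(3 : 𝓞 K)}).IsPrime)
    (h5 : ∃! P : Ideal (𝓞 K), P.IsPrime ∧ (5 : 𝓞 K) ∈ P)
    (hcl : ∀ c : ClassGroup (𝓞 K), orderOf c ≠ 4) :
    Finite (WeierstrassCurve.Affine.Point (⟨1, 1, 1, -10, -10⟩ : WeierstrassCurve K)) := by
  obtain ⟨d, s, hd, hneg, hs, hd3, hd5⟩ := exists_d K h2 h3 h5
  exact main_aux K (finite_K K h2 d hd hneg s hs finite_E1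
    (finite_Ed K h2 d hd hneg s hs hd3 hd5 hcl))

end X15
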