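import Pool.Agent.Lib.MP_87c685_nt_X15.Defs

open NumberField WeierstrassCurve

namespace X15

theorem psq_hensel {p : ℕ} [Fact p.Prime] (z : ℤ_[p]) (hz : ‖z‖ < ‖(2 : ℤ_[p])‖ ^ 2) :
    ∃ w : ℤ_[p], w * w = 1 + z := by
  set P : Polynomial ℤ_[p] := Polynomial.X ^ 2 - Polynomial.C (1 + z) with hP
  have h1 : P.aeval (1 : ℤ_[p]) = -z := by
    simp [hP]
  have h2 : P.derivative.aeval (1 : ℤ_[p]) = 2 := by
    simp [hP, one_add_one_eq_two]
  have hn : ‖P.aeval (1 : ℤ_[p])‖ < ‖P.derivative.aeval (1 : ℤ_[p])‖ ^ 2 := by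
    rw [h1, h2, norm_neg]
    exact hz
  obtain ⟨w, hw, -⟩ := hensels_lemma hn
  refine ⟨w, ?_⟩
  have h3 : P.aeval w = w ^ 2 - (1 + z) := by
    simp [hP]
  rw [h3] at hw
  linear_combination hw

theorem psq_isSquare {p : ℕ} [Fact p.Prime] (z : ℚ_[p]) (hz1 : ‖z‖ ≤ 1)
    (hz : ‖z‖ < ‖(2 : ℚ_[p])‖ ^ 2) : IsSquare (1 + z) := by
  obtain ⟨z', rfl⟩ : ∃ z' : ℤ_[p], (z' : ℚ_[p]) = z := ⟨⟨z, hz1⟩, rfl⟩
  have h2 : ‖(2 : ℤ_[p])‖ = ‖(2 : ℚ_[p])‖ := by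
    rw [PadicInt.norm_def]
    rfl
  obtain ⟨w, hw⟩ := psq_hensel (p := p) z' (by
    rw [h2, PadicInt.norm_def]
    exact hz)
  refine ⟨(w : ℚ_[p]), ?_⟩
  have := congrArg (fun x : ℤ_[p] => (x : ℚ_[p])) hw
  simp only [PadicInt.coe_mul, PadicInt.coe_add, PadicInt.coe_one] at this
  exact this.symm

theorem psq_norm_two {p : ℕ} [Fact p.Prime] (hp : p ≠ 2) : ‖(2 : ℚ_[p])‖ = 1 := by
  have hnd : ¬ (p : ℤ) ∣ 2 := by
    intro h
    have h' : p ∣ 2 := by exact_mod_cast h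
    exact hp ((Nat.prime_dvd_prime_iff_eq (Fact.out : p.Prime) Nat.prime_two).1 h')
  have h1 : ‖((2 : ℤ) : ℤ_[p])‖ = 1 := by
    have h2 := PadicInt.norm_int_lt_one_iff_dvd (p := p) 2
    have h3 : ‖((2 : ℤ) : ℤ_[p])‖ ≤ 1 := PadicInt.norm_le_one _
    rcases lt_or_eq_of_le h3 with h4 | h4
    · exact absurd (h2.1 h4) hnd
    · exact h4
  have h5 : ‖((2 : ℤ) : ℤ_[p])‖ = ‖(2 : ℚ_[p])‖ := by
    rw [PadicInt.norm_def, PadicInt.coe_intCast, Int.cast_ofNat]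
  rw [← h5, h1]

theorem isSquare_one_add {p : ℕ} [Fact p.Prime] (hp : p ≠ 2) (z : ℚ_[p]) (hz : ‖z‖ < 1) :
    IsSquare (1 + z) := by
  apply psq_isSquare z hz.le
  rw [psq_norm_two hp]
  simpa using hz

theorem isSquare_one_add_two (z : ℚ_[2]) (hz : ‖z‖ ≤ 1 / 8) : IsSquare (1 + z) := by
  apply psq_isSquare z (hz.trans (by norm_num))
  have h : ‖(2 : ℚ_[2])‖ = 2⁻¹ := by
    have := Padic.norm_p (p := 2)
    simpa using this
  rw [h]
  refine lt_of_le_of_lt hz (by norm_num)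

theorem even_valuation {p : ℕ} [Fact p.Prime] (z : ℚ_[p]) (h : IsSquare z) :
    Even z.valuation := by
  obtain ⟨w, rfl⟩ := h
  by_cases hw : w = 0
  · subst hw
    simp
  · rw [Padic.valuation_mul hw hw]
    exact ⟨_, rfl⟩

theorem psq_norm_unit {p : ℕ} [Fact p.Prime] (u : ℤ) (hu : ¬ (p : ℤ) ∣ u) :
    ‖(u : ℚ_[p])‖ = 1 := by
  have h2 := PadicInt.norm_int_lt_one_iff_dvd (p := p) u
  have h3 : ‖(u : ℤ_[p])‖ ≤ 1 := PadicInt.norm_le_one _
  have h5 : ‖(u : ℤ_[p])‖ = ‖(u : ℚ_[p])‖ := by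
    rw [PadicInt.norm_def]
    norm_num
  rcases lt_or_eq_of_le h3 with h4 | h4
  · exact absurd (h2.1 h4) hu
  · rw [← h5, h4]

/-- a square root of a unit integer in `ℚ_p` is a `p`-adic integer -/
theorem psq_root {p : ℕ} [Fact p.Prime] (u : ℤ) (hu : ¬ (p : ℤ) ∣ u) (h : Sq p u) :
    ∃ w : ℤ_[p], w * w = (u : ℤ_[p]) := by
  obtain ⟨w, hw⟩ := h
  have hw' : (u : ℚ_[p]) = w * w := by
    rw [← hw]
    push_cast
    rfl
  have hn : ‖w‖ * ‖w‖ = 1 := by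
    rw [← norm_mul, ← hw']
    exact psq_norm_unit u hu
  have hn1 : ‖w‖ ≤ 1 := by
    have h0 := norm_nonneg w
    nlinarith
  refine ⟨⟨w, hn1⟩, ?_⟩
  apply Subtype.ext
  change w * w = _
  rw [← hw']
  norm_num

theorem sq_int_iff {p : ℕ} [Fact p.Prime] (hp : p ≠ 2) (u : ℤ) (hu : ¬ (p : ℤ) ∣ u) :
    Sq p u ↔ IsSquare (u : ZMod p) := by
  constructor
  · intro h
    obtain ⟨w, hw⟩ := psq_root u hu h
    refine ⟨PadicInt.toZMod w, ?_⟩
    rw [← map_mul, hw, map_intCast]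
  · rintro ⟨a, ha⟩
    obtain ⟨b, rfl⟩ := ZMod.intCast_surjective a
    have hdvd : (p : ℤ) ∣ u - b * b := by
      rw [← ZMod.intCast_zmod_eq_zero_iff_dvd]
      push_cast
      rw [ha]
      ring
    have hb : ¬ (p : ℤ) ∣ b := by
      intro hb
      apply hu
      have : (p : ℤ) ∣ b * b := Dvd.dvd.mul_right hb b
      have h2 := dvd_add hdvd this
      simpa using h2
    have hbn : ‖(b : ℚ_[p])‖ = 1 := psq_norm_unit b hb
    have hb0 : (b : ℚ_[p]) ≠ 0 := by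
      intro h0
      rw [h0, norm_zero] at hbn
      exact zero_ne_one hbn
    have hz : ‖(((u - b * b : ℤ)) : ℚ_[p]) / ((b : ℚ_[p]) * (b : ℚ_[p]))‖ < 1 := by
      rw [norm_div, norm_mul, hbn, mul_one, div_one]
      have h2 := (PadicInt.norm_int_lt_one_iff_dvd (p := p) (u - b * b)).2 hdvd
      rw [PadicInt.norm_def] at h2
      simpa using h2
    have hsq := isSquare_one_add hp _ hz
    unfold Sq
    have : (((u : ℚ)) : ℚ_[p]) = (b : ℚ_[p]) * (b : ℚ_[p]) *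
        (1 + (((u - b * b : ℤ)) : ℚ_[p]) / ((b : ℚ_[p]) * (b : ℚ_[p]))) := by
      push_cast
      field_simp
      ring
    rw [this]
    exact IsSquare.mul ⟨_, rfl⟩ hsq

theorem sq_two_iff (u : ℤ) (hu : u % 2 = 1) : Sq 2 u ↔ u % 8 = 1 := by
  have hu2 : ¬ ((2 : ℕ) : ℤ) ∣ u := by
    intro h
    have := Int.emod_emod_of_dvd u (show (2 : ℤ) ∣ 2 from dvd_rfl)
    have h' : (2 : ℤ) ∣ u := by exact_mod_cast h
    omega
  constructor
  · intro h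
    obtain ⟨w, hw⟩ := psq_root (p := 2) u hu2 h
    have h1 : (PadicInt.toZModPow 3 w : ZMod (2 ^ 3)) * PadicInt.toZModPow 3 w =
        ((u : ℤ) : ZMod (2 ^ 3)) := by
      rw [← map_mul, hw, map_intCast]
    have key : ∀ a c : ZMod (2 ^ 3), a * a = c → c * c * c * c = 1 → c = 1 := by decide
    have hodd : ∀ r : ZMod (2 ^ 3), r = ((u : ℤ) : ZMod (2 ^ 3)) → r * r * r * r = 1 := by
      intro r hr
      have h3 : u % 8 = 1 ∨ u % 8 = 3 ∨ u % 8 = 5 ∨ u % 8 = 7 := by omega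
      have h4 : ((u : ℤ) : ZMod (2 ^ 3)) = ((u % 8 : ℤ) : ZMod (2 ^ 3)) := by
        have : ((u : ℤ) : ZMod 8) = ((u % 8 : ℤ) : ZMod 8) := by
          rw [ZMod.intCast_eq_intCast_iff]
          exact (Int.mod_modEq u 8).symm
        exact this
      rw [hr, h4]
      rcases h3 with h3 | h3 | h3 | h3 <;> rw [h3] <;> decide
    have h5 := key _ _ h1 (hodd _ rfl)
    have h6 : ((u : ℤ) : ZMod 8) = ((1 : ℤ) : ZMod 8) := by
      rw [Int.cast_one]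
      exact h5
    rw [ZMod.intCast_eq_intCast_iff] at h6
    exact h6
  · intro h
    have h8 : ((2 ^ 3 : ℕ) : ℤ) ∣ u - 1 := by
      have : (8 : ℤ) ∣ u - 1 := by omega
      exact_mod_cast this
    have hz : ‖((u - 1 : ℤ) : ℚ_[2])‖ ≤ 1 / 8 := by
      have h2 := (Padic.norm_int_le_pow_iff_dvd (p := 2) (u - 1) 3).2 h8
      refine h2.trans ?_
      norm_num
    have h3 := isSquare_one_add_two _ hz
    unfold Sq
    have : (((u : ℚ)) : ℚ_[2]) = 1 + ((u - 1 : ℤ) : ℚ_[2]) := by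
      push_cast
      ring
    rw [this]
    exact h3

end X15
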