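import Pool.Agent.Lib.MP_87c685_nt_X15.AddSub

open NumberField WeierstrassCurve

namespace X15

private theorem Par_eta {K : Type*} (v : Fin 2 → K) : v = ![v 0, v 1] := by
  funext i
  fin_cases i <;> rfl

private theorem Par_sym2x {K : Type*} [Field K] (W : WeierstrassCurve K)
    (P Q : W.toAffine.Point) :
    P.sym2x Q = ![P.xRep 0 * Q.xRep 0, P.xRep 0 * Q.xRep 1 + P.xRep 1 * Q.xRep 0,
      P.xRep 1 * Q.xRep 1] := rfl

/-- A2 -/
theorem parallelogram {K : Type*} [Field K] [DecidableEq K] [Height.AdmissibleAbsValues K]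
    (W : WeierstrassCurve K) [W.IsElliptic] :
    ∃ C : ℝ, ∀ P Q : W.toAffine.Point,
      |Height.logHeight (P + Q).xRep + Height.logHeight (P - Q).xRep
        - 2 * (Height.logHeight P.xRep + Height.logHeight Q.xRep)| ≤ C := by
  obtain ⟨C1, h1⟩ := WeierstrassCurve.abs_logHeight_addSubMap_sub_two_mul_logHeight_le W
  obtain ⟨C2, h2⟩ := Height.abs_logHeight_sym2_sub_le K
  have key : ∀ P Q : W.toAffine.Point,
      |Height.logHeight (P.sym2x Q) - (Height.logHeight P.xRep + Height.logHeight Q.xRep)|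
        ≤ C2 := by
    intro P Q
    have hP : ![P.xRep 0, P.xRep 1] ≠ 0 := by
      rw [← Par_eta]
      exact P.xRep_ne_zero
    have hQ : ![Q.xRep 0, Q.xRep 1] ≠ 0 := by
      rw [← Par_eta]
      exact Q.xRep_ne_zero
    have h := h2 hP hQ
    rw [← Par_eta, ← Par_eta, ← Par_sym2x] at h
    exact h
  refine ⟨C1 + 3 * C2, fun P Q => ?_⟩
  obtain ⟨c, hc, hrel⟩ := addSub_rel W P Q
  have h3 := h1 (P.sym2x Q)
  rw [hrel, Height.logHeight_smul_eq_logHeight _ hc] at h3
  have h4 := key P Q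
  have h5 := key (P + Q) (P - Q)
  rw [abs_le] at h3 h4 h5 ⊢
  constructor <;> linarith [h3.1, h3.2, h4.1, h4.2, h5.1, h5.2]

end X15
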